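import Pool.Agent.N149.Tow.Mar
set_option autoImplicit false

/-! Choice of the subgroup in one layer, without any finiteness assumption. -/

open scoped Classical
set_option linter.unusedSectionVars false
set_option linter.unusedVariables false

namespace N149.Tow

open H137.PFR H137.TwoPow H137.Weak

variable {Ω : Type*} [Fintype Ω] {G : Type*} [AddCommGroup G] {w : Ω → ℝ}

/-- a finitely generated group modulo a subgroup containing all `m`-th multiples is finite -/
theorem relIndex_ne_zero_m {N M : AddSubgroup G} (hM : M.FG) (m : ℕ) (hm : 0 < m)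
    (h2 : ∀ x ∈ M, m • x ∈ N) : N.relIndex M ≠ 0 := by
  have h1 : AddGroup.FG M := (AddGroup.fg_iff_addSubgroup_fg M).2 hM
  have h3 : AddGroup.FG (M ⧸ N.addSubgroupOf M) := inferInstance
  have h4 : Finite (M ⧸ N.addSubgroupOf M) := by
    refine @AddCommGroup.finite_of_fg_isAddTorsion _ _ h3 ?_
    intro x
    rw [isOfFinAddOrder_iff_nsmul_eq_zero]
    refine ⟨m, hm, ?_⟩
    obtain ⟨y, rfl⟩ := QuotientAddGroup.mk_surjective x
    rw [← QuotientAddGroup.mk_nsmul, QuotientAddGroup.eq_zero_iff,
      AddSubgroup.mem_addSubgroupOf]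
    exact h2 y y.2
  exact Nat.card_pos.ne'

/-- the constant of the stage lemma -/
noncomputable def cc (m : ℕ) : ℝ := 246026 * dg m

theorem cc_pos (m : ℕ) : 0 < cc m := by
  unfold cc
  have := one_le_dg m
  positivity

/-- **One layer.** -/
theorem layer (hw : Law w) (X : Ω → G) {N M : AddSubgroup G} (h : N ≤ M) (m : ℕ) (hm : 0 < m)
    (h2 : ∀ x ∈ M, m • x ∈ N) :
    ∃ P : AddSubgroup G, N ≤ P ∧ P ≤ M ∧ N.relIndex P ≠ 0 ∧
      2 * hh w X P + Real.log (N.relIndex P) ≤
        hh w X N + hh w X M + cc m * (kk w X N - kk w X M) := by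
  set M' := N ⊔ red X M with hM'
  have hM'M : M' ≤ M := sup_le h (red_le X M)
  have hne : N.relIndex M' ≠ 0 := by
    rw [hM', sup_comm, AddSubgroup.relIndex_sup_right]
    exact relIndex_ne_zero_m (red_fg X M) m hm (fun x hx => h2 x (red_le X M hx))
  have hhM : hh w X M' = hh w X M := by
    refine le_antisymm ?_ (hh_anti hw X hM'M)
    rw [← hh_red X M]
    exact hh_anti hw X le_sup_right
  obtain ⟨P, hP1, hP2, hP3⟩ := stage_pair_m hw X (le_sup_left : N ≤ M') hne m hm
    (fun x hx => h2 x (hM'M hx))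
  refine ⟨P, hP1, hP2.trans hM'M, ?_, ?_⟩
  · have h1 := AddSubgroup.relIndex_mul_relIndex N P M' hP1 hP2
    intro h3
    rw [h3, zero_mul] at h1
    exact hne h1.symm
  · have h1 := kk_anti hw X hM'M
    have h3 := cc_pos m
    have h4 : cc m * (kk w X N - kk w X M') ≤ cc m * (kk w X N - kk w X M) :=
      mul_le_mul_of_nonneg_left (by linarith) h3.le
    rw [hhM] at hP3
    unfold cc at *
    linarith

/-- consequences of the choice of the layer -/
theorem layer_cons (hw : Law w) (X : Ω → G) {N M P : AddSubgroup G} (h1 : N ≤ P)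
    (h3 : N.relIndex P ≠ 0) {R : ℝ}
    (h4 : 2 * hh w X P + Real.log (N.relIndex P) ≤ hh w X N + hh w X M + R) (h2 : P ≤ M) :
    hh w X P - hh w X M ≤ R ∧
      Real.log (N.relIndex P) ≤ hh w X N - hh w X M + R ∧
      Real.log (N.relIndex P) - hh w X N + hh w X P ≤ R := by
  have h5 := hh_le_add_log hw X h1 h3
  have h6 := hh_anti hw X h2
  refine ⟨?_, ?_, ?_⟩ <;> linarith

end N149.Tow
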