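import Pool.Agent.N149.Tow.St99
set_option autoImplicit false

/-! Decomposition of the scales into blocks of small cost. -/

open scoped Classical
set_option linter.unusedSectionVars false
set_option linter.unusedVariables false

namespace N149.Tow

/-- prepend a value -/
def pre (n : ℕ) (i : ℕ → ℕ) : ℕ → ℕ
  | 0 => n
  | s + 1 => i s

/-- a monotone sequence of costs can be cut into few blocks which consist of one step or have small
cost -/
theorem blocks (κ : ℕ → ℝ) (hκ : Monotone κ) {ε : ℝ} (hε : 0 < ε) (J : ℕ) :
    ∀ d n : ℕ, J - n = d → n ≤ J →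
      ∃ (r : ℕ) (i : ℕ → ℕ), i 0 = n ∧ i r = J ∧
        (∀ s < r, i s < i (s + 1) ∧ (i (s + 1) = i s + 1 ∨ κ (i (s + 1)) - κ (i s) ≤ ε)) ∧
        (r : ℝ) * ε ≤ 2 * (κ J - κ n) + 2 * ε := by
  intro d
  induction d using Nat.strong_induction_on with
  | _ d ih =>
    intro n hd hn
    rcases hn.eq_or_lt with rfl | hlt
    · refine ⟨0, fun _ => n, rfl, rfl, fun s hs => absurd hs (Nat.not_lt_zero _), ?_⟩
      rw [Nat.cast_zero, zero_mul, sub_self]
      linarith
    · by_cases hA : ε < κ (n + 1) - κ n
      · obtain ⟨r, i, h0, h1, h2, h3⟩ := ih (J - (n + 1)) (by omega) (n + 1) rfl hlt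
        refine ⟨r + 1, pre n i, rfl, h1, ?_, ?_⟩
        · intro s hs
          cases s with
          | zero =>
            change n < i 0 ∧ (i 0 = n + 1 ∨ _)
            rw [h0]
            exact ⟨Nat.lt_succ_self n, Or.inl rfl⟩
          | succ s => exact h2 s (by omega)
        · push_cast
          linarith
      · push Not at hA
        -- the longest block
        set S := (Finset.Icc (n + 1) J).filter (fun k => κ k - κ n ≤ ε) with hS
        have hne : S.Nonempty := ⟨n + 1, Finset.mem_filter.2 ⟨Finset.mem_Icc.2 ⟨le_refl _, hlt⟩, hA⟩⟩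
        set k := S.max' hne with hk
        have hkS : k ∈ S := Finset.max'_mem S hne
        rw [hS, Finset.mem_filter, Finset.mem_Icc] at hkS
        obtain ⟨⟨hk1, hk2⟩, hk3⟩ := hkS
        rcases hk2.eq_or_lt with hkJ | hkJ
        · refine ⟨1, pre n (fun _ => J), rfl, rfl, ?_, ?_⟩
          · intro s hs
            have : s = 0 := by omega
            subst this
            change n < J ∧ (J = n + 1 ∨ κ J - κ n ≤ ε)
            refine ⟨hlt, Or.inr ?_⟩
            rw [← hkJ]
            exact hk3
          · have := hκ hn
            push_cast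
            linarith
        · have hk4 : ε < κ (k + 1) - κ n := by
            by_contra hcon
            push Not at hcon
            have h1 : k + 1 ∈ S := Finset.mem_filter.2 ⟨Finset.mem_Icc.2 ⟨by omega, hkJ⟩, hcon⟩
            have h2 := Finset.le_max' S _ h1
            omega
          obtain ⟨r, i, h0, h1, h2, h3⟩ := ih (J - (k + 1)) (by omega) (k + 1) rfl hkJ
          refine ⟨r + 2, pre n (pre k i), rfl, h1, ?_, ?_⟩
          · intro s hs
            match s with
            | 0 =>
              change n < k ∧ (k = n + 1 ∨ κ k - κ n ≤ ε)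
              exact ⟨by omega, Or.inr hk3⟩
            | 1 =>
              change k < i 0 ∧ (i 0 = k + 1 ∨ _)
              rw [h0]
              exact ⟨Nat.lt_succ_self k, Or.inl rfl⟩
            | s + 2 => exact h2 s (by omega)
          · push_cast
            linarith

end N149.Tow
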