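import Pool.Agent.N149.Tow.Lay
set_option autoImplicit false

/-! Comparison of two consecutive layers. -/

open scoped Classical
set_option linter.unusedSectionVars false
set_option linter.unusedVariables false

namespace N149.Tow

open H137.PFR H137.TwoPow H137.Weak

variable {Ω : Type*} [Fintype Ω] {G : Type*} [AddCommGroup G] {w : Ω → ℝ}

/-- entropy of `X - m X'` modulo `N` -/
noncomputable def dd (w : Ω → ℝ) (X : Ω → G) (m : ℕ) (N : AddSubgroup G) : ℝ :=
  Hg (prod w w) (fun p => ((X p.1 - m • X p.2 : G) : G ⧸ N))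

theorem dd_le (hw : Law w) (X : Ω → G) (m : ℕ) (N : AddSubgroup G) :
    dd w X m N ≤ hh w X N + 5 * dg m * kk w X N := by
  have h := dil hw (fun ω => (X ω : G ⧸ N)) m
  exact h

theorem le_dd (hw : Law w) (X : Ω → G) (m : ℕ) (N : AddSubgroup G) :
    hh w X N ≤ dd w X m N := by
  have h := Hg_le_sub hw hw (fun ω => (X ω : G ⧸ N)) (fun ω => m • (X ω : G ⧸ N))
  exact h

theorem cross (hw : Law w) (X : Ω → G) (m : ℕ) {N0 N1 N2 M0 M1 : AddSubgroup G}
    (h01 : N1 ≤ N0) (h12 : N2 ≤ N1) (hm0 : ∀ x ∈ N0, m • x ∈ N1) (hm1 : ∀ x ∈ N1, m • x ∈ N2)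
    (hM0 : N1 ≤ M0) (hM0' : M0 ≤ N0) (hM1 : N2 ≤ M1) (hM1' : M1 ≤ N1)
    (f0 : N1.relIndex M0 ≠ 0) (f1 : N2.relIndex M1 ≠ 0) :
    M1.relIndex (M0.map (nsmulAddMonoidHom (α := G) m)) ≠ 0 ∧
    Real.log (M1.relIndex (M0.map (nsmulAddMonoidHom (α := G) m))) ≤
      (Real.log (N1.relIndex M0) - hh w X N1 + hh w X M0) + (hh w X M1 - hh w X N2) +
        (dd w X m N2 - dd w X m N1) := by
  have hl := law_prod hw hw
  set f : G →+ G := nsmulAddMonoidHom (α := G) m with hf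
  have hfa : ∀ x, f x = m • x := fun x => rfl
  set L := M0.map f ⊔ N2 with hL
  -- step 1
  have s1 : Hg (prod w w) (fun p => (((X p.1 - m • X p.2 : G) : G ⧸ N2),
        ((X p.1 : G ⧸ N1), (X p.2 : G ⧸ N0)))) + dd w X m N1 ≤
      dd w X m N2 + (hh w X N1 + hh w X N0) := by
    have h1 : Hg (prod w w) (fun p => ((X p.1 : G ⧸ N1), (X p.2 : G ⧸ N0))) =
        hh w X N1 + hh w X N0 :=
      Hg_prod hw hw (fun ω => (X ω : G ⧸ N1)) (fun ω => (X ω : G ⧸ N0))
    rw [← h1]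
    refine Hg_sub_of hl ?_ ?_ ?_
    · intro p q h
      rw [QuotientAddGroup.eq] at h ⊢
      exact h12 h
    · intro p q h
      simp only [Prod.mk.injEq] at h
      obtain ⟨h2, h3⟩ := h
      rw [QuotientAddGroup.eq] at h2 h3 ⊢
      have e : -(X p.1 - m • X p.2) + (X q.1 - m • X q.2) =
          (-X p.1 + X q.1) - m • (-X p.2 + X q.2) := by
        rw [smul_add, smul_neg]
        abel
      rw [e]
      exact N1.sub_mem h2 (hm0 _ h3)
    · intro p q h3 h4
      exact Prod.ext h3 h4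
  -- step 2
  have s2 : Hg (prod w w) (fun p => (((X p.1 - m • X p.2 : G) : G ⧸ N2),
        ((X p.1 : G ⧸ M1), (X p.2 : G ⧸ M0)))) + (hh w X N1 + hh w X N0) ≤
      Hg (prod w w) (fun p => (((X p.1 - m • X p.2 : G) : G ⧸ N2),
        ((X p.1 : G ⧸ N1), (X p.2 : G ⧸ N0)))) + (hh w X M1 + hh w X M0) := by
    have h1 : Hg (prod w w) (fun p => ((X p.1 : G ⧸ N1), (X p.2 : G ⧸ N0))) =
        hh w X N1 + hh w X N0 :=
      Hg_prod hw hw (fun ω => (X ω : G ⧸ N1)) (fun ω => (X ω : G ⧸ N0))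
    have h2 : Hg (prod w w) (fun p => ((X p.1 : G ⧸ M1), (X p.2 : G ⧸ M0))) =
        hh w X M1 + hh w X M0 :=
      Hg_prod hw hw (fun ω => (X ω : G ⧸ M1)) (fun ω => (X ω : G ⧸ M0))
    rw [← h1, ← h2]
    refine Hg_sub_of hl ?_ ?_ ?_
    · intro p q h
      exact (Prod.ext_iff.1 h).2
    · intro p q h
      simp only [Prod.mk.injEq] at h ⊢
      obtain ⟨h2, h3⟩ := h
      rw [QuotientAddGroup.eq] at h2 h3
      rw [QuotientAddGroup.eq, QuotientAddGroup.eq]
      exact ⟨hM1' h2, hM0' h3⟩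
    · intro p q h3 h4
      simp only [Prod.mk.injEq] at h3 h4 ⊢
      exact ⟨h3.1, h4⟩
  -- indices
  have i1 : N2.relIndex L = N2.relIndex (M0.map f) := by
    rw [hL, AddSubgroup.relIndex_sup_right]
  have i2 : N2.relIndex (M0.map f) = (N2.comap f).relIndex M0 := by
    rw [AddSubgroup.relIndex_comap]
  set Kr := M0 ⊓ N2.comap f with hKr
  have i3 : Kr.relIndex M0 = (N2.comap f).relIndex M0 := by
    rw [hKr, AddSubgroup.inf_relIndex_left]
  have hN1Kr : N1 ≤ Kr := le_inf hM0 (fun x hx => hm1 x hx)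
  have i4 := AddSubgroup.relIndex_mul_relIndex N1 Kr M0 hN1Kr inf_le_left
  have g1 : N1.relIndex Kr ≠ 0 := by
    intro h
    rw [h, zero_mul] at i4
    exact f0 i4.symm
  have g2 : Kr.relIndex M0 ≠ 0 := by
    intro h
    rw [h, mul_zero] at i4
    exact f0 i4.symm
  have i5 : N2.relIndex L = Kr.relIndex M0 := by rw [i1, i2, i3]
  have hN2L : N2 ≤ M1 ⊓ L := le_inf hM1 le_sup_right
  have i6 := AddSubgroup.relIndex_mul_relIndex N2 (M1 ⊓ L) L hN2L inf_le_right
  have g3 : N2.relIndex (M1 ⊓ L) ≠ 0 := by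
    intro h
    rw [h, zero_mul, i5] at i6
    exact g2 i6.symm
  have g4 : (M1 ⊓ L).relIndex L ≠ 0 := by
    intro h
    rw [h, mul_zero, i5] at i6
    exact g2 i6.symm
  have i7 : (M1 ⊓ L).relIndex L = M1.relIndex (M0.map f) := by
    rw [AddSubgroup.inf_relIndex_right, ← AddSubgroup.relIndex_sup_right L M1,
      ← AddSubgroup.relIndex_sup_right (M0.map f) M1, hL, sup_assoc, sup_eq_right.2 hM1]
  -- step 3
  have s3 : hh w X N2 + hh w X Kr ≤
      Hg (prod w w) (fun p => (((X p.1 - m • X p.2 : G) : G ⧸ N2),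
        ((X p.1 : G ⧸ M1), (X p.2 : G ⧸ M0)))) + Real.log (N2.relIndex (M1 ⊓ L)) := by
    set dg : G ⧸ N2 →+ (G ⧸ N2) × ((G ⧸ N2) × (G ⧸ M0)) :=
      AddMonoidHom.prod (AddMonoidHom.id _) (AddMonoidHom.prod (AddMonoidHom.id _) 0) with hdg
    have hinj : Function.Injective dg := by
      intro x y h
      exact (Prod.ext_iff.1 h).1
    set W' := ((M1 ⊓ L).map (QuotientAddGroup.mk' N2)).map dg with hW'
    have hcard : Nat.card W' = N2.relIndex (M1 ⊓ L) := by
      rw [hW', AddSubgroup.card_map_of_injective hinj, card_map_mk]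
    have hfinW : Finite W' := Nat.finite_of_card_ne_zero (by rw [hcard]; exact g3)
    have h1 := Hg_le_mod hl (fun p : Ω × Ω => ((X p.1 : G ⧸ N2),
      (((m • X p.2 : G) : G ⧸ N2), (X p.2 : G ⧸ M0)))) W'
    rw [hcard] at h1
    have h2 : Hg (prod w w) (fun p : Ω × Ω => (((X p.1 : G ⧸ N2),
        (((m • X p.2 : G) : G ⧸ N2), (X p.2 : G ⧸ M0))) :
          ((G ⧸ N2) × ((G ⧸ N2) × (G ⧸ M0))) ⧸ W')) ≤
        Hg (prod w w) (fun p => (((X p.1 - m • X p.2 : G) : G ⧸ N2),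
          ((X p.1 : G ⧸ M1), (X p.2 : G ⧸ M0)))) := by
      refine Hg_le_of hl ?_
      intro p q h
      simp only [Prod.mk.injEq] at h
      obtain ⟨h3, h4, h5⟩ := h
      rw [QuotientAddGroup.eq] at h3 h4 h5
      rw [QuotientAddGroup.eq]
      rw [hW']
      refine AddSubgroup.mem_map.2 ⟨((-X p.1 + X q.1 : G) : G ⧸ N2), ?_, ?_⟩
      · refine AddSubgroup.mem_map.2 ⟨-X p.1 + X q.1, ?_, rfl⟩
        refine AddSubgroup.mem_inf.2 ⟨h4, ?_⟩
        have e : -X p.1 + X q.1 = m • (-X p.2 + X q.2) +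
            (-(X p.1 - m • X p.2) + (X q.1 - m • X q.2)) := by
          rw [smul_add, smul_neg]
          abel
        rw [e]
        exact AddSubgroup.add_mem_sup (AddSubgroup.mem_map_of_mem f h5) h3
      · refine Prod.ext ?_ (Prod.ext ?_ ?_)
        · rfl
        · change ((-X p.1 + X q.1 : G) : G ⧸ N2) = ((-(m • X p.2) + m • X q.2 : G) : G ⧸ N2)
          rw [QuotientAddGroup.eq]
          have e : -(-X p.1 + X q.1) + (-(m • X p.2) + m • X q.2) =
              -(-(X p.1 - m • X p.2) + (X q.1 - m • X q.2)) := by abel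
          rw [e]
          exact N2.neg_mem h3
        · change (0 : G ⧸ M0) = ((-X p.2 + X q.2 : G) : G ⧸ M0)
          exact ((QuotientAddGroup.eq_zero_iff _).2 h5).symm
    have h3 : Hg (prod w w) (fun p : Ω × Ω => ((X p.1 : G ⧸ N2),
        (((m • X p.2 : G) : G ⧸ N2), (X p.2 : G ⧸ M0)))) = hh w X N2 + hh w X Kr := by
      rw [Hg_prod hw hw (fun ω => (X ω : G ⧸ N2))
        (fun ω => (((m • X ω : G) : G ⧸ N2), (X ω : G ⧸ M0)))]
      congr 1
      refine Hg_congr fun ω ω' => ?_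
      rw [Prod.mk.injEq, QuotientAddGroup.eq, QuotientAddGroup.eq, QuotientAddGroup.eq, hKr,
        AddSubgroup.mem_inf, AddSubgroup.mem_comap, hfa, smul_add, smul_neg]
      exact and_comm
    rw [h3] at h1
    linarith
  -- step 4
  have s4 := hh_le_add_log hw X hN1Kr g1
  -- conclusion
  have l1 : Real.log (N1.relIndex M0) = Real.log (N1.relIndex Kr) + Real.log (Kr.relIndex M0) := by
    rw [← i4, Nat.cast_mul, Real.log_mul (by exact_mod_cast g1) (by exact_mod_cast g2)]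
  have l2 : Real.log (Kr.relIndex M0) = Real.log (N2.relIndex (M1 ⊓ L)) +
      Real.log (M1.relIndex (M0.map f)) := by
    rw [← i5, ← i6, Nat.cast_mul, Real.log_mul (by exact_mod_cast g3) (by exact_mod_cast g4), i7]
  refine ⟨by rw [← i7]; exact g4, ?_⟩
  linarith

end N149.Tow
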