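import Pool.Agent.N149.Tow.Sel
set_option autoImplicit false

/-! The entropy of `X - m X'`. -/

open scoped Classical
set_option linter.unusedSectionVars false
set_option linter.unusedVariables false

namespace N149.Tow

open H137.PFR H137.TwoPow H137.Weak

variable {Ω : Type*} [Fintype Ω] {G : Type*} [AddCommGroup G]

theorem Hg_three {w : Ω → ℝ} (hw : Law w) (X : Ω → G) :
    Hg (prod (prod w w) w) (fun p => X p.1.1 - X p.1.2 - X p.2) ≤ Hg w X + 2 * kap w X := by
  have hl := law_prod (law_prod hw hw) hw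
  have hfull := Hg_prod3 hw hw hw X X X
  have a1 : Hg (prod (prod w w) w) (fun p => ((X p.1.1, X p.1.2), X p.2)) +
      Hg (prod (prod w w) w) (fun p => X p.1.1 - X p.1.2 - X p.2) ≤
      Hg (prod (prod w w) w) (fun p => (X p.1.1 - X p.1.2, X p.2)) +
      Hg (prod (prod w w) w) (fun p => (X p.1.1 - X p.2, X p.1.2)) := by
    refine Hg_sub_of hl ?_ ?_ ?_
    · intro p q h
      simp only [Prod.mk.injEq] at h
      rw [h.1, h.2]
    · intro p q h
      simp only [Prod.mk.injEq] at h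
      rw [sub_right_comm, sub_right_comm (X q.1.1), h.1, h.2]
    · intro p q h3 h4
      simp only [Prod.mk.injEq] at h3 h4
      have h5 : X p.1.1 = X q.1.1 := by
        have := h3.1
        rw [h4.2] at this
        exact sub_left_inj.1 this
      exact Prod.ext (Prod.ext h5 h4.2) h3.2
  have a2 := Hg_add_of hl (X := fun p : (Ω × Ω) × Ω => X p.1.1 - X p.1.2)
    (Y := fun p : (Ω × Ω) × Ω => X p.2)
    (W := fun p : (Ω × Ω) × Ω => (X p.1.1 - X p.1.2, X p.2))
    (fun p q h3 h4 => Prod.ext h3 h4)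
  have a3 := Hg_add_of hl (X := fun p : (Ω × Ω) × Ω => X p.1.1 - X p.2)
    (Y := fun p : (Ω × Ω) × Ω => X p.1.2)
    (W := fun p : (Ω × Ω) × Ω => (X p.1.1 - X p.2, X p.1.2))
    (fun p q h3 h4 => Prod.ext h3 h4)
  have a4 : Hg (prod (prod w w) w) (fun p => X p.1.1 - X p.1.2) =
      Hg (prod w w) (fun p => X p.1 - X p.2) :=
    Hg_12 hw hw hw (fun p : Ω × Ω => X p.1 - X p.2)
  have a5 : Hg (prod (prod w w) w) (fun p => X p.1.1 - X p.2) =
      Hg (prod w w) (fun p => X p.1 - X p.2) :=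
    Hg_13 hw hw hw (fun p : Ω × Ω => X p.1 - X p.2)
  have a6 : Hg (prod (prod w w) w) (fun p => X p.2) = Hg w X := Hg_snd (law_prod hw hw) hw X
  have a7 : Hg (prod (prod w w) w) (fun p => X p.1.2) = Hg w X := by
    rw [Hg_12 hw hw hw (fun p : Ω × Ω => X p.2), Hg_snd hw hw X]
  unfold kap
  linarith

theorem push_equiv {Ω Ω' α : Type*} [Fintype Ω] [Fintype Ω'] {w : Ω → ℝ} {w' : Ω' → ℝ}
    (e : Ω' ≃ Ω) (h : ∀ p, w (e p) = w' p) (Y : Ω → α) (y : α) :
    push w Y y = push w' (fun p => Y (e p)) y := by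
  unfold push
  rw [← Equiv.sum_comp e]
  refine Finset.sum_congr rfl fun q _ => ?_
  rw [h q]

/-- transport of the entropy along a bijection of the sample spaces -/
theorem Hg_equiv {Ω Ω' α : Type*} [Fintype Ω] [Fintype Ω'] {w : Ω → ℝ} {w' : Ω' → ℝ}
    (e : Ω' ≃ Ω) (h : ∀ p, w (e p) = w' p) (Y : Ω → α) :
    Hg w Y = Hg w' (fun p => Y (e p)) := by
  unfold Hg
  rw [← Equiv.sum_comp e]
  refine Finset.sum_congr rfl fun p _ => ?_
  rw [h p, push_equiv e h]

/-- entropy of `X + X'` -/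
theorem Hg_sum_le {w : Ω → ℝ} (hw : Law w) (X : Ω → G) :
    Hg (prod w w) (fun p => X p.1 + X p.2) ≤ Hg w X + 2 * kap w X := by
  have h1 := Hg_three hw X
  have h2 : Hg (prod (prod w w) w) (fun p => X p.1.1 - X p.1.2 - X p.2) =
      Hg (prod (prod w w) w) (fun p => X p.1.1 + X p.1.2 - X p.2) := by
    rw [Hg_equiv (w' := prod (prod w w) w)
      (⟨fun p => ((p.2, p.1.1), p.1.2), fun p => ((p.1.2, p.2), p.1.1), fun p => rfl,
        fun p => rfl⟩ : (Ω × Ω) × Ω ≃ (Ω × Ω) × Ω) ?_]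
    · refine Hg_congr fun p q => ?_
      change X p.2 - X p.1.1 - X p.1.2 = X q.2 - X q.1.1 - X q.1.2 ↔ _
      rw [← neg_inj]
      have e1 : ∀ x y z : G, -(z - x - y) = x + y - z := fun x y z => by abel
      rw [e1, e1]
    · intro p
      change w p.2 * w p.1.1 * w p.1.2 = w p.1.1 * w p.1.2 * w p.2
      ring
  have h3 := Hg_le_sub (law_prod hw hw) hw (fun p : Ω × Ω => X p.1 + X p.2) X
  rw [h2] at h1
  linarith

theorem dil_even {w : Ω → ℝ} (hw : Law w) (X : Ω → G) (a : ℕ) :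
    Hg (prod w w) (fun p => X p.1 - (2 * a) • X p.2) ≤
      Hg (prod w w) (fun p => X p.1 - a • X p.2) + 3 * kap w X := by
  have hl := law_prod (law_prod hw hw) hw
  have hfull := Hg_prod3 hw hw hw X X X
  have b1 : Hg (prod (prod w w) w) (fun p => ((X p.1.1, X p.1.2), X p.2)) +
      Hg (prod (prod w w) w) (fun p => X p.1.1 - (2 * a) • X p.1.2) ≤
      Hg (prod (prod w w) w) (fun p => (X p.1.1 - (X p.2 + X p.2), X p.2 - a • X p.1.2)) +
      Hg (prod (prod w w) w) (fun p => (X p.1.1, X p.1.2)) := by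
    refine Hg_sub_of hl ?_ ?_ ?_
    · intro p q h
      simp only [Prod.mk.injEq] at h
      have e1 : ∀ x y z : G, x - (2 * a) • y = (x - (z + z)) + ((z - a • y) + (z - a • y)) := by
        intro x y z
        rw [two_mul, add_smul]
        abel
      rw [e1 (X p.1.1) (X p.1.2) (X p.2), e1 (X q.1.1) (X q.1.2) (X q.2), h.1, h.2]
    · intro p q h
      simp only [Prod.mk.injEq] at h
      rw [h.1, h.2]
    · intro p q h3 h4
      simp only [Prod.mk.injEq] at h3 h4
      have h5 : X p.2 = X q.2 := by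
        have := h3.2
        rw [h4.2] at this
        exact sub_left_inj.1 this
      exact Prod.ext (Prod.ext h4.1 h4.2) h5
  have b2 := Hg_add_of hl (X := fun p : (Ω × Ω) × Ω => X p.1.1 - (X p.2 + X p.2))
    (Y := fun p : (Ω × Ω) × Ω => X p.2 - a • X p.1.2)
    (W := fun p : (Ω × Ω) × Ω => (X p.1.1 - (X p.2 + X p.2), X p.2 - a • X p.1.2))
    (fun p q h3 h4 => Prod.ext h3 h4)
  have b3 : Hg (prod (prod w w) w) (fun p => X p.1.1 - (X p.2 + X p.2)) =
      Hg (prod w w) (fun p => X p.1 - (X p.2 + X p.2)) :=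
    Hg_13 hw hw hw (fun p : Ω × Ω => X p.1 - (X p.2 + X p.2))
  have b4 : Hg (prod (prod w w) w) (fun p => X p.2 - a • X p.1.2) =
      Hg (prod w w) (fun p => X p.1 - a • X p.2) := by
    rw [Hg_23 hw hw hw (fun p : Ω × Ω => X p.2 - a • X p.1), Hg_swap hw hw]
  have b5 : Hg (prod (prod w w) w) (fun p => (X p.1.1, X p.1.2)) = Hg w X + Hg w X := by
    rw [Hg_12 hw hw hw (fun p : Ω × Ω => (X p.1, X p.2)), Hg_prod hw hw]
  have b6 : Hg (prod (prod w w) w) (fun p => X p.1.1 - (2 * a) • X p.1.2) =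
      Hg (prod w w) (fun p => X p.1 - (2 * a) • X p.2) :=
    Hg_12 hw hw hw (fun p : Ω × Ω => X p.1 - (2 * a) • X p.2)
  have b7 := Hg_dilate hw X
  linarith

theorem dil_odd {w : Ω → ℝ} (hw : Law w) (X : Ω → G) (a : ℕ) :
    Hg (prod w w) (fun p => X p.1 - (a + 1) • X p.2) ≤
      Hg (prod w w) (fun p => X p.1 - a • X p.2) + 2 * kap w X := by
  have hl := law_prod (law_prod hw hw) hw
  have hfull := Hg_prod3 hw hw hw X X X
  have b1 : Hg (prod (prod w w) w) (fun p => ((X p.1.1, X p.1.2), X p.2)) +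
      Hg (prod (prod w w) w) (fun p => X p.1.1 - (a + 1) • X p.1.2) ≤
      Hg (prod (prod w w) w) (fun p => (X p.1.1 - X p.1.2 - X p.2, X p.2 - a • X p.1.2)) +
      Hg (prod (prod w w) w) (fun p => (X p.1.1, X p.1.2)) := by
    refine Hg_sub_of hl ?_ ?_ ?_
    · intro p q h
      simp only [Prod.mk.injEq] at h
      have e1 : ∀ x y z : G, x - (a + 1) • y = (x - y - z) + (z - a • y) := by
        intro x y z
        rw [add_smul, one_smul]
        abel
      rw [e1 (X p.1.1) (X p.1.2) (X p.2), e1 (X q.1.1) (X q.1.2) (X q.2), h.1, h.2]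
    · intro p q h
      simp only [Prod.mk.injEq] at h
      rw [h.1, h.2]
    · intro p q h3 h4
      simp only [Prod.mk.injEq] at h3 h4
      have h5 : X p.2 = X q.2 := by
        have := h3.2
        rw [h4.2] at this
        exact sub_left_inj.1 this
      exact Prod.ext (Prod.ext h4.1 h4.2) h5
  have b2 := Hg_add_of hl (X := fun p : (Ω × Ω) × Ω => X p.1.1 - X p.1.2 - X p.2)
    (Y := fun p : (Ω × Ω) × Ω => X p.2 - a • X p.1.2)
    (W := fun p : (Ω × Ω) × Ω => (X p.1.1 - X p.1.2 - X p.2, X p.2 - a • X p.1.2))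
    (fun p q h3 h4 => Prod.ext h3 h4)
  have b4 : Hg (prod (prod w w) w) (fun p => X p.2 - a • X p.1.2) =
      Hg (prod w w) (fun p => X p.1 - a • X p.2) := by
    rw [Hg_23 hw hw hw (fun p : Ω × Ω => X p.2 - a • X p.1), Hg_swap hw hw]
  have b5 : Hg (prod (prod w w) w) (fun p => (X p.1.1, X p.1.2)) = Hg w X + Hg w X := by
    rw [Hg_12 hw hw hw (fun p : Ω × Ω => (X p.1, X p.2)), Hg_prod hw hw]
  have b6 : Hg (prod (prod w w) w) (fun p => X p.1.1 - (a + 1) • X p.1.2) =
      Hg (prod w w) (fun p => X p.1 - (a + 1) • X p.2) :=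
    Hg_12 hw hw hw (fun p : Ω × Ω => X p.1 - (a + 1) • X p.2)
  have b7 := Hg_three hw X
  linarith

/-- **The entropy of `X - m X'`.** -/
theorem dil {w : Ω → ℝ} (hw : Law w) (X : Ω → G) (m : ℕ) :
    Hg (prod w w) (fun p => X p.1 - m • X p.2) ≤
      Hg w X + 5 * (Nat.log 2 m + 1 : ℕ) * kap w X := by
  have hk := kap_nonneg hw X
  induction m using Nat.strong_induction_on with
  | _ m ih =>
    rcases Nat.lt_or_ge m 2 with hm | hm
    · have h01 : m = 0 ∨ m = 1 := by omega
      rcases h01 with rfl | rfl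
      · have h1 : Hg (prod w w) (fun p => X p.1 - 0 • X p.2) = Hg w X := by
          rw [← Hg_fst hw hw X]
          refine Hg_congr fun p q => ?_
          rw [zero_smul, zero_smul, sub_zero, sub_zero]
        rw [h1]
        have : 0 ≤ 5 * ((Nat.log 2 0 + 1 : ℕ) : ℝ) * kap w X := by positivity
        linarith
      · have h1 : Hg (prod w w) (fun p => X p.1 - 1 • X p.2) = Hg w X + kap w X := by
          unfold kap
          rw [add_sub_cancel]
          refine Hg_congr fun p q => ?_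
          rw [one_smul, one_smul]
        rw [h1]
        have h2 : ((Nat.log 2 1 + 1 : ℕ) : ℝ) = 1 := by simp
        rw [h2]
        linarith
    · have hlog : Nat.log 2 m = Nat.log 2 (m / 2) + 1 := Nat.log_of_one_lt_of_le (by norm_num) hm
      have hh := ih (m / 2) (by omega)
      have he := dil_even hw X (m / 2)
      have ho := dil_odd hw X (2 * (m / 2))
      have hcast : ((Nat.log 2 m + 1 : ℕ) : ℝ) = ((Nat.log 2 (m / 2) + 1 : ℕ) : ℝ) + 1 := by
        rw [hlog]
        push_cast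
        ring
      rw [hcast]
      rcases Nat.even_or_odd m with hev | hod
      · have h2 : 2 * (m / 2) = m := Nat.two_mul_div_two_of_even hev
        rw [h2] at he
        nlinarith
      · have h2 : 2 * (m / 2) + 1 = m := Nat.two_mul_div_two_add_one_of_odd hod
        rw [h2] at ho
        nlinarith

end N149.Tow
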