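import Pool.Agent.N149.Tow.Main
set_option autoImplicit false

/-! The filtered Marton theorem, final form. -/

open scoped Classical Pointwise
set_option linter.unusedSectionVars false
set_option linter.unusedVariables false

namespace N149.Tow

open H137.PFR H137.TwoPow H137.Weak

variable {Γ : Type*} [AddCommGroup Γ]

/-- the exponent of the theorem -/
def ex (m : ℕ) : ℕ := 1000000 * (Nat.log 2 m + 1)

theorem prod_le_of_log {n : ℕ} {a : ℕ → ℕ} (ha : ∀ j, a j ≠ 0) {B : ℝ}
    (h : ∑ j ∈ Finset.range n, Real.log (a j) ≤ B) :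
    ∏ j ∈ Finset.range n, (a j : ℝ) ≤ Real.exp B := by
  have hpos : ∀ j, (0 : ℝ) < a j := fun j => by exact_mod_cast Nat.pos_of_ne_zero (ha j)
  have h1 : ∏ j ∈ Finset.range n, (a j : ℝ) =
      Real.exp (∑ j ∈ Finset.range n, Real.log (a j)) := by
    rw [Real.exp_sum]
    exact Finset.prod_congr rfl fun j _ => (Real.exp_log (hpos j)).symm
  rw [h1]
  exact Real.exp_le_exp.2 h

theorem card_count {A : Finset Γ} (hA : A.Nonempty) (k l : ℕ)
    (S : Finset ((Fin k → A) × (Fin l → A))) :
    ∑ s ∈ S, prod (wk (uw A) k) (wk (uw A) l) s = (S.card : ℝ) * ((A.card : ℝ) ^ (k + l))⁻¹ := by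
  have h1 : ∀ s : (Fin k → A) × (Fin l → A), prod (wk (uw A) k) (wk (uw A) l) s =
      ((A.card : ℝ) ^ (k + l))⁻¹ := by
    intro s
    change wk (uw A) k s.1 * wk (uw A) l s.2 = _
    unfold wk uw
    rw [Finset.prod_const, Finset.prod_const, Finset.card_univ, Finset.card_univ,
      Fintype.card_fin, Fintype.card_fin, ← pow_add, inv_pow]
  rw [Finset.sum_congr rfl fun s _ => h1 s, Finset.sum_const, nsmul_eq_mul]

/-- **The filtered Marton theorem.** -/
theorem filtered (m : ℕ) (hm : 0 < m) (N : ℕ → AddSubgroup Γ)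
    (h0 : N 0 = ⊤) (hN : ∀ j, N (j + 1) ≤ N j) (hmN : ∀ j, ∀ x ∈ N j, m • x ∈ N (j + 1))
    (K : ℝ) (A : Finset Γ) (hA : A.Nonempty) (hK : ((A + A).card : ℝ) ≤ K * A.card) :
    ∃ M : ℕ → AddSubgroup Γ,
      (∀ j, N (j + 1) ≤ M j ∧ M j ≤ N j ∧ (N (j + 1)).relIndex (M j) ≠ 0) ∧
      (∃ J, ∀ j, J ≤ j → M j = N (j + 1)) ∧
      (∀ k l : ℕ, 1 ≤ k → ∃ T : Set Γ,
        (∀ t ∈ T, ∀ t' ∈ T, ∀ j, t - t' ∈ N j → t - t' ∈ M j) ∧
        (A.card : ℝ) ^ (k + l) ≤ K ^ (ex m + k + l) *
          (Nat.card {p : (Fin k → A) × (Fin l → A) //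
            ∑ i, (p.1 i : Γ) - ∑ i, (p.2 i : Γ) ∈ T} : ℝ)) ∧
      (∀ n, (∏ j ∈ Finset.range n, ((N (j + 1)).relIndex (M j) : ℝ)) ≤ K ^ ex m * nres A (N n) ∧
        (nres A (N n) : ℝ) ≤
          K ^ ex m * ∏ j ∈ Finset.range n, ((N (j + 1)).relIndex (M j) : ℝ)) ∧
      (∀ j, (M (j + 1)).relIndex ((M j).map (nsmulAddMonoidHom (α := Γ) m)) ≠ 0) ∧
      (∀ n, ∏ j ∈ Finset.range n,
        ((M (j + 1)).relIndex ((M j).map (nsmulAddMonoidHom (α := Γ) m)) : ℝ) ≤ K ^ ex m) ∧
      ((∀ x : Γ, m • x = 0 → x = 0) →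
        (∀ j, N (j + 1) = (N j).map (nsmulAddMonoidHom (α := Γ) m)) →
        (∀ j, ((N (j + 1)).relIndex (M j) : ℝ) ≤ K ^ ex m) ∧
        (∀ j, ((M j).map (nsmulAddMonoidHom (α := Γ) m)).relIndex (M (j + 1)) ≠ 0) ∧
        (∀ n, ∏ j ∈ Finset.range n,
          (((M j).map (nsmulAddMonoidHom (α := Γ) m)).relIndex (M (j + 1)) : ℝ) ≤ K ^ ex m)) := by
  have hA0 : (0 : ℝ) < A.card := by exact_mod_cast hA.card_pos
  have hK1 : 1 ≤ K := by
    have h1 : (A.card : ℝ) ≤ (A + A).card := by
      exact_mod_cast Finset.card_le_card_add_right hA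
    nlinarith
  have hK0 : 0 < K := by linarith
  have hlogK : 0 ≤ Real.log K := Real.log_nonneg hK1
  have hw := law_uw hA
  set X : A → Γ := fun ω => (ω : Γ) with hX
  have hkap := kap_uw hA hK1 hK
  have hkap0 := kap_nonneg hw X
  obtain ⟨M, hM, hR, hS1, hS2, hC0, hC⟩ := exists_tower hw X m hm N h0 hN hmN
  have hcc := cc_pos m
  have hd := one_le_dg m
  have hex : (ex m : ℝ) = 1000000 * (dg m : ℝ) := by
    unfold ex dg
    push_cast
    ring
  have hccv : cc m = 246026 * (dg m : ℝ) := rfl
  have hexp : ∀ e : ℕ, Real.exp (e * Real.log K) = K ^ e := by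
    intro e
    rw [← Real.log_pow, Real.exp_log (by positivity)]
  have hcb : cc m * kap (uw A) X ≤ 492052 * (dg m : ℝ) * Real.log K := by
    have h1 : cc m * kap (uw A) X ≤ cc m * (2 * Real.log K) :=
      mul_le_mul_of_nonneg_left hkap hcc.le
    rw [hccv] at h1 ⊢
    linarith
  have hdl : 0 ≤ (dg m : ℝ) * Real.log K := by positivity
  have hdl1 : Real.log K ≤ (dg m : ℝ) * Real.log K := le_mul_of_one_le_left hlogK hd
  have hcb' : cc m * kap (uw A) X ≤ ex m * Real.log K := by
    rw [hex]
    nlinarith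
  have hCb : (2 * cc m + 5 * dg m) * kap (uw A) X ≤ ex m * Real.log K := by
    have h1 : (2 * cc m + 5 * dg m) * kap (uw A) X ≤
        (2 * cc m + 5 * dg m) * (2 * Real.log K) :=
      mul_le_mul_of_nonneg_left hkap (by positivity)
    rw [hccv] at h1 ⊢
    rw [hex]
    nlinarith
  have hidx : ∀ j, (N (j + 1)).relIndex (M j) ≠ 0 := fun j => (hM j).2.2
  have hpos : ∀ j, (0 : ℝ) < (N (j + 1)).relIndex (M j) := fun j => by
    exact_mod_cast Nat.pos_of_ne_zero (hidx j)
  have hlog0 : ∀ j, 0 ≤ Real.log ((N (j + 1)).relIndex (M j)) := fun j =>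
    Real.log_nonneg (by exact_mod_cast Nat.one_le_iff_ne_zero.2 (hidx j))
  -- eventually trivial
  have hJ : ∃ J, ∀ j, J ≤ j → M j = N (j + 1) := by
    have hsum : Summable (fun j => Real.log ((N (j + 1)).relIndex (M j))) := by
      refine summable_of_sum_range_le (c := Real.log A.card + cc m * kap (uw A) X) hlog0 ?_
      intro n
      have h1 := hh_le_log_nres hA (N n)
      have h2 : Real.log (nres A (N n)) ≤ Real.log A.card :=
        Real.log_le_log (by exact_mod_cast nres_pos hA (N n)) (by exact_mod_cast nres_le_card A (N n))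
      have h3 := hS1 n
      linarith
    have ht := hsum.tendsto_atTop_zero
    have hev := ht.eventually (gt_mem_nhds (Real.log_pos (by norm_num : (1 : ℝ) < 2)))
    obtain ⟨J, hJ⟩ := Filter.eventually_atTop.1 hev
    refine ⟨J, fun j hj => ?_⟩
    have h1 := hJ j hj
    have h2 : ((N (j + 1)).relIndex (M j) : ℝ) < 2 :=
      (Real.log_lt_log_iff (hpos j) (by norm_num)).1 h1
    have h3 : (N (j + 1)).relIndex (M j) < 2 := by exact_mod_cast h2
    have h4 : (N (j + 1)).relIndex (M j) = 1 := by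
      have := hidx j
      omega
    rw [AddSubgroup.relIndex_eq_one] at h4
    exact le_antisymm h4 (hM j).1
  refine ⟨M, hM, hJ, ?_, ?_, hC0, ?_, ?_⟩
  · -- iterated sums
    intro k l hk
    obtain ⟨k, rfl⟩ : ∃ k', k = k' + 1 := ⟨k - 1, by omega⟩
    have hv := law_prod (law_wk hw (k + 1)) (law_wk hw l)
    obtain ⟨S, hS, hSm⟩ := tower_select hw hv X (sd X (k + 1) l) (dom_sd hw X k l) N M h0 hN
      (fun j => (hM j).1) (fun j => (hM j).2.1) hR
    refine ⟨sd X (k + 1) l '' (S : Set _), ?_, ?_⟩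
    · rintro _ ⟨s, hs, rfl⟩ _ ⟨s', hs', rfl⟩ j hj
      exact hS s (Finset.mem_coe.1 hs) s' (Finset.mem_coe.1 hs') j hj
    · rw [card_count hA] at hSm
      have h1 := Hg_sd_le hA hK1 hK (k + 1) l
      have h2 : Hg (uw A) X = Real.log A.card := Hg_uw hA
      have h3 : Hg (prod (wk (uw A) (k + 1)) (wk (uw A) l)) (sd X (k + 1) l) - Hg (uw A) X +
          cc m * kap (uw A) X ≤ (ex m + (k + 1) + l : ℕ) * Real.log K := by
        rw [h2]
        push_cast at h1 ⊢
        linarith
      have h4 : Real.exp (-((ex m + (k + 1) + l : ℕ) * Real.log K)) ≤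
          (S.card : ℝ) * ((A.card : ℝ) ^ (k + 1 + l))⁻¹ :=
        le_trans (Real.exp_le_exp.2 (neg_le_neg h3)) hSm
      rw [Real.exp_neg, hexp] at h4
      have hpA : (0 : ℝ) < (A.card : ℝ) ^ (k + 1 + l) := by positivity
      have hpK : (0 : ℝ) < K ^ (ex m + (k + 1) + l) := by positivity
      have h5 : (A.card : ℝ) ^ (k + 1 + l) ≤ K ^ (ex m + (k + 1) + l) * S.card := by
        rw [← div_eq_mul_inv, le_div_iff₀ hpA, inv_mul_le_iff₀ hpK] at h4
        exact h4
      refine h5.trans (mul_le_mul_of_nonneg_left ?_ hpK.le)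
      have h6 : S.card ≤ Nat.card {p : (Fin (k + 1) → A) × (Fin l → A) //
          ∑ i, (p.1 i : Γ) - ∑ i, (p.2 i : Γ) ∈ sd X (k + 1) l '' (S : Set _)} := by
        rw [← Fintype.card_coe, ← Nat.card_eq_fintype_card]
        refine Nat.card_le_card_of_injective
          (fun s : S => ⟨s.1, ⟨s.1, Finset.mem_coe.2 s.2, rfl⟩⟩) ?_
        intro s s' h
        have h7 := congrArg (fun x => x.1) h
        exact Subtype.ext h7
      exact_mod_cast h6
  · -- sizes
    intro n
    have hprod : (∏ j ∈ Finset.range n, ((N (j + 1)).relIndex (M j) : ℝ)) =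
        Real.exp (∑ j ∈ Finset.range n, Real.log ((N (j + 1)).relIndex (M j))) := by
      rw [Real.exp_sum]
      exact Finset.prod_congr rfl fun j _ => (Real.exp_log (hpos j)).symm
    have hr0 : (0 : ℝ) < nres A (N n) := by exact_mod_cast nres_pos hA (N n)
    constructor
    · rw [hprod, ← hexp, ← Real.exp_log hr0, ← Real.exp_add]
      refine Real.exp_le_exp.2 ?_
      have h1 := hS1 n
      have h2 := hh_le_log_nres hA (N n)
      linarith
    · refine (nres_le hA hK1 hK (N n)).trans ?_
      rw [hprod, ← hexp, ← Real.exp_add]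
      have h1 : K * Real.exp (hh (uw A) (fun ω : A => (ω : Γ)) (N n)) =
          Real.exp (Real.log K + hh (uw A) (fun ω : A => (ω : Γ)) (N n)) := by
        rw [Real.exp_add, Real.exp_log hK0]
      rw [h1]
      refine Real.exp_le_exp.2 ?_
      have h2 := hS2 n
      have h3 : Real.log K + cc m * kap (uw A) X ≤ ex m * Real.log K := by
        rw [hex]
        nlinarith
      linarith
  · -- consecutive layers
    intro n
    rw [← hexp]
    exact prod_le_of_log hC0 ((hC n).trans hCb)
  · -- injective multiplication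
    intro htf hNm
    set f : Γ →+ Γ := nsmulAddMonoidHom (α := Γ) m with hf
    have hinj : Function.Injective f := by
      rw [injective_iff_map_eq_zero]
      intro x hx
      exact htf x hx
    obtain ⟨J, hJ⟩ := hJ
    have hle1 : ∀ j, N (j + 1 + 1) ≤ (M j).map f := by
      intro j
      rw [hNm (j + 1)]
      exact AddSubgroup.map_mono (hM j).1
    have hidx2 : ∀ j, (N (j + 1 + 1)).relIndex ((M j).map f) = (N (j + 1)).relIndex (M j) := by
      intro j
      rw [hNm (j + 1)]
      exact AddSubgroup.relIndex_map_map_of_injective _ _ hinj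
    have hid : ∀ j, (N (j + 1)).relIndex (M j) * ((M j).map f).relIndex (M (j + 1)) =
        (N (j + 1 + 1)).relIndex (M (j + 1)) * (M (j + 1)).relIndex ((M j).map f) := by
      intro j
      have h1 := AddSubgroup.relIndex_mul_relIndex (N (j + 1 + 1)) ((M j).map f)
        ((M j).map f ⊔ M (j + 1)) (hle1 j) le_sup_left
      have h2 := AddSubgroup.relIndex_mul_relIndex (N (j + 1 + 1)) (M (j + 1))
        ((M j).map f ⊔ M (j + 1)) (hM (j + 1)).1 le_sup_right
      rw [AddSubgroup.relIndex_sup_left, hidx2] at h1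
      rw [AddSubgroup.relIndex_sup_right] at h2
      rw [h1, h2]
    have hv0 : ∀ j, ((M j).map f).relIndex (M (j + 1)) ≠ 0 := by
      intro j h
      have h1 := hid j
      rw [h, mul_zero] at h1
      exact (mul_ne_zero (hidx (j + 1)) (hC0 j)) h1.symm
    have hlogid : ∀ j, Real.log ((N (j + 1)).relIndex (M j)) +
        Real.log (((M j).map f).relIndex (M (j + 1))) =
        Real.log ((N (j + 1 + 1)).relIndex (M (j + 1))) +
          Real.log ((M (j + 1)).relIndex ((M j).map f)) := by
      intro j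
      rw [← Real.log_mul (by exact_mod_cast hidx j) (by exact_mod_cast hv0 j),
        ← Real.log_mul (by exact_mod_cast hidx (j + 1)) (by exact_mod_cast hC0 j)]
      exact_mod_cast congrArg (fun n : ℕ => Real.log (n : ℝ)) (hid j)
    have hvlog : ∀ j, 0 ≤ Real.log (((M j).map f).relIndex (M (j + 1))) := fun j =>
      Real.log_nonneg (by exact_mod_cast Nat.one_le_iff_ne_zero.2 (hv0 j))
    have hulog : ∀ j, 0 ≤ Real.log ((M (j + 1)).relIndex ((M j).map f)) := fun j =>
      Real.log_nonneg (by exact_mod_cast Nat.one_le_iff_ne_zero.2 (hC0 j))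
    have hzero : ∀ j, J ≤ j → Real.log ((N (j + 1)).relIndex (M j)) = 0 := by
      intro j hj
      rw [hJ j hj, AddSubgroup.relIndex_self, Nat.cast_one, Real.log_one]
    -- summation of the identity
    have htel : ∀ j n, Real.log ((N (j + 1)).relIndex (M j)) +
        ∑ i ∈ Finset.range n, Real.log (((M (j + i)).map f).relIndex (M (j + i + 1))) =
        Real.log ((N (j + n + 1)).relIndex (M (j + n))) +
          ∑ i ∈ Finset.range n, Real.log ((M (j + i + 1)).relIndex ((M (j + i)).map f)) := by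
      intro j n
      induction n with
      | zero => simp
      | succ n ih =>
        rw [Finset.sum_range_succ, Finset.sum_range_succ]
        have h1 := hlogid (j + n)
        have h2 : j + (n + 1) = j + n + 1 := rfl
        rw [h2]
        linarith
    have hshift : ∀ j n, ∑ i ∈ Finset.range n,
        Real.log ((M (j + i + 1)).relIndex ((M (j + i)).map f)) ≤ ex m * Real.log K := by
      intro j n
      have h1 := (hC (j + n)).trans hCb
      rw [Finset.sum_range_add] at h1
      have h2 : 0 ≤ ∑ i ∈ Finset.range j, Real.log ((M (i + 1)).relIndex ((M i).map f)) :=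
        Finset.sum_nonneg fun i _ => hulog i
      linarith
    refine ⟨?_, hv0, ?_⟩
    · intro j
      rw [← hexp, ← Real.exp_log (hpos j)]
      refine Real.exp_le_exp.2 ?_
      have h1 := htel j J
      rw [hzero (j + J) (by omega)] at h1
      have h2 := hshift j J
      have h3 : 0 ≤ ∑ i ∈ Finset.range J,
          Real.log (((M (j + i)).map f).relIndex (M (j + i + 1))) :=
        Finset.sum_nonneg fun i _ => hvlog _
      linarith
    · intro n
      rw [← hexp]
      refine prod_le_of_log hv0 ?_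
      have h1 := htel 0 (n + J)
      simp only [Nat.zero_add] at h1
      rw [hzero (n + J) (by omega), Finset.sum_range_add] at h1
      have h2 := hshift 0 (n + J)
      simp only [Nat.zero_add] at h2
      have h3 : 0 ≤ ∑ i ∈ Finset.range J,
          Real.log (((M (n + i)).map f).relIndex (M (n + i + 1))) :=
        Finset.sum_nonneg fun i _ => hvlog _
      have h4 := hlog0 0
      simp only [Nat.zero_add] at h4
      linarith

end N149.Tow
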