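import Pool.Agent.N149.Tow.Fl3
import Pool.Agent.N149.Tow.Final
set_option autoImplicit false

/-! Towers of logarithmic height: the final form. -/

open scoped Classical Pointwise
set_option linter.unusedSectionVars false
set_option linter.unusedVariables false

namespace N149.Tow

open H137.PFR H137.TwoPow H137.Weak

variable {Γ : Type*} [AddCommGroup Γ]

/-- upper and lower bounds for products of indices from the entropies -/
theorem prod_sizes {A : Finset Γ} (hA : A.Nonempty) {K : ℝ} (hK1 : 1 ≤ K)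
    (hK : ((A + A).card : ℝ) ≤ K * A.card) (N : AddSubgroup Γ) (a : ℕ → ℕ) (ha : ∀ j, a j ≠ 0)
    (n e : ℕ) {B : ℝ} (hB : Real.log K + B ≤ e * Real.log K)
    (h1 : ∑ j ∈ Finset.range n, Real.log (a j) ≤ hh (uw A) (fun ω : A => (ω : Γ)) N + B)
    (h2 : hh (uw A) (fun ω : A => (ω : Γ)) N ≤ ∑ j ∈ Finset.range n, Real.log (a j) + B) :
    (∏ j ∈ Finset.range n, (a j : ℝ)) ≤ K ^ e * nres A N ∧
      (nres A N : ℝ) ≤ K ^ e * ∏ j ∈ Finset.range n, (a j : ℝ) := by
  have hK0 : 0 < K := by linarith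
  have hlogK : 0 ≤ Real.log K := Real.log_nonneg hK1
  have hpos : ∀ j, (0 : ℝ) < a j := fun j => by exact_mod_cast Nat.pos_of_ne_zero (ha j)
  have hexp : Real.exp (e * Real.log K) = K ^ e := by
    rw [← Real.log_pow, Real.exp_log (by positivity)]
  have hprod : ∏ j ∈ Finset.range n, (a j : ℝ) =
      Real.exp (∑ j ∈ Finset.range n, Real.log (a j)) := by
    rw [Real.exp_sum]
    exact Finset.prod_congr rfl fun j _ => (Real.exp_log (hpos j)).symm
  have hr0 : (0 : ℝ) < nres A N := by exact_mod_cast nres_pos hA N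
  constructor
  · rw [hprod, ← hexp, ← Real.exp_log hr0, ← Real.exp_add]
    refine Real.exp_le_exp.2 ?_
    have h3 := hh_le_log_nres hA N
    linarith
  · refine (nres_le hA hK1 hK N).trans ?_
    rw [hprod, ← hexp, ← Real.exp_add]
    have h3 : K * Real.exp (hh (uw A) (fun ω : A => (ω : Γ)) N) =
        Real.exp (Real.log K + hh (uw A) (fun ω : A => (ω : Γ)) N) := by
      rw [Real.exp_add, Real.exp_log hK0]
    rw [h3]
    exact Real.exp_le_exp.2 (by linarith)

/-- the case of an injective multiplication -/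
theorem inj_case {m : ℕ} (htf : ∀ x : Γ, m • x = 0 → x = 0) (N M : ℕ → AddSubgroup Γ)
    (hNm : ∀ j, N (j + 1) = (N j).map (nsmulAddMonoidHom (α := Γ) m))
    (hM : ∀ s, N (s + 1) ≤ M s ∧ M s ≤ N s ∧ (N (s + 1)).relIndex (M s) ≠ 0)
    (hJ : ∃ J, ∀ j, J ≤ j → M j = N (j + 1))
    (hC0 : ∀ j, (M (j + 1)).relIndex ((M j).map (nsmulAddMonoidHom (α := Γ) m)) ≠ 0)
    {B : ℝ} (hC : ∀ n, ∑ j ∈ Finset.range n,
        Real.log ((M (j + 1)).relIndex ((M j).map (nsmulAddMonoidHom (α := Γ) m))) ≤ B) :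
    (∀ j, Real.log ((N (j + 1)).relIndex (M j)) ≤ B) ∧
      (∀ j, ((M j).map (nsmulAddMonoidHom (α := Γ) m)).relIndex (M (j + 1)) ≠ 0) ∧
      (∀ n, ∑ j ∈ Finset.range n,
        Real.log (((M j).map (nsmulAddMonoidHom (α := Γ) m)).relIndex (M (j + 1))) ≤ B) ∧
      (∀ S : Finset ℕ, (∀ j ∈ S, M (j + 1) ≠ (M j).map (nsmulAddMonoidHom (α := Γ) m)) →
        (S.card : ℝ) * Real.log 2 ≤ 2 * B) := by
  set f : Γ →+ Γ := nsmulAddMonoidHom (α := Γ) m with hf
  have hinj : Function.Injective f := by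
    rw [injective_iff_map_eq_zero]
    intro x hx
    exact htf x hx
  obtain ⟨J, hJ⟩ := hJ
  have hidx : ∀ j, (N (j + 1)).relIndex (M j) ≠ 0 := fun j => (hM j).2.2
  have hlog0 : ∀ j, 0 ≤ Real.log ((N (j + 1)).relIndex (M j)) := fun j =>
    Real.log_nonneg (by exact_mod_cast Nat.one_le_iff_ne_zero.2 (hidx j))
  have hle1 : ∀ j, N (j + 1 + 1) ≤ (M j).map f := by
    intro j
    rw [hNm (j + 1)]
    exact AddSubgroup.map_mono (hM j).1
  have hidx2 : ∀ j, (N (j + 1 + 1)).relIndex ((M j).map f) = (N (j + 1)).relIndex (M j) := by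
    intro j
    rw [hNm (j + 1)]
    exact AddSubgroup.relIndex_map_map_of_injective _ _ hinj
  have hid : ∀ j, (N (j + 1)).relIndex (M j) * ((M j).map f).relIndex (M (j + 1)) =
      (N (j + 1 + 1)).relIndex (M (j + 1)) * (M (j + 1)).relIndex ((M j).map f) := by
    intro j
    have h1 := AddSubgroup.relIndex_mul_relIndex (N (j + 1 + 1)) ((M j).map f)
      ((M j).map f ⊔ M (j + 1)) (hle1 j) le_sup_left
    have h2 := AddSubgroup.relIndex_mul_relIndex (N (j + 1 + 1)) (M (j + 1))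
      ((M j).map f ⊔ M (j + 1)) (hM (j + 1)).1 le_sup_right
    rw [AddSubgroup.relIndex_sup_left, hidx2] at h1
    rw [AddSubgroup.relIndex_sup_right] at h2
    rw [h1, h2]
  have hv0 : ∀ j, ((M j).map f).relIndex (M (j + 1)) ≠ 0 := by
    intro j h
    have h1 := hid j
    rw [h, mul_zero] at h1
    exact (mul_ne_zero (hidx (j + 1)) (hC0 j)) h1.symm
  have hlogid : ∀ j, Real.log ((N (j + 1)).relIndex (M j)) +
      Real.log (((M j).map f).relIndex (M (j + 1))) =
      Real.log ((N (j + 1 + 1)).relIndex (M (j + 1))) +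
        Real.log ((M (j + 1)).relIndex ((M j).map f)) := by
    intro j
    rw [← Real.log_mul (by exact_mod_cast hidx j) (by exact_mod_cast hv0 j),
      ← Real.log_mul (by exact_mod_cast hidx (j + 1)) (by exact_mod_cast hC0 j)]
    exact_mod_cast congrArg (fun n : ℕ => Real.log (n : ℝ)) (hid j)
  have hvlog : ∀ j, 0 ≤ Real.log (((M j).map f).relIndex (M (j + 1))) := fun j =>
    Real.log_nonneg (by exact_mod_cast Nat.one_le_iff_ne_zero.2 (hv0 j))
  have hulog : ∀ j, 0 ≤ Real.log ((M (j + 1)).relIndex ((M j).map f)) := fun j =>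
    Real.log_nonneg (by exact_mod_cast Nat.one_le_iff_ne_zero.2 (hC0 j))
  have hzero : ∀ j, J ≤ j → Real.log ((N (j + 1)).relIndex (M j)) = 0 := by
    intro j hj
    rw [hJ j hj, AddSubgroup.relIndex_self, Nat.cast_one, Real.log_one]
  -- summation of the identity
  have htel : ∀ j n, Real.log ((N (j + 1)).relIndex (M j)) +
      ∑ i ∈ Finset.range n, Real.log (((M (j + i)).map f).relIndex (M (j + i + 1))) =
      Real.log ((N (j + n + 1)).relIndex (M (j + n))) +
        ∑ i ∈ Finset.range n, Real.log ((M (j + i + 1)).relIndex ((M (j + i)).map f)) := by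
    intro j n
    induction n with
    | zero => simp
    | succ n ih =>
      rw [Finset.sum_range_succ, Finset.sum_range_succ]
      have h1 := hlogid (j + n)
      have h2 : j + (n + 1) = j + n + 1 := rfl
      rw [h2]
      linarith
  have hshift : ∀ j n, ∑ i ∈ Finset.range n,
      Real.log ((M (j + i + 1)).relIndex ((M (j + i)).map f)) ≤ B := by
    intro j n
    have h1 := hC (j + n)
    rw [Finset.sum_range_add] at h1
    have h2 : 0 ≤ ∑ i ∈ Finset.range j, Real.log ((M (i + 1)).relIndex ((M i).map f)) :=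
      Finset.sum_nonneg fun i _ => hulog i
    linarith
  have hv : ∀ n, ∑ j ∈ Finset.range n, Real.log (((M j).map f).relIndex (M (j + 1))) ≤ B := by
    intro n
    have h1 := htel 0 (n + J)
    simp only [Nat.zero_add] at h1
    rw [hzero (n + J) (by omega), Finset.sum_range_add] at h1
    have h2 := hshift 0 (n + J)
    simp only [Nat.zero_add] at h2
    have h3 : 0 ≤ ∑ i ∈ Finset.range J,
        Real.log (((M (n + i)).map f).relIndex (M (n + i + 1))) :=
      Finset.sum_nonneg fun i _ => hvlog _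
    have h4 := hlog0 0
    simp only [Nat.zero_add] at h4
    linarith
  refine ⟨?_, hv0, hv, ?_⟩
  · intro j
    have h1 := htel j J
    rw [hzero (j + J) (by omega)] at h1
    have h2 := hshift j J
    have h3 : 0 ≤ ∑ i ∈ Finset.range J,
        Real.log (((M (j + i)).map f).relIndex (M (j + i + 1))) :=
      Finset.sum_nonneg fun i _ => hvlog _
    linarith
  · intro S hS
    obtain ⟨n, hn⟩ := Finset.exists_nat_subset_range S
    have h1 : ∀ j ∈ S, Real.log 2 ≤ Real.log (((M j).map f).relIndex (M (j + 1))) +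
        Real.log ((M (j + 1)).relIndex ((M j).map f)) := by
      intro j hj
      have h2 := hS j hj
      have hlog2 : ∀ a : ℕ, a ≠ 0 → a ≠ 1 → Real.log 2 ≤ Real.log a := by
        intro a ha ha'
        have : 2 ≤ a := by omega
        exact Real.log_le_log (by norm_num) (by exact_mod_cast this)
      by_cases h3 : ((M j).map f).relIndex (M (j + 1)) = 1
      · have h4 : (M (j + 1)).relIndex ((M j).map f) ≠ 1 := by
          intro h4
          rw [AddSubgroup.relIndex_eq_one] at h3 h4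
          exact h2 (le_antisymm h3 h4)
        have h5 := hlog2 _ (hC0 j) h4
        have h6 := hvlog j
        linarith
      · have h5 := hlog2 _ (hv0 j) h3
        have h6 := hulog j
        linarith
    have h2 : (S.card : ℝ) * Real.log 2 ≤ ∑ j ∈ S,
        (Real.log (((M j).map f).relIndex (M (j + 1))) +
          Real.log ((M (j + 1)).relIndex ((M j).map f))) := by
      have h3 := Finset.sum_le_sum h1
      rw [Finset.sum_const, nsmul_eq_mul] at h3
      exact h3
    have h3 : ∑ j ∈ S, (Real.log (((M j).map f).relIndex (M (j + 1))) +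
          Real.log ((M (j + 1)).relIndex ((M j).map f))) ≤
        ∑ j ∈ Finset.range n, (Real.log (((M j).map f).relIndex (M (j + 1))) +
          Real.log ((M (j + 1)).relIndex ((M j).map f))) :=
      Finset.sum_le_sum_of_subset_of_nonneg hn (fun j _ _ => add_nonneg (hvlog j) (hulog j))
    simp only [Finset.sum_add_distrib] at h2 h3
    have h4 := hv n
    have h5 := hC n
    linarith

/-- **Towers of logarithmic height.** -/
theorem towers (m : ℕ) (hm : 0 < m) (N : ℕ → AddSubgroup Γ)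
    (h0 : N 0 = ⊤) (hN : ∀ j, N (j + 1) ≤ N j) (hmN : ∀ j, ∀ x ∈ N j, m • x ∈ N (j + 1))
    (K : ℝ) (A : Finset Γ) (hA : A.Nonempty) (hK : ((A + A).card : ℝ) ≤ K * A.card) :
    ∃ (r : ℕ) (i : ℕ → ℕ) (L M : ℕ → AddSubgroup Γ),
      (r : ℝ) ≤ 160000000 * Real.log K + 2 ∧ i 0 = 0 ∧ StrictMono i ∧
      -- floors
      (∀ s, N (i (s + 1)) ≤ L s ∧ L s ≤ N (i s) ∧ (N (i (s + 1))).relIndex (L s) ≠ 0) ∧
      (∀ s, r ≤ s → i (s + 1) = i s + 1 ∧ L s = N (i (s + 1))) ∧
      (∀ k l : ℕ, 1 ≤ k → ∃ T : Set Γ,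
        (∀ t ∈ T, ∀ t' ∈ T, ∀ s, t - t' ∈ N (i s) → t - t' ∈ L s) ∧
        (A.card : ℝ) ^ (k + l) ≤ K ^ (ex m + k + l) *
          (Nat.card {p : (Fin k → A) × (Fin l → A) //
            ∑ i, (p.1 i : Γ) - ∑ i, (p.2 i : Γ) ∈ T} : ℝ)) ∧
      (∀ n, (∏ s ∈ Finset.range n, ((N (i (s + 1))).relIndex (L s) : ℝ)) ≤
          K ^ ex m * nres A (N (i n)) ∧
        (nres A (N (i n)) : ℝ) ≤
          K ^ ex m * ∏ s ∈ Finset.range n, ((N (i (s + 1))).relIndex (L s) : ℝ)) ∧
      -- layers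
      (∀ s j, i s ≤ j → j < i (s + 1) → M j = (L s ⊓ N j) ⊔ N (j + 1)) ∧
      (∀ j, N (j + 1) ≤ M j ∧ M j ≤ N j ∧ (N (j + 1)).relIndex (M j) ≠ 0) ∧
      (∀ n, (∏ j ∈ Finset.range n, ((N (j + 1)).relIndex (M j) : ℝ)) ≤ K ^ ex m * nres A (N n) ∧
        (nres A (N n) : ℝ) ≤
          K ^ ex m * ∏ j ∈ Finset.range n, ((N (j + 1)).relIndex (M j) : ℝ)) ∧
      (∀ j, (M (j + 1)).relIndex ((M j).map (nsmulAddMonoidHom (α := Γ) m)) ≠ 0) ∧
      (∀ n, ∏ j ∈ Finset.range n,
        ((M (j + 1)).relIndex ((M j).map (nsmulAddMonoidHom (α := Γ) m)) : ℝ) ≤ K ^ ex m) ∧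
      ((∀ x : Γ, m • x = 0 → x = 0) →
        (∀ j, N (j + 1) = (N j).map (nsmulAddMonoidHom (α := Γ) m)) →
        (∀ j, ((N (j + 1)).relIndex (M j) : ℝ) ≤ K ^ ex m) ∧
        (∀ j, ((M j).map (nsmulAddMonoidHom (α := Γ) m)).relIndex (M (j + 1)) ≠ 0) ∧
        (∀ n, ∏ j ∈ Finset.range n,
          (((M j).map (nsmulAddMonoidHom (α := Γ) m)).relIndex (M (j + 1)) : ℝ) ≤ K ^ ex m) ∧
        (∀ S : Finset ℕ, (∀ j ∈ S, M (j + 1) ≠ (M j).map (nsmulAddMonoidHom (α := Γ) m)) →
          (S.card : ℝ) * Real.log 2 ≤ 2 * (ex m * Real.log K))) := by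
  have hA0 : (0 : ℝ) < A.card := by exact_mod_cast hA.card_pos
  have hK1 : 1 ≤ K := by
    have h1 : (A.card : ℝ) ≤ (A + A).card := by
      exact_mod_cast Finset.card_le_card_add_right hA
    nlinarith
  have hK0 : 0 < K := by linarith
  have hlogK : 0 ≤ Real.log K := Real.log_nonneg hK1
  have hw := law_uw hA
  set X : A → Γ := fun ω => (ω : Γ) with hX
  have hkap := kap_uw hA hK1 hK
  have hkap0 := kap_nonneg hw X
  obtain ⟨r, i, L, hi0, hi, hr, hL, hLr⟩ := exists_floors hw X m hm N h0 hN hmN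
  have hL' : ∀ s, N (i (s + 1)) ≤ L s ∧ L s ≤ N (i s) ∧ (N (i (s + 1))).relIndex (L s) ≠ 0 :=
    fun s => ⟨(hL s).1, (hL s).2.1, (hL s).2.2.1⟩
  have hNi0 : N (i 0) = ⊤ := by rw [hi0, h0]
  have hanti : Antitone N := antitone_nat_of_succ_le hN
  obtain ⟨c1, c2⟩ := chain_sums hw X m (fun s => N (i s)) L hNi0 hL
  obtain ⟨c3, c4⟩ := sizes_of_sums hw X m (fun s => N (i s)) L hNi0 hL' c1 c2
  obtain ⟨hM, l1, l2⟩ := layers_sum hw X m N hN i hi0 hi L hL
  obtain ⟨l3, l4⟩ := sizes_of_sums hw X m N (lay N i L) h0 hM l1 l2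
  obtain ⟨x1, x2⟩ := cross_sums hw X m N (lay N i L) hN hmN hM l1 l2
  have hcc := cc_pos m
  have hd := one_le_dg m
  have hex : (ex m : ℝ) = 1000000 * (dg m : ℝ) := by
    unfold ex dg
    push_cast
    ring
  have hccv : cc m = 246026 * (dg m : ℝ) := rfl
  have hexp : ∀ e : ℕ, Real.exp (e * Real.log K) = K ^ e := by
    intro e
    rw [← Real.log_pow, Real.exp_log (by positivity)]
  have hcb : cc m * kap (uw A) X ≤ 492052 * (dg m : ℝ) * Real.log K := by
    have h1 : cc m * kap (uw A) X ≤ cc m * (2 * Real.log K) :=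
      mul_le_mul_of_nonneg_left hkap hcc.le
    rw [hccv] at h1 ⊢
    linarith
  have hdl : 0 ≤ (dg m : ℝ) * Real.log K := by positivity
  have hdl1 : Real.log K ≤ (dg m : ℝ) * Real.log K := le_mul_of_one_le_left hlogK hd
  have hcb' : cc m * kap (uw A) X ≤ ex m * Real.log K := by
    rw [hex]
    nlinarith
  have hcb1 : Real.log K + cc m * kap (uw A) X ≤ ex m * Real.log K := by
    rw [hex]
    nlinarith
  have hCb : 2 * (cc m * kap (uw A) X) + 5 * dg m * kap (uw A) X ≤ ex m * Real.log K := by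
    have h1 : (2 * cc m + 5 * dg m) * kap (uw A) X ≤
        (2 * cc m + 5 * dg m) * (2 * Real.log K) :=
      mul_le_mul_of_nonneg_left hkap (by positivity)
    rw [hccv] at h1 ⊢
    rw [hex]
    nlinarith
  -- layers are eventually trivial
  have hJ : ∃ J, ∀ j, J ≤ j → lay N i L j = N (j + 1) := by
    refine ⟨i r, fun j hj => ?_⟩
    have h1 := fl_le hi0 (i := i) j
    have h2 := lt_fl hi j
    have h3 : r ≤ fl i j := by
      by_contra hcon
      push Not at hcon
      have h4 : i (fl i j + 1) ≤ i r := hi.monotone hcon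
      omega
    obtain ⟨h5, h6⟩ := hLr _ h3
    have h7 : j = i (fl i j) := by omega
    unfold lay
    rw [h5, h6, ← h7]
    exact sup_eq_right.2 inf_le_left
  refine ⟨r, i, L, lay N i L, ?_, hi0, hi, hL', fun s hs => ⟨(hLr s hs).2, (hLr s hs).1⟩, ?_, ?_,
    ?_, hM, ?_, x1, ?_, ?_⟩
  · linarith
  · -- iterated sums
    intro k l hk
    obtain ⟨k, rfl⟩ : ∃ k', k = k' + 1 := ⟨k - 1, by omega⟩
    have hv := law_prod (law_wk hw (k + 1)) (law_wk hw l)
    obtain ⟨S, hS, hSm⟩ := tower_select hw hv X (sd X (k + 1) l) (dom_sd hw X k l)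
      (fun s => N (i s)) L hNi0 (fun s => hanti (hi (Nat.lt_succ_self s)).le)
      (fun s => (hL s).1) (fun s => (hL s).2.1) c1
    refine ⟨sd X (k + 1) l '' (S : Set _), ?_, ?_⟩
    · rintro _ ⟨s, hs, rfl⟩ _ ⟨s', hs', rfl⟩ j hj
      exact hS s (Finset.mem_coe.1 hs) s' (Finset.mem_coe.1 hs') j hj
    · rw [card_count hA] at hSm
      have h1 := Hg_sd_le hA hK1 hK (k + 1) l
      have h2 : Hg (uw A) X = Real.log A.card := Hg_uw hA
      have h3 : Hg (prod (wk (uw A) (k + 1)) (wk (uw A) l)) (sd X (k + 1) l) - Hg (uw A) X +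
          cc m * kap (uw A) X ≤ (ex m + (k + 1) + l : ℕ) * Real.log K := by
        rw [h2]
        push_cast at h1 ⊢
        linarith
      have h4 : Real.exp (-((ex m + (k + 1) + l : ℕ) * Real.log K)) ≤
          (S.card : ℝ) * ((A.card : ℝ) ^ (k + 1 + l))⁻¹ :=
        le_trans (Real.exp_le_exp.2 (neg_le_neg h3)) hSm
      rw [Real.exp_neg, hexp] at h4
      have hpA : (0 : ℝ) < (A.card : ℝ) ^ (k + 1 + l) := by positivity
      have hpK : (0 : ℝ) < K ^ (ex m + (k + 1) + l) := by positivity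
      have h5 : (A.card : ℝ) ^ (k + 1 + l) ≤ K ^ (ex m + (k + 1) + l) * S.card := by
        rw [← div_eq_mul_inv, le_div_iff₀ hpA, inv_mul_le_iff₀ hpK] at h4
        exact h4
      refine h5.trans (mul_le_mul_of_nonneg_left ?_ hpK.le)
      have h6 : S.card ≤ Nat.card {p : (Fin (k + 1) → A) × (Fin l → A) //
          ∑ i, (p.1 i : Γ) - ∑ i, (p.2 i : Γ) ∈ sd X (k + 1) l '' (S : Set _)} := by
        rw [← Fintype.card_coe, ← Nat.card_eq_fintype_card]
        refine Nat.card_le_card_of_injective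
          (fun s : S => ⟨s.1, ⟨s.1, Finset.mem_coe.2 s.2, rfl⟩⟩) ?_
        intro s s' h
        have h7 := congrArg (fun x => x.1) h
        exact Subtype.ext h7
      exact_mod_cast h6
  · intro n
    exact prod_sizes hA hK1 hK (N (i n)) (fun s => (N (i (s + 1))).relIndex (L s))
      (fun s => (hL s).2.2.1) n (ex m) hcb1 (c3 n) (c4 n)
  · intro s j h1 h2
    unfold lay
    rw [fl_eq hi0 hi h1 h2]
  · intro n
    exact prod_sizes hA hK1 hK (N n) (fun j => (N (j + 1)).relIndex (lay N i L j))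
      (fun s => (hM s).2.2) n (ex m) hcb1 (l3 n) (l4 n)
  · intro n
    rw [← hexp]
    exact prod_le_of_log x1 ((x2 n).trans hCb)
  · intro htf hNm
    obtain ⟨y1, y2, y3, y4⟩ := inj_case htf N (lay N i L) hNm hM hJ x1
      (fun n => (x2 n).trans hCb)
    refine ⟨?_, y2, ?_, y4⟩
    · intro j
      have hpos : (0 : ℝ) < (N (j + 1)).relIndex (lay N i L j) := by
        exact_mod_cast Nat.pos_of_ne_zero (hM j).2.2
      rw [← hexp, ← Real.exp_log hpos]
      exact Real.exp_le_exp.2 (y1 j)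
    · intro n
      rw [← hexp]
      exact prod_le_of_log y2 (y3 n)

end N149.Tow
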