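import Pool.Agent.N149.Tow.Sums
set_option autoImplicit false

/-! The filtered Marton theorem. -/

open scoped Classical Pointwise
set_option linter.unusedSectionVars false
set_option linter.unusedVariables false

namespace N149.Tow

open H137.PFR H137.TwoPow H137.Weak

section ent

variable {Ω : Type*} [Fintype Ω] {G : Type*} [AddCommGroup G] {w : Ω → ℝ}

/-- choice of the tower for a random variable -/
theorem exists_tower (hw : Law w) (X : Ω → G) (m : ℕ) (hm : 0 < m) (N : ℕ → AddSubgroup G)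
    (h0 : N 0 = ⊤) (hN : ∀ j, N (j + 1) ≤ N j) (hmN : ∀ j, ∀ x ∈ N j, m • x ∈ N (j + 1)) :
    ∃ M : ℕ → AddSubgroup G,
      (∀ j, N (j + 1) ≤ M j ∧ M j ≤ N j ∧ (N (j + 1)).relIndex (M j) ≠ 0) ∧
      (∀ n, ∑ j ∈ Finset.range n, (hh w X (M j) - hh w X (N j)) ≤ cc m * kap w X) ∧
      (∀ n, ∑ j ∈ Finset.range n, Real.log ((N (j + 1)).relIndex (M j)) ≤
        hh w X (N n) + cc m * kap w X) ∧
      (∀ n, hh w X (N n) ≤ ∑ j ∈ Finset.range n, Real.log ((N (j + 1)).relIndex (M j)) +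
        cc m * kap w X) ∧
      (∀ j, (M (j + 1)).relIndex ((M j).map (nsmulAddMonoidHom (α := G) m)) ≠ 0) ∧
      (∀ n, ∑ j ∈ Finset.range n,
        Real.log ((M (j + 1)).relIndex ((M j).map (nsmulAddMonoidHom (α := G) m))) ≤
        (2 * cc m + 5 * dg m) * kap w X) := by
  have hex : ∀ j, ∃ P : AddSubgroup G, N (j + 1) ≤ P ∧ P ≤ N j ∧
      (N (j + 1)).relIndex P ≠ 0 ∧
      2 * hh w X P + Real.log ((N (j + 1)).relIndex P) ≤
        hh w X (N (j + 1)) + hh w X (N j) +
          cc m * (kk w X (N (j + 1)) - kk w X (N j)) :=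
    fun j => layer hw X (hN j) m hm (hmN j)
  choose M hM1 hM2 hM3 hM4 using hex
  have hcc := cc_pos m
  have hcons := fun j => layer_cons hw X (hM1 j) (hM3 j) (hM4 j) (hM2 j)
  have hh0 : hh w X (N 0) = 0 := Hg_const hw _ (fun ω ω' => by
    rw [QuotientAddGroup.eq, h0]
    exact AddSubgroup.mem_top _)
  have hkN : ∀ n, kk w X (N n) ≤ kap w X := fun n => kk_le hw X (N n)
  have hk0 : ∀ n, 0 ≤ kk w X (N n) := fun n => kk_nonneg hw X (N n)
  have hc : ∀ n, ∑ j ∈ Finset.range n, cc m * (kk w X (N (j + 1)) - kk w X (N j)) =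
      cc m * (kk w X (N n) - kk w X (N 0)) := by
    intro n
    rw [← Finset.mul_sum, Finset.sum_range_sub (fun j => kk w X (N j))]
  have hcb : ∀ n, cc m * (kk w X (N n) - kk w X (N 0)) ≤ cc m * kap w X := fun n =>
    mul_le_mul_of_nonneg_left (by linarith [hkN n, hk0 0]) hcc.le
  have r1 : ∀ n, ∑ j ∈ Finset.range n, (hh w X (M j) - hh w X (N j)) ≤ cc m * kap w X := by
    intro n
    refine le_trans (Finset.sum_le_sum fun j _ => (hcons j).1) ?_
    rw [hc]
    exact hcb n
  refine ⟨M, fun j => ⟨hM1 j, hM2 j, hM3 j⟩, r1, ?_, ?_, ?_, ?_⟩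
  · intro n
    refine le_trans (Finset.sum_le_sum fun j _ => (hcons j).2.1) ?_
    rw [Finset.sum_add_distrib, hc, Finset.sum_range_sub (fun j => hh w X (N j)), hh0]
    have := hcb n
    linarith
  · intro n
    have h1 : hh w X (N n) = ∑ j ∈ Finset.range n, (hh w X (N (j + 1)) - hh w X (N j)) := by
      rw [Finset.sum_range_sub (fun j => hh w X (N j)), hh0, sub_zero]
    have h2 : ∑ j ∈ Finset.range n, (hh w X (N (j + 1)) - hh w X (N j)) ≤
        ∑ j ∈ Finset.range n, (Real.log ((N (j + 1)).relIndex (M j)) +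
          (hh w X (M j) - hh w X (N j))) := by
      refine Finset.sum_le_sum fun j _ => ?_
      have := hh_le_add_log hw X (hM1 j) (hM3 j)
      linarith
    rw [Finset.sum_add_distrib] at h2
    have h3 := r1 n
    rw [h1]
    linarith
  · intro j
    exact (cross hw X m (hN j) (hN (j + 1)) (hmN j) (hmN (j + 1)) (hM1 j) (hM2 j) (hM1 (j + 1))
      (hM2 (j + 1)) (hM3 j) (hM3 (j + 1))).1
  · intro n
    have h1 : ∀ j, Real.log ((M (j + 1)).relIndex ((M j).map (nsmulAddMonoidHom (α := G) m))) ≤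
        cc m * (kk w X (N (j + 1)) - kk w X (N j)) +
        cc m * (kk w X (N (j + 1 + 1)) - kk w X (N (j + 1))) +
        ((dd w X m (N (j + 1 + 1)) - hh w X (N (j + 1 + 1))) -
          (dd w X m (N (j + 1)) - hh w X (N (j + 1)))) := by
      intro j
      have h2 := (cross hw X m (hN j) (hN (j + 1)) (hmN j) (hmN (j + 1)) (hM1 j) (hM2 j)
        (hM1 (j + 1)) (hM2 (j + 1)) (hM3 j) (hM3 (j + 1))).2
      have h3 := (hcons j).2.2
      have h4 := (hcons (j + 1)).1
      linarith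
    refine le_trans (Finset.sum_le_sum fun j _ => h1 j) ?_
    rw [Finset.sum_add_distrib, Finset.sum_add_distrib, hc,
      Finset.sum_range_sub (fun j => dd w X m (N (j + 1)) - hh w X (N (j + 1)))]
    have h5 : ∑ j ∈ Finset.range n, cc m * (kk w X (N (j + 1 + 1)) - kk w X (N (j + 1))) =
        cc m * (kk w X (N (n + 1)) - kk w X (N 1)) := by
      rw [← Finset.mul_sum, Finset.sum_range_sub (fun j => kk w X (N (j + 1)))]
    rw [h5]
    have h6 := hcb n
    have h7 : cc m * (kk w X (N (n + 1)) - kk w X (N 1)) ≤ cc m * kap w X :=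
      mul_le_mul_of_nonneg_left (by linarith [hkN (n + 1), hk0 1]) hcc.le
    have h8 := dd_le hw X m (N (n + 1))
    have h9 := le_dd hw X m (N 1)
    have hd := one_le_dg m
    have h10 : 5 * (dg m : ℝ) * kk w X (N (n + 1)) ≤ 5 * (dg m : ℝ) * kap w X :=
      mul_le_mul_of_nonneg_left (hkN (n + 1)) (by positivity)
    have h11 : N (0 + 1) = N 1 := rfl
    rw [h11]
    linarith

end ent

section card

variable {Γ : Type*} [AddCommGroup Γ]

/-- number of residues -/
noncomputable def nres (A : Finset Γ) (N : AddSubgroup Γ) : ℕ :=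
  (A.image (fun a : Γ => (a : Γ ⧸ N))).card

theorem hh_le_log_nres {A : Finset Γ} (hA : A.Nonempty) (N : AddSubgroup Γ) :
    hh (uw A) (fun ω : A => (ω : Γ)) N ≤ Real.log (nres A N) :=
  Hg_le_log_card (law_uw hA) _ _ (fun ω => Finset.mem_image_of_mem _ ω.2)

theorem nres_pos {A : Finset Γ} (hA : A.Nonempty) (N : AddSubgroup Γ) : 0 < nres A N := by
  unfold nres
  rw [Finset.card_pos]
  exact hA.image _

theorem nres_le_card (A : Finset Γ) (N : AddSubgroup Γ) : nres A N ≤ A.card :=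
  Finset.card_image_le

theorem nres_le {A : Finset Γ} (hA : A.Nonempty) {K : ℝ} (hK1 : 1 ≤ K)
    (hK : ((A + A).card : ℝ) ≤ K * A.card) (N : AddSubgroup Γ) :
    (nres A N : ℝ) ≤ K * Real.exp (hh (uw A) (fun ω : A => (ω : Γ)) N) := by
  obtain ⟨a₀, ha₀, hpop⟩ := exists_popular hA N
  have hsec : ∀ r ∈ A.image (fun a : Γ => (a : Γ ⧸ N)), ∃ a ∈ A, (a : Γ ⧸ N) = r := by
    intro r hr
    obtain ⟨a, ha, h⟩ := Finset.mem_image.1 hr
    exact ⟨a, ha, h⟩
  choose! s hs1 hs2 using hsec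
  have hinj : ((A.image (fun a : Γ => (a : Γ ⧸ N))) ×ˢ fib A N a₀).card ≤ (A + A).card := by
    refine Finset.card_le_card_of_injOn (fun p => s p.1 + p.2) ?_ ?_
    · intro p hp
      rw [Finset.mem_coe, Finset.mem_product] at hp
      rw [Finset.mem_coe]
      exact Finset.add_mem_add (hs1 _ hp.1) (mem_fib.1 hp.2).1
    · intro p hp q hq h
      rw [Finset.mem_coe, Finset.mem_product] at hp hq
      simp only at h
      have e1 : p.1 = q.1 := by
        have h1 : ((s p.1 + p.2 : Γ) : Γ ⧸ N) = ((s q.1 + q.2 : Γ) : Γ ⧸ N) := by rw [h]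
        rw [QuotientAddGroup.mk_add, QuotientAddGroup.mk_add, hs2 _ hp.1, hs2 _ hq.1] at h1
        have h2 : (p.2 : Γ ⧸ N) = (q.2 : Γ ⧸ N) := by
          rw [← QuotientAddGroup.eq.2 (mem_fib.1 hp.2).2, ← QuotientAddGroup.eq.2 (mem_fib.1 hq.2).2]
        rw [h2] at h1
        exact add_right_cancel h1
      refine Prod.ext e1 ?_
      rw [e1] at h
      exact add_left_cancel h
  rw [Finset.card_product] at hinj
  have hA0 : (0 : ℝ) < A.card := by exact_mod_cast hA.card_pos
  set h := hh (uw A) (fun ω : A => (ω : Γ)) N with hh'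
  have h1 : (nres A N : ℝ) * (fib A N a₀).card ≤ K * A.card := by
    refine le_trans ?_ hK
    exact_mod_cast hinj
  have h2 : (nres A N : ℝ) * (Real.exp (-h) * A.card) ≤ K * A.card :=
    le_trans (mul_le_mul_of_nonneg_left hpop (Nat.cast_nonneg _)) h1
  have h3 : ((nres A N : ℝ) * Real.exp (-h)) * A.card ≤ K * A.card := by
    rw [mul_assoc]
    exact h2
  have h4 := le_of_mul_le_mul_right h3 hA0
  rw [Real.exp_neg, ← div_eq_mul_inv, div_le_iff₀ (Real.exp_pos _)] at h4
  exact h4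

theorem sum_mem_nsmul (A : Finset Γ) (k : ℕ) (f : Fin k → A) :
    ∑ i, (f i : Γ) ∈ k • A := by
  induction k with
  | zero => simp
  | succ k ih =>
    rw [Fin.sum_univ_succ, succ_nsmul']
    exact Finset.add_mem_add (f 0).2 (ih (fun i => f i.succ))

theorem Hg_sd_le {A : Finset Γ} (hA : A.Nonempty) {K : ℝ} (hK1 : 1 ≤ K)
    (hK : ((A + A).card : ℝ) ≤ K * A.card) (k l : ℕ) :
    Hg (prod (wk (uw A) k) (wk (uw A) l)) (sd (fun ω : A => (ω : Γ)) k l) ≤
      Real.log A.card + (k + l : ℕ) * Real.log K := by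
  have hA0 : (0 : ℝ) < A.card := by exact_mod_cast hA.card_pos
  have hK0 : 0 < K := by linarith
  have h1 := Hg_le_log_card (law_prod (law_wk (law_uw hA) k) (law_wk (law_uw hA) l))
    (sd (fun ω : A => (ω : Γ)) k l) (k • A - l • A) (fun p =>
      Finset.sub_mem_sub (sum_mem_nsmul A k p.1) (sum_mem_nsmul A l p.2))
  have h2 := Finset.pluennecke_ruzsa_inequality_nsmul_sub_nsmul_add hA A k l
  have h3 : ((k • A - l • A).card : ℝ) ≤ ((A + A).card / A.card : ℝ) ^ (k + l) * A.card := by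
    have h4 : (((k • A - l • A).card : ℚ≥0) : ℝ) ≤
        ((((A + A).card / A.card : ℚ≥0) ^ (k + l) * A.card : ℚ≥0) : ℝ) := by
      exact_mod_cast h2
    push_cast at h4
    exact h4
  have h5 : ((A + A).card / A.card : ℝ) ≤ K := by
    rw [div_le_iff₀ hA0]
    exact hK
  have h6 : ((k • A - l • A).card : ℝ) ≤ K ^ (k + l) * A.card :=
    h3.trans (mul_le_mul_of_nonneg_right (pow_le_pow_left₀ (by positivity) h5 _) hA0.le)
  have hne : (k • A - l • A).Nonempty := by
    obtain ⟨a, ha⟩ := hA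
    exact ⟨_, Finset.sub_mem_sub (sum_mem_nsmul A k (fun _ => ⟨a, ha⟩))
      (sum_mem_nsmul A l (fun _ => ⟨a, ha⟩))⟩
  have h7 := Real.log_le_log (by exact_mod_cast hne.card_pos) h6
  rw [Real.log_mul (by positivity) hA0.ne', Real.log_pow] at h7
  linarith

end card

end N149.Tow
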