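import Pool.Agent.N149.Tow.Blk
import Pool.Agent.N149.Tow.Main
set_option autoImplicit false

/-! Floors and layers of a random variable. -/

open scoped Classical
set_option linter.unusedSectionVars false
set_option linter.unusedVariables false

namespace N149.Tow

open H137.PFR H137.TwoPow H137.Weak

variable {Ω : Type*} [Fintype Ω] {G : Type*} [AddCommGroup G] {w : Ω → ℝ}

/-- submodularity for two subgroups -/
theorem hh_inf_sup (hw : Law w) (X : Ω → G) (A B : AddSubgroup G) :
    hh w X (A ⊓ B) + hh w X (A ⊔ B) ≤ hh w X A + hh w X B := by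
  refine Hg_sub_of hw ?_ ?_ ?_
  · intro p q h
    rw [QuotientAddGroup.eq] at h ⊢
    exact AddSubgroup.mem_sup_left h
  · intro p q h
    rw [QuotientAddGroup.eq] at h ⊢
    exact AddSubgroup.mem_sup_right h
  · intro p q h h'
    rw [QuotientAddGroup.eq] at h h' ⊢
    exact ⟨h, h'⟩

theorem pow_smul_mem {N : ℕ → AddSubgroup G} {m : ℕ}
    (hmN : ∀ j, ∀ x ∈ N j, m • x ∈ N (j + 1)) (a t : ℕ) :
    ∀ x ∈ N a, (m ^ t) • x ∈ N (a + t) := by
  induction t with
  | zero =>
    intro x hx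
    rw [pow_zero, one_smul]
    exact hx
  | succ t ih =>
    intro x hx
    rw [pow_succ', mul_smul]
    exact hmN _ _ (ih x hx)

/-- **Floors of a random variable.** -/
theorem exists_floors (hw : Law w) (X : Ω → G) (m : ℕ) (hm : 0 < m) (N : ℕ → AddSubgroup G)
    (h0 : N 0 = ⊤) (hN : ∀ j, N (j + 1) ≤ N j) (hmN : ∀ j, ∀ x ∈ N j, m • x ∈ N (j + 1)) :
    ∃ (r : ℕ) (i : ℕ → ℕ) (L : ℕ → AddSubgroup G), i 0 = 0 ∧ StrictMono i ∧
      (r : ℝ) ≤ 80000000 * kap w X + 2 ∧
      (∀ s, N (i (s + 1)) ≤ L s ∧ L s ≤ N (i s) ∧ (N (i (s + 1))).relIndex (L s) ≠ 0 ∧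
        2 * hh w X (L s) + Real.log ((N (i (s + 1))).relIndex (L s)) ≤
          hh w X (N (i (s + 1))) + hh w X (N (i s)) +
            cc m * (kk w X (N (i (s + 1))) - kk w X (N (i s)))) ∧
      (∀ s, r ≤ s → L s = N (i (s + 1)) ∧ i (s + 1) = i s + 1) := by
  have hanti : Antitone N := antitone_nat_of_succ_le hN
  obtain ⟨J, hJ⟩ := exists_cut N hN (diffs X)
  have hhJ : ∀ j, J ≤ j → hh w X (N j) = hh w X (N J) := by
    intro j hj
    refine Hg_congr fun ω ω' => ?_
    rw [QuotientAddGroup.eq, QuotientAddGroup.eq]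
    exact ⟨fun h => hanti hj h, fun h => hJ _ (mem_diffs X ω ω') h j⟩
  have hmono : Monotone (fun j => kk w X (N j)) := fun a b hab => kk_anti hw X (hanti hab)
  obtain ⟨r, i, hi0, hir, hi, hr⟩ := blocks (fun j => kk w X (N j)) hmono
    (ε := 1 / 40000000) (by norm_num) J J 0 (by omega) (Nat.zero_le _)
  -- choice of the floors
  have hex : ∀ s, s < r → ∃ P : AddSubgroup G, N (i (s + 1)) ≤ P ∧ P ≤ N (i s) ∧
      (N (i (s + 1))).relIndex P ≠ 0 ∧
      2 * hh w X P + Real.log ((N (i (s + 1))).relIndex P) ≤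
        hh w X (N (i (s + 1))) + hh w X (N (i s)) +
          cc m * (kk w X (N (i (s + 1))) - kk w X (N (i s))) := by
    intro s hs
    obtain ⟨h1, h2⟩ := hi s hs
    rcases h2 with h2 | h2
    · rw [h2]
      exact layer hw X (hN _) m hm (hmN _)
    · obtain ⟨P, hP1, hP2, hP3, hP4⟩ := layer_99 hw X (hanti h1.le) (m ^ (i (s + 1) - i s))
        (pow_pos hm _) (fun x hx => by
          have h3 := pow_smul_mem hmN (i s) (i (s + 1) - i s) x hx
          rw [Nat.add_sub_cancel' h1.le] at h3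
          exact h3) h2
      refine ⟨P, hP1, hP2, hP3, hP4.trans ?_⟩
      have h4 : 0 ≤ kk w X (N (i (s + 1))) - kk w X (N (i s)) := by
        have := kk_anti hw X (hanti h1.le)
        linarith
      have h5 : (218 : ℝ) ≤ cc m := by
        unfold cc
        have := one_le_dg m
        linarith
      have h6 := mul_le_mul_of_nonneg_right h5 h4
      linarith
  choose! Q hQ using hex
  set i' : ℕ → ℕ := fun s => if s ≤ r then i s else J + (s - r) with hi'
  set L : ℕ → AddSubgroup G := fun s => if s < r then Q s else N (i' (s + 1)) with hL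
  have hi'1 : ∀ s, s ≤ r → i' s = i s := fun s hs => by rw [hi']; simp only [if_pos hs]
  have hi'2 : ∀ s, r ≤ s → i' s = J + (s - r) := by
    intro s hs
    rw [hi']
    simp only
    rcases hs.eq_or_lt with rfl | hs
    · rw [if_pos (le_refl _), hir]
      omega
    · rw [if_neg (by omega)]
  have hcc := cc_pos m
  refine ⟨r, i', L, ?_, ?_, ?_, ?_, ?_⟩
  · rw [hi'1 0 (Nat.zero_le _), hi0]
  · refine strictMono_nat_of_lt_succ fun s => ?_
    rcases Nat.lt_or_ge s r with hs | hs
    · rw [hi'1 s hs.le, hi'1 (s + 1) hs]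
      exact (hi s hs).1
    · rw [hi'2 s hs, hi'2 (s + 1) (by omega)]
      omega
  · have h1 := kk_le hw X (N J)
    have h2 := kk_nonneg hw X (N 0)
    linarith
  · intro s
    rcases Nat.lt_or_ge s r with hs | hs
    · have e1 : L s = Q s := by rw [hL]; simp only [if_pos hs]
      rw [e1, hi'1 s hs.le, hi'1 (s + 1) hs]
      exact hQ s hs
    · have e1 : L s = N (i' (s + 1)) := by rw [hL]; simp only [if_neg (by omega : ¬ s < r)]
      have e2 : i' s = J + (s - r) := hi'2 s hs
      have e3 : i' (s + 1) = J + (s - r) + 1 := by rw [hi'2 (s + 1) (by omega)]; omega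
      rw [e1, e3, e2]
      refine ⟨le_refl _, hN _, ?_, ?_⟩
      · rw [AddSubgroup.relIndex_self]
        norm_num
      · rw [AddSubgroup.relIndex_self, Nat.cast_one, Real.log_one,
          hhJ (J + (s - r) + 1) (by omega), hhJ (J + (s - r)) (by omega)]
        have h4 : 0 ≤ kk w X (N (J + (s - r) + 1)) - kk w X (N (J + (s - r))) := by
          have := kk_anti hw X (hN (J + (s - r)))
          linarith
        have := mul_nonneg hcc.le h4
        linarith
  · intro s hs
    have e1 : L s = N (i' (s + 1)) := by rw [hL]; simp only [if_neg (by omega : ¬ s < r)]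
    refine ⟨e1, ?_⟩
    rw [hi'2 s hs, hi'2 (s + 1) (by omega)]
    omega

/-! ### layers inside the floors -/

/-- the floor of `j` -/
noncomputable def fl (i : ℕ → ℕ) (j : ℕ) : ℕ := Nat.findGreatest (fun s => i s ≤ j) j

theorem fl_le {i : ℕ → ℕ} (h0 : i 0 = 0) (j : ℕ) : i (fl i j) ≤ j := by
  have h := Nat.findGreatest_spec (P := fun s => i s ≤ j) (Nat.zero_le j) (by rw [h0]; omega)
  exact h

theorem lt_fl {i : ℕ → ℕ} (hi : StrictMono i) (j : ℕ) : j < i (fl i j + 1) := by
  by_contra hcon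
  push Not at hcon
  have h1 : fl i j + 1 ≤ j := le_trans (hi.id_le _) hcon
  have h2 := Nat.le_findGreatest (P := fun s => i s ≤ j) h1 hcon
  unfold fl at h2
  omega

theorem fl_eq {i : ℕ → ℕ} (h0 : i 0 = 0) (hi : StrictMono i) {s j : ℕ} (h1 : i s ≤ j)
    (h2 : j < i (s + 1)) : fl i j = s := by
  have h3 := fl_le h0 j
  have h4 := lt_fl hi j
  have h5 : s < fl i j + 1 := hi.lt_iff_lt.1 (lt_of_le_of_lt h1 h4)
  have h6 : fl i j < s + 1 := hi.lt_iff_lt.1 (lt_of_le_of_lt h3 h2)
  omega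

/-- the layer `j` of the floors -/
noncomputable def lay (N : ℕ → AddSubgroup G) (i : ℕ → ℕ) (L : ℕ → AddSubgroup G) (j : ℕ) :
    AddSubgroup G := (L (fl i j) ⊓ N j) ⊔ N (j + 1)

theorem one_floor (hw : Law w) (X : Ω → G) {N : ℕ → AddSubgroup G}
    (hN : ∀ j, N (j + 1) ≤ N j) (a b : ℕ) (hab : a ≤ b) {P : AddSubgroup G} (h1 : N b ≤ P)
    (h2 : P ≤ N a) (h3 : (N b).relIndex P ≠ 0) :
    ∀ t, a + t ≤ b → (N (a + t) ⊓ P).relIndex P ≠ 0 ∧ (N b).relIndex (P ⊓ N (a + t)) ≠ 0 ∧
      (∀ u < t, (N (a + u + 1)).relIndex ((P ⊓ N (a + u)) ⊔ N (a + u + 1)) ≠ 0) ∧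
      hh w X (P ⊓ N (a + t)) - hh w X P ≤
        ∑ u ∈ Finset.range t, (hh w X (N (a + u + 1)) -
          hh w X ((P ⊓ N (a + u)) ⊔ N (a + u + 1))) ∧
      ∑ u ∈ Finset.range t, Real.log ((N (a + u + 1)).relIndex
        ((P ⊓ N (a + u)) ⊔ N (a + u + 1))) + Real.log ((N b).relIndex (P ⊓ N (a + t))) =
        Real.log ((N b).relIndex P) := by
  have hanti : Antitone N := antitone_nat_of_succ_le hN
  intro t
  induction t with
  | zero =>
    intro _
    have e1 : P ⊓ N (a + 0) = P := inf_eq_left.2 h2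
    have e2 : N (a + 0) ⊓ P = P := inf_eq_right.2 h2
    refine ⟨?_, ?_, fun u hu => absurd hu (Nat.not_lt_zero _), ?_, ?_⟩
    · rw [e2, AddSubgroup.relIndex_self]
      norm_num
    · rw [e1]
      exact h3
    · rw [e1, sub_self, Finset.range_zero, Finset.sum_empty]
    · rw [e1, Finset.range_zero, Finset.sum_empty, zero_add]
  | succ t ih =>
    intro ht
    obtain ⟨i1, i2, i3, i4, i5⟩ := ih (by omega)
    have hbN : N b ≤ N (a + t + 1) := hanti (by omega)
    have hle : P ⊓ N (a + t + 1) ≤ P ⊓ N (a + t) := inf_le_inf_left P (hN _)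
    have hb1 : N b ≤ P ⊓ N (a + t + 1) := le_inf h1 hbN
    have hmul := AddSubgroup.relIndex_mul_relIndex (N b) (P ⊓ N (a + t + 1)) (P ⊓ N (a + t))
      hb1 hle
    have g1 : (N b).relIndex (P ⊓ N (a + t + 1)) ≠ 0 := by
      intro h
      rw [h, zero_mul] at hmul
      exact i2 hmul.symm
    have g2 : (P ⊓ N (a + t + 1)).relIndex (P ⊓ N (a + t)) ≠ 0 := by
      intro h
      rw [h, mul_zero] at hmul
      exact i2 hmul.symm
    have einf : N (a + t + 1) ⊓ (P ⊓ N (a + t)) = P ⊓ N (a + t + 1) := by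
      rw [← inf_assoc, inf_comm (N (a + t + 1)) P, inf_assoc, inf_eq_left.2 (hN (a + t))]
    have g3 : (N (a + t + 1)).relIndex ((P ⊓ N (a + t)) ⊔ N (a + t + 1)) =
        (P ⊓ N (a + t + 1)).relIndex (P ⊓ N (a + t)) := by
      rw [AddSubgroup.relIndex_sup_right, ← AddSubgroup.inf_relIndex_right, einf]
    refine ⟨?_, g1, ?_, ?_, ?_⟩
    · -- index of the intersection
      have hm2 := AddSubgroup.relIndex_mul_relIndex (N b) (N (a + (t + 1)) ⊓ P) P
        (le_inf hbN h1) inf_le_right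
      intro h
      rw [h, mul_zero] at hm2
      exact h3 hm2.symm
    · intro u hu
      rcases Nat.lt_succ_iff_lt_or_eq.1 hu with hu | rfl
      · exact i3 u hu
      · rw [g3]
        exact g2
    · rw [Finset.sum_range_succ]
      have h4 := hh_inf_sup hw X (N (a + t + 1)) (P ⊓ N (a + t))
      rw [einf, sup_comm] at h4
      have e1 : a + (t + 1) = a + t + 1 := rfl
      rw [e1]
      linarith
    · rw [Finset.sum_range_succ, g3]
      have e1 : a + (t + 1) = a + t + 1 := rfl
      rw [e1]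
      have h4 : Real.log ((N b).relIndex (P ⊓ N (a + t))) =
          Real.log ((N b).relIndex (P ⊓ N (a + t + 1))) +
            Real.log ((P ⊓ N (a + t + 1)).relIndex (P ⊓ N (a + t))) := by
        rw [← hmul, Nat.cast_mul, Real.log_mul (by exact_mod_cast g1) (by exact_mod_cast g2)]
      linarith

end N149.Tow
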