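import Pool.Agent.N149.Tow.Fl
set_option autoImplicit false

/-! Sums over the layers. -/

open scoped Classical
set_option linter.unusedSectionVars false
set_option linter.unusedVariables false

namespace N149.Tow

open H137.PFR H137.TwoPow H137.Weak

variable {Ω : Type*} [Fintype Ω] {G : Type*} [AddCommGroup G] {w : Ω → ℝ}

theorem layers_sum (hw : Law w) (X : Ω → G) (m : ℕ) (N : ℕ → AddSubgroup G)
    (hN : ∀ j, N (j + 1) ≤ N j) (i : ℕ → ℕ) (hi0 : i 0 = 0) (hi : StrictMono i)
    (L : ℕ → AddSubgroup G)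
    (hL : ∀ s, N (i (s + 1)) ≤ L s ∧ L s ≤ N (i s) ∧ (N (i (s + 1))).relIndex (L s) ≠ 0 ∧
        2 * hh w X (L s) + Real.log ((N (i (s + 1))).relIndex (L s)) ≤
          hh w X (N (i (s + 1))) + hh w X (N (i s)) +
            cc m * (kk w X (N (i (s + 1))) - kk w X (N (i s)))) :
    (∀ j, N (j + 1) ≤ lay N i L j ∧ lay N i L j ≤ N j ∧
      (N (j + 1)).relIndex (lay N i L j) ≠ 0) ∧
    (∀ n, ∑ j ∈ Finset.range n, (hh w X (lay N i L j) - hh w X (N j)) ≤ cc m * kap w X) ∧
    (∀ n, ∑ j ∈ Finset.range n, (Real.log ((N (j + 1)).relIndex (lay N i L j)) -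
      hh w X (N (j + 1)) + hh w X (lay N i L j)) ≤ cc m * kap w X) := by
  have hanti : Antitone N := antitone_nat_of_succ_le hN
  have hcc := cc_pos m
  -- description of the layers of a floor
  have hlay : ∀ s u, u < i (s + 1) - i s →
      lay N i L (i s + u) = (L s ⊓ N (i s + u)) ⊔ N (i s + u + 1) := by
    intro s u hu
    unfold lay
    rw [fl_eq hi0 hi (s := s) (j := i s + u) (by omega) (by omega)]
  have hfloor : ∀ s, (∀ u < i (s + 1) - i s,
      (N (i s + u + 1)).relIndex (lay N i L (i s + u)) ≠ 0) ∧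
      hh w X (N (i (s + 1))) - hh w X (L s) ≤
        ∑ u ∈ Finset.range (i (s + 1) - i s), (hh w X (N (i s + u + 1)) -
          hh w X (lay N i L (i s + u))) ∧
      ∑ u ∈ Finset.range (i (s + 1) - i s), Real.log ((N (i s + u + 1)).relIndex
        (lay N i L (i s + u))) = Real.log ((N (i (s + 1))).relIndex (L s)) := by
    intro s
    obtain ⟨h1, h2, h3, h4⟩ := hL s
    have hlt : i s ≤ i (s + 1) := (hi (Nat.lt_succ_self s)).le
    obtain ⟨_, _, f3, f4, f5⟩ := one_floor hw X hN (i s) (i (s + 1)) hlt h1 h2 h3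
      (i (s + 1) - i s) (by omega)
    have e1 : L s ⊓ N (i s + (i (s + 1) - i s)) = N (i (s + 1)) := by
      rw [Nat.add_sub_cancel' hlt]
      exact inf_eq_right.2 h1
    rw [e1] at f4 f5
    rw [AddSubgroup.relIndex_self, Nat.cast_one, Real.log_one, add_zero] at f5
    refine ⟨?_, ?_, ?_⟩
    · intro u hu
      rw [hlay s u hu]
      exact f3 u hu
    · refine f4.trans (le_of_eq (Finset.sum_congr rfl fun u hu => ?_))
      rw [hlay s u (Finset.mem_range.1 hu)]
    · rw [← f5]
      refine Finset.sum_congr rfl fun u hu => ?_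
      rw [hlay s u (Finset.mem_range.1 hu)]
  have hbase : ∀ j, N (j + 1) ≤ lay N i L j ∧ lay N i L j ≤ N j ∧
      (N (j + 1)).relIndex (lay N i L j) ≠ 0 := by
    intro j
    refine ⟨le_sup_right, sup_le inf_le_right (hN j), ?_⟩
    have h1 := fl_le hi0 (i := i) j
    have h2 := lt_fl hi j
    have h3 := (hfloor (fl i j)).1 (j - i (fl i j)) (by omega)
    rw [Nat.add_sub_cancel' h1] at h3
    exact h3
  have hf0 : ∀ j, 0 ≤ hh w X (lay N i L j) - hh w X (N j) := by
    intro j
    have := hh_anti hw X (hbase j).2.1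
    linarith
  have hg0 : ∀ j, 0 ≤ Real.log ((N (j + 1)).relIndex (lay N i L j)) -
      hh w X (N (j + 1)) + hh w X (lay N i L j) := by
    intro j
    have := hh_le_add_log hw X (hbase j).1 (hbase j).2.2
    linarith
  have hs1 : ∀ s, ∑ u ∈ Finset.range (i (s + 1) - i s),
      (hh w X (lay N i L (i s + u)) - hh w X (N (i s + u))) ≤
      cc m * (kk w X (N (i (s + 1))) - kk w X (N (i s))) := by
    intro s
    obtain ⟨h1, h2, h3, h4⟩ := hL s
    have hlt : i s ≤ i (s + 1) := (hi (Nat.lt_succ_self s)).le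
    have hc := layer_cons hw X h1 h3 h4 h2
    have e1 : ∑ u ∈ Finset.range (i (s + 1) - i s),
        (hh w X (lay N i L (i s + u)) - hh w X (N (i s + u))) =
        ∑ u ∈ Finset.range (i (s + 1) - i s),
          (hh w X (N (i s + (u + 1))) - hh w X (N (i s + u))) -
        ∑ u ∈ Finset.range (i (s + 1) - i s), (hh w X (N (i s + u + 1)) -
          hh w X (lay N i L (i s + u))) := by
      rw [← Finset.sum_sub_distrib]
      refine Finset.sum_congr rfl fun u _ => ?_
      have : i s + (u + 1) = i s + u + 1 := rfl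
      rw [this]
      ring
    rw [e1, Finset.sum_range_sub (fun u => hh w X (N (i s + u))), Nat.add_sub_cancel' hlt]
    have h5 := (hfloor s).2.1
    have h6 : N (i s + 0) = N (i s) := rfl
    rw [h6]
    linarith [hc.1]
  have hs2 : ∀ s, ∑ u ∈ Finset.range (i (s + 1) - i s),
      (Real.log ((N (i s + u + 1)).relIndex (lay N i L (i s + u))) -
        hh w X (N (i s + u + 1)) + hh w X (lay N i L (i s + u))) ≤
      cc m * (kk w X (N (i (s + 1))) - kk w X (N (i s))) := by
    intro s
    obtain ⟨h1, h2, h3, h4⟩ := hL s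
    have hc := layer_cons hw X h1 h3 h4 h2
    have e1 : ∑ u ∈ Finset.range (i (s + 1) - i s),
      (Real.log ((N (i s + u + 1)).relIndex (lay N i L (i s + u))) -
        hh w X (N (i s + u + 1)) + hh w X (lay N i L (i s + u))) =
        ∑ u ∈ Finset.range (i (s + 1) - i s), Real.log ((N (i s + u + 1)).relIndex
          (lay N i L (i s + u))) -
        ∑ u ∈ Finset.range (i (s + 1) - i s), (hh w X (N (i s + u + 1)) -
          hh w X (lay N i L (i s + u))) := by
      rw [← Finset.sum_sub_distrib]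
      refine Finset.sum_congr rfl fun u _ => ?_
      ring
    rw [e1, (hfloor s).2.2]
    have h5 := (hfloor s).2.1
    linarith
  -- summation over the floors
  have htot : ∀ f : ℕ → ℝ, (∀ j, 0 ≤ f j) →
      (∀ s, ∑ u ∈ Finset.range (i (s + 1) - i s), f (i s + u) ≤
        cc m * (kk w X (N (i (s + 1))) - kk w X (N (i s)))) →
      ∀ n, ∑ j ∈ Finset.range n, f j ≤ cc m * kap w X := by
    intro f hf hfs n
    have h1 : ∀ n, ∑ j ∈ Finset.range (i n), f j ≤
        cc m * (kk w X (N (i n)) - kk w X (N (i 0))) := by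
      intro n
      induction n with
      | zero =>
        rw [hi0, Finset.range_zero, Finset.sum_empty, sub_self, mul_zero]
      | succ n ih =>
        have hlt : i n ≤ i (n + 1) := (hi (Nat.lt_succ_self n)).le
        have e1 : ∑ j ∈ Finset.range (i (n + 1)), f j =
            ∑ j ∈ Finset.range (i n), f j +
              ∑ u ∈ Finset.range (i (n + 1) - i n), f (i n + u) := by
          rw [← Finset.sum_range_add, Nat.add_sub_cancel' hlt]
        have h2 := hfs n
        rw [e1]
        linarith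
    have h2 : ∑ j ∈ Finset.range n, f j ≤ ∑ j ∈ Finset.range (i n), f j :=
      Finset.sum_le_sum_of_subset_of_nonneg (Finset.range_mono (hi.id_le n))
        (fun j _ _ => hf j)
    refine h2.trans ((h1 n).trans ?_)
    refine mul_le_mul_of_nonneg_left ?_ hcc.le
    have h3 := kk_le hw X (N (i n))
    have h4 := kk_nonneg hw X (N (i 0))
    linarith
  exact ⟨hbase, htot _ hf0 hs1, htot _ hg0 hs2⟩

end N149.Tow
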