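import Pool.Agent.N149.Tow.Fl2
set_option autoImplicit false

/-! Floors and layers of a random variable: all the estimates. -/

open scoped Classical
set_option linter.unusedSectionVars false
set_option linter.unusedVariables false

namespace N149.Tow

open H137.PFR H137.TwoPow H137.Weak

variable {Ω : Type*} [Fintype Ω] {G : Type*} [AddCommGroup G] {w : Ω → ℝ}

theorem hh_top (hw : Law w) (X : Ω → G) {N : AddSubgroup G} (h0 : N = ⊤) : hh w X N = 0 :=
  Hg_const hw _ (fun ω ω' => by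
    rw [QuotientAddGroup.eq, h0]
    exact AddSubgroup.mem_top _)

/-- sums over a chain -/
theorem chain_sums (hw : Law w) (X : Ω → G) (m : ℕ) (N M : ℕ → AddSubgroup G) (h0 : N 0 = ⊤)
    (hM : ∀ s, N (s + 1) ≤ M s ∧ M s ≤ N s ∧ (N (s + 1)).relIndex (M s) ≠ 0 ∧
        2 * hh w X (M s) + Real.log ((N (s + 1)).relIndex (M s)) ≤
          hh w X (N (s + 1)) + hh w X (N s) + cc m * (kk w X (N (s + 1)) - kk w X (N s))) :
    (∀ n, ∑ j ∈ Finset.range n, (hh w X (M j) - hh w X (N j)) ≤ cc m * kap w X) ∧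
      (∀ n, ∑ j ∈ Finset.range n, (Real.log ((N (j + 1)).relIndex (M j)) -
        hh w X (N (j + 1)) + hh w X (M j)) ≤ cc m * kap w X) := by
  have hcc := cc_pos m
  have hcons := fun j => layer_cons hw X (hM j).1 (hM j).2.2.1 (hM j).2.2.2 (hM j).2.1
  have hc : ∀ n, ∑ j ∈ Finset.range n, cc m * (kk w X (N (j + 1)) - kk w X (N j)) ≤
      cc m * kap w X := by
    intro n
    rw [← Finset.mul_sum, Finset.sum_range_sub (fun j => kk w X (N j))]
    refine mul_le_mul_of_nonneg_left ?_ hcc.le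
    linarith [kk_le hw X (N n), kk_nonneg hw X (N 0)]
  exact ⟨fun n => (Finset.sum_le_sum fun j _ => (hcons j).1).trans (hc n),
    fun n => (Finset.sum_le_sum fun j _ => (hcons j).2.2).trans (hc n)⟩

/-- sizes -/
theorem sizes_of_sums (hw : Law w) (X : Ω → G) (m : ℕ) (N M : ℕ → AddSubgroup G) (h0 : N 0 = ⊤)
    (hM : ∀ s, N (s + 1) ≤ M s ∧ M s ≤ N s ∧ (N (s + 1)).relIndex (M s) ≠ 0) {B : ℝ}
    (h1 : ∀ n, ∑ j ∈ Finset.range n, (hh w X (M j) - hh w X (N j)) ≤ B)
    (h2 : ∀ n, ∑ j ∈ Finset.range n, (Real.log ((N (j + 1)).relIndex (M j)) -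
        hh w X (N (j + 1)) + hh w X (M j)) ≤ B) :
    (∀ n, ∑ j ∈ Finset.range n, Real.log ((N (j + 1)).relIndex (M j)) ≤ hh w X (N n) + B) ∧
      (∀ n, hh w X (N n) ≤ ∑ j ∈ Finset.range n, Real.log ((N (j + 1)).relIndex (M j)) + B) := by
  have hh0 := hh_top hw X h0
  have htel : ∀ n, hh w X (N n) = ∑ j ∈ Finset.range n, (hh w X (N (j + 1)) - hh w X (N j)) := by
    intro n
    rw [Finset.sum_range_sub (fun j => hh w X (N j)), hh0, sub_zero]
  constructor
  · intro n
    have h3 : ∑ j ∈ Finset.range n, Real.log ((N (j + 1)).relIndex (M j)) ≤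
        ∑ j ∈ Finset.range n, ((hh w X (N (j + 1)) - hh w X (N j)) +
          (Real.log ((N (j + 1)).relIndex (M j)) - hh w X (N (j + 1)) + hh w X (M j))) := by
      refine Finset.sum_le_sum fun j _ => ?_
      have := hh_anti hw X (hM j).2.1
      linarith
    rw [Finset.sum_add_distrib, ← htel] at h3
    linarith [h2 n]
  · intro n
    have h3 : ∑ j ∈ Finset.range n, (hh w X (N (j + 1)) - hh w X (N j)) ≤
        ∑ j ∈ Finset.range n, (Real.log ((N (j + 1)).relIndex (M j)) +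
          (hh w X (M j) - hh w X (N j))) := by
      refine Finset.sum_le_sum fun j _ => ?_
      have := hh_le_add_log hw X (hM j).1 (hM j).2.2
      linarith
    rw [Finset.sum_add_distrib, ← htel] at h3
    linarith [h1 n]

/-- consecutive layers -/
theorem cross_sums (hw : Law w) (X : Ω → G) (m : ℕ) (N M : ℕ → AddSubgroup G)
    (hN : ∀ j, N (j + 1) ≤ N j) (hmN : ∀ j, ∀ x ∈ N j, m • x ∈ N (j + 1))
    (hM : ∀ s, N (s + 1) ≤ M s ∧ M s ≤ N s ∧ (N (s + 1)).relIndex (M s) ≠ 0) {B : ℝ}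
    (h1 : ∀ n, ∑ j ∈ Finset.range n, (hh w X (M j) - hh w X (N j)) ≤ B)
    (h2 : ∀ n, ∑ j ∈ Finset.range n, (Real.log ((N (j + 1)).relIndex (M j)) -
        hh w X (N (j + 1)) + hh w X (M j)) ≤ B) :
    (∀ j, (M (j + 1)).relIndex ((M j).map (nsmulAddMonoidHom (α := G) m)) ≠ 0) ∧
      (∀ n, ∑ j ∈ Finset.range n,
        Real.log ((M (j + 1)).relIndex ((M j).map (nsmulAddMonoidHom (α := G) m))) ≤
        2 * B + 5 * dg m * kap w X) := by
  have hcr := fun j => cross hw X m (hN j) (hN (j + 1)) (hmN j) (hmN (j + 1)) (hM j).1 (hM j).2.1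
    (hM (j + 1)).1 (hM (j + 1)).2.1 (hM j).2.2 (hM (j + 1)).2.2
  refine ⟨fun j => (hcr j).1, ?_⟩
  intro n
  have h3 : ∀ j, Real.log ((M (j + 1)).relIndex ((M j).map (nsmulAddMonoidHom (α := G) m))) ≤
      (Real.log ((N (j + 1)).relIndex (M j)) - hh w X (N (j + 1)) + hh w X (M j)) +
      (hh w X (M (j + 1)) - hh w X (N (j + 1))) +
      ((dd w X m (N (j + 1 + 1)) - hh w X (N (j + 1 + 1))) -
        (dd w X m (N (j + 1)) - hh w X (N (j + 1)))) := by
    intro j
    have := (hcr j).2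
    linarith
  refine le_trans (Finset.sum_le_sum fun j _ => h3 j) ?_
  rw [Finset.sum_add_distrib, Finset.sum_add_distrib,
    Finset.sum_range_sub (fun j => dd w X m (N (j + 1)) - hh w X (N (j + 1)))]
  have h4 : ∑ j ∈ Finset.range n, (hh w X (M (j + 1)) - hh w X (N (j + 1))) ≤ B := by
    have h5 := h1 (n + 1)
    rw [Finset.sum_range_succ'] at h5
    have h6 := hh_anti hw X (hM 0).2.1
    linarith
  have h8 := dd_le hw X m (N (n + 1))
  have h9 := le_dd hw X m (N 1)
  have hd := one_le_dg m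
  have h10 : 5 * (dg m : ℝ) * kk w X (N (n + 1)) ≤ 5 * (dg m : ℝ) * kap w X :=
    mul_le_mul_of_nonneg_left (kk_le hw X (N (n + 1))) (by positivity)
  have h11 : N (0 + 1) = N 1 := rfl
  rw [h11]
  linarith [h2 n]

end N149.Tow
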