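import Pool.Agent.N149.Tow.Dil
import Pool.Agent.TH404.Tor.Bound
set_option autoImplicit false

/-! The stage lemma for an arbitrary exponent `m`. -/

open scoped Classical
set_option linter.unusedSectionVars false
set_option linter.unusedVariables false

namespace N149.Tow

open H137.PFR H137.TwoPow H137.Weak

/-- the number of binary digits of `m` -/
def dg (m : ℕ) : ℕ := Nat.log 2 m + 1

theorem one_le_dg (m : ℕ) : (1 : ℝ) ≤ dg m := by
  unfold dg
  push_cast
  have : (0 : ℝ) ≤ Nat.log 2 m := Nat.cast_nonneg _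
  linarith

theorem le_two_pow_dg (m : ℕ) : m ≤ 2 ^ dg m := (Nat.lt_pow_succ_log_self (by norm_num) m).le

variable {Ω Ωc : Type*} [Fintype Ω] [Fintype Ωc] {G : Type*} [AddCommGroup G]

/-- entropic Marton theorem for a variable with values in a coset of a finite group of exponent
`m` -/
theorem pfr_coset_m {wc : Ωc → ℝ} (hwc : Law wc) (Z : Ωc → G) (W : AddSubgroup G) [Finite W]
    (m : ℕ) (hm : 0 < m) (hW : ∀ x ∈ W, m • x = 0) (hZ : ∀ ω ω', (Z ω : G ⧸ W) = Z ω') :
    ∃ W' ≤ W, 2 * Hg wc (fun ω => (Z ω : G ⧸ W')) + Real.log (Nat.card W') - Hg wc Z ≤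
      123012 * dg m * (Hg (prod wc wc) (fun p => Z p.1 - Z p.2) - Hg wc Z) := by
  have : Fintype W := Fintype.ofFinite W
  have : NeZero m := ⟨hm.ne'⟩
  let _ : Module (ZMod m) W := AddCommGroup.zmodModule (fun x => Subtype.ext (by
    change m • (x : G) = 0
    exact hW x x.2))
  obtain ⟨ω₀⟩ := law_nonempty hwc
  have hmem : ∀ ω, Z ω - Z ω₀ ∈ W := by
    intro ω
    have h1 := hZ ω₀ ω
    rw [QuotientAddGroup.eq] at h1
    have h2 : Z ω - Z ω₀ = -Z ω₀ + Z ω := by abel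
    rw [h2]
    exact h1
  set T : Ωc → W := fun ω => ⟨Z ω - Z ω₀, hmem ω⟩ with hT
  have hτ : Law (push wc T) := law_push hwc T
  obtain ⟨G', hG1, hG2⟩ := Pool.Agent.TH404.Tor.entropic_marton (m := m) (dg m)
    (Nat.le_add_left 1 _) (le_two_pow_dg m) hτ
  have hTZ : ∀ ω ω', T ω = T ω' ↔ Z ω = Z ω' := by
    intro ω ω'
    rw [Subtype.ext_iff]
    change Z ω - Z ω₀ = Z ω' - Z ω₀ ↔ _
    exact sub_left_inj
  have e1 : ent (push wc T) = Hg wc Z := by
    rw [← Hg_congr hTZ, Hg_eq_H]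
    rfl
  have e0 : Hg wc T = Hg wc Z := Hg_congr hTZ
  have ek : kap wc T = Hg (prod wc wc) (fun p => Z p.1 - Z p.2) - Hg wc Z := by
    unfold kap
    rw [e0]
    congr 1
    refine Hg_congr fun p q => ?_
    have h2 : ∀ p : Ωc × Ωc, ((T p.1 - T p.2 : W) : G) = Z p.1 - Z p.2 := by
      intro p
      change (Z p.1 - Z ω₀) - (Z p.2 - Z ω₀) = _
      abel
    rw [Subtype.ext_iff, h2, h2]
  have e2 : ent (conv (push wc T) (push wc T)) ≤ Hg wc Z +
      2 * (Hg (prod wc wc) (fun p => Z p.1 - Z p.2) - Hg wc Z) := by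
    unfold conv
    rw [prod_push, push_push]
    have h1 : ent (push (prod wc wc) (fun p : Ωc × Ωc => T p.1 + T p.2)) =
        Hg (prod wc wc) (fun p : Ωc × Ωc => T p.1 + T p.2) := by
      rw [Hg_eq_H]
      rfl
    rw [h1, ← ek, ← e0]
    exact Hg_sum_le hwc T
  refine ⟨G'.map W.subtype, ?_, ?_⟩
  · intro x hx
    obtain ⟨t, _, rfl⟩ := AddSubgroup.mem_map.1 hx
    exact t.2
  · have hcard : Nat.card (G'.map W.subtype) = Nat.card G' :=
      AddSubgroup.card_map_of_injective W.subtype_injective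
    have e3 : entMod (push wc T) G' = Hg wc (fun ω => (Z ω : G ⧸ G'.map W.subtype)) := by
      unfold entMod
      rw [H_push, ← Hg_eq_H]
      refine Hg_congr fun ω ω' => ?_
      rw [QuotientAddGroup.eq, QuotientAddGroup.eq]
      have h1 : -Z ω + Z ω' = ((-T ω + T ω' : W) : G) := by
        push_cast
        change _ = -(Z ω - Z ω₀) + (Z ω' - Z ω₀)
        abel
      rw [h1]
      constructor
      · intro h
        exact AddSubgroup.mem_map.2 ⟨_, h, rfl⟩
      · intro h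
        obtain ⟨u, hu, hu2⟩ := AddSubgroup.mem_map.1 h
        have : u = -T ω + T ω' := Subtype.ext hu2
        rw [← this]
        exact hu
    rw [hcard]
    rw [e1, e3] at hG1
    rw [e1] at hG2
    have hd := one_le_dg m
    have h5 : 20502 * (dg m : ℝ) * (ent (conv (push wc T) (push wc T)) - Hg wc Z) ≤
        20502 * (dg m : ℝ) * (2 * (Hg (prod wc wc) (fun p => Z p.1 - Z p.2) - Hg wc Z)) :=
      mul_le_mul_of_nonneg_left (by linarith) (by positivity)
    nlinarith [h5, hG1, hG2]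

/-- **Stage lemma** for exponent `m`. -/
theorem stage_m {w : Ω → ℝ} (hw : Law w) (X : Ω → G) (W : AddSubgroup G) [Finite W]
    (m : ℕ) (hm : 0 < m) (hW : ∀ x ∈ W, m • x = 0) :
    ∃ W' ≤ W, 2 * Hg w (fun ω => (X ω : G ⧸ W')) + Real.log (Nat.card W') ≤
      Hg w X + Hg w (fun ω => (X ω : G ⧸ W)) +
        246026 * dg m * (kap w X - kap w (fun ω => (X ω : G ⧸ W))) := by
  obtain ⟨C, hC⟩ := exists_code hw (fun ω => (X ω : G ⧸ W))
  obtain ⟨c, hc, hsel⟩ := select hw X C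
  have hwc := law_cw hw C hc
  have hZ : ∀ ω ω' : {ω : Ω // C ω = c}, ((fun ω : {ω : Ω // C ω = c} => X ω.1) ω : G ⧸ W) =
      ((fun ω : {ω : Ω // C ω = c} => X ω.1) ω' : G) := by
    intro ω ω'
    exact (hC _ _).2 (ω.2.trans ω'.2.symm)
  obtain ⟨W', hW', hpfr⟩ := pfr_coset_m hwc (fun ω : {ω : Ω // C ω = c} => X ω.1) W m hm hW hZ
  have hdbl := fibre_dbl hw hwc X (fun ω : {ω : Ω // C ω = c} => X ω.1) W hZ
  have htri := tri hw hwc X (fun ω : {ω : Ω // C ω = c} => X ω.1) W'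
  have hfib := fibring hw X (QuotientAddGroup.mk' W)
  have g1 : Hg w C = Hg w (fun ω => (X ω : G ⧸ W)) := (Hg_congr hC).symm
  have g2 : Hg (prod w w) (fun p => (X p.1 - X p.2, C p.2)) =
      Hg (prod w w) (fun p => (X p.1 - X p.2, (X p.2 : G ⧸ W))) :=
    Hg_congr fun p q => by simp only [Prod.mk.injEq, hC]
  have g3 : Hg w (fun ω => (X ω, C ω)) = Hg w X :=
    Hg_congr fun ω ω' => by
      simp only [Prod.mk.injEq, ← hC]
      constructor
      · intro h
        exact h.1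
      · intro h
        exact ⟨h, by rw [h]⟩
  rw [g1, g2, g3] at hsel
  have g4 : Hg (prod w w) (fun p => (X p.1 - X p.2, (X p.2 : G ⧸ W))) ≤
      Hg w X + Hg w (fun ω => (X ω : G ⧸ W)) + (kap w X - kap w (fun ω => (X ω : G ⧸ W))) := hfib
  refine ⟨W', hW', ?_⟩
  have hd := one_le_dg m
  set κc := Hg (prod (cw w C c) (cw w C c)) (fun p => (fun ω : {ω : Ω // C ω = c} => X ω.1) p.1 -
    (fun ω : {ω : Ω // C ω = c} => X ω.1) p.2) - Hg (cw w C c) (fun ω => X ω.1) with hκc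
  set κ := kap w X - kap w (fun ω => (X ω : G ⧸ W)) with hκ
  -- doubling of the fibre
  have h1 : κc ≤ 2 * κ := by
    rw [hκc]
    linarith
  have hkc : 0 ≤ κc := kap_nonneg hwc (fun ω : {ω : Ω // C ω = c} => X ω.1)
  have h2 : 123012 * (dg m : ℝ) * κc ≤ 123012 * (dg m : ℝ) * (2 * κ) :=
    mul_le_mul_of_nonneg_left h1 (by positivity)
  have hk0 : 0 ≤ κ := by linarith
  have h3 : κ ≤ (dg m : ℝ) * κ := le_mul_of_one_le_left hk0 hd
  nlinarith [h2, h3, hpfr, htri, hsel, g4]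

/-- the stage lemma for a pair `N ≤ M` with `m M ≤ N` -/
theorem stage_pair_m {w : Ω → ℝ} {N M : AddSubgroup G} (hw : Law w) (X : Ω → G) (h : N ≤ M)
    (hfin : N.relIndex M ≠ 0) (m : ℕ) (hm : 0 < m) (h2 : ∀ x ∈ M, m • x ∈ N) :
    ∃ N' : AddSubgroup G, N ≤ N' ∧ N' ≤ M ∧
      2 * hh w X N' + Real.log (N.relIndex N') ≤
        hh w X N + hh w X M + 246026 * dg m * (kk w X N - kk w X M) := by
  have hc := card_map_mk N M
  have : Finite (M.map (QuotientAddGroup.mk' N)) :=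
    Nat.finite_of_card_ne_zero (by rw [hc]; exact hfin)
  have hW : ∀ x ∈ M.map (QuotientAddGroup.mk' N), m • x = 0 := by
    intro x hx
    obtain ⟨y, hy, rfl⟩ := AddSubgroup.mem_map.1 hx
    rw [← map_nsmul]
    exact (QuotientAddGroup.eq_zero_iff (N := N) (m • y)).2 (h2 y hy)
  obtain ⟨W', hW', hst⟩ := stage_m hw (fun ω => (X ω : G ⧸ N)) (M.map (QuotientAddGroup.mk' N))
    m hm hW
  rw [Hg_mk_mk, Hg_mk_mk, kap_mk_mk, comap_map_mk h] at hst
  refine ⟨W'.comap (QuotientAddGroup.mk' N), ?_, ?_, ?_⟩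
  · intro x hx
    rw [AddSubgroup.mem_comap]
    have h1 : QuotientAddGroup.mk' N x = 0 := (QuotientAddGroup.eq_zero_iff (N := N) x).2 hx
    rw [h1]
    exact W'.zero_mem
  · have h1 := AddSubgroup.comap_mono (f := QuotientAddGroup.mk' N) hW'
    rw [comap_map_mk h] at h1
    exact h1
  · have h1 : N.relIndex (W'.comap (QuotientAddGroup.mk' N)) = Nat.card W' := by
      rw [← card_map_mk, AddSubgroup.map_comap_eq_self_of_surjective
        (QuotientAddGroup.mk'_surjective N)]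
    rw [h1]
    exact hst

end N149.Tow
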