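import Pool.Agent.N149.Tow.Sel
import Pool.Agent.H137R2.PFR.Final
set_option autoImplicit false

/-! The 99 percent inverse theorem for the entropy of a sum, part 1: the group of almost periods. -/

open scoped Classical
set_option linter.unusedSectionVars false
set_option linter.unusedVariables false

namespace N149.NN

open H137.PFR

variable {V : Type*} [AddCommGroup V] [Fintype V]

/-- Hellinger distance between the translate of `μ` by `y` and `μ * μ` -/
noncomputable def F (μ : V → ℝ) (y : V) : ℝ :=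
  ∑ x, (Real.sqrt (μ (x - y)) - Real.sqrt (conv μ μ x)) ^ 2

/-- Hellinger distance between `μ` and its translate -/
noncomputable def E (μ : V → ℝ) (g : V) : ℝ :=
  ∑ x, (Real.sqrt (μ (x + g)) - Real.sqrt (μ x)) ^ 2

theorem hell_pt {p q : ℝ} (hp : 0 ≤ p) (hq : 0 ≤ q) (hpq : p ≠ 0 → q ≠ 0) :
    (Real.sqrt p - Real.sqrt q) ^ 2 ≤ (q - p) + p * (Real.log p - Real.log q) := by
  by_cases h0 : p = 0
  · rw [h0, Real.sqrt_zero, zero_sub, neg_sq, Real.sq_sqrt hq]
    simp
  · have hp' : 0 < p := lt_of_le_of_ne hp (Ne.symm h0)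
    have hq' : 0 < q := lt_of_le_of_ne hq (Ne.symm (hpq h0))
    have h1 := Real.log_le_sub_one_of_pos (x := Real.sqrt (q / p)) (by positivity)
    rw [Real.log_sqrt (by positivity), Real.log_div hq'.ne' hp'.ne'] at h1
    have h2 : p * Real.sqrt (q / p) = Real.sqrt p * Real.sqrt q := by
      rw [Real.sqrt_div hq]
      have h3 : Real.sqrt p * Real.sqrt p = p := Real.mul_self_sqrt hp
      have h4 : Real.sqrt p ≠ 0 := (Real.sqrt_pos.2 hp').ne'
      field_simp
      nlinarith [h3]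
    have h5 : p * ((Real.log q - Real.log p) / 2) ≤ p * (Real.sqrt (q / p) - 1) :=
      mul_le_mul_of_nonneg_left h1 hp
    have h6 : (Real.sqrt p - Real.sqrt q) ^ 2 = p + q - 2 * (Real.sqrt p * Real.sqrt q) := by
      rw [sub_sq, Real.sq_sqrt hp, Real.sq_sqrt hq]
      ring
    rw [h6, ← h2]
    nlinarith [h5]

theorem law_le_one {μ : V → ℝ} (hμ : Law μ) (x : V) : μ x ≤ 1 := by
  rw [← hμ.2]
  exact Finset.single_le_sum (fun i _ => hμ.1 i) (Finset.mem_univ x)

theorem law_conv' {μ ν : V → ℝ} (hμ : Law μ) (hν : Law ν) : Law (conv μ ν) :=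
  law_push (law_prod hμ hν) _

theorem sum_F_le {μ : V → ℝ} (hμ : Law μ) :
    ∑ y, μ y * F μ y ≤ ent (conv μ μ) - ent μ := by
  have hc := law_conv' hμ hμ
  have h1 : ∀ y, μ y * F μ y ≤
      μ y * ∑ x, ((conv μ μ x - μ (x - y)) + μ (x - y) * (Real.log (μ (x - y)) -
        Real.log (conv μ μ x))) := by
    intro y
    by_cases hy : μ y = 0
    · rw [hy, zero_mul, zero_mul]
    · refine mul_le_mul_of_nonneg_left (Finset.sum_le_sum fun x _ => ?_) (hμ.1 y)
      refine hell_pt (hμ.1 _) (hc.1 _) ?_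
      intro h2 h3
      have h4 : μ y * μ (x - y) ≤ conv μ μ x := by
        rw [Hundred.conv_apply]
        exact Finset.single_le_sum (f := fun y => μ y * μ (x - y))
          (fun i _ => mul_nonneg (hμ.1 _) (hμ.1 _)) (Finset.mem_univ y)
      have h5 : 0 < μ y * μ (x - y) :=
        mul_pos (lt_of_le_of_ne (hμ.1 y) (Ne.symm hy)) (lt_of_le_of_ne (hμ.1 _) (Ne.symm h2))
      linarith
  refine (Finset.sum_le_sum fun y _ => h1 y).trans (le_of_eq ?_)
  have h2 : ∀ y, ∑ x, ((conv μ μ x - μ (x - y)) + μ (x - y) * (Real.log (μ (x - y)) -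
        Real.log (conv μ μ x))) =
      -∑ x, Real.negMulLog (μ (x - y)) - ∑ x, μ (x - y) * Real.log (conv μ μ x) := by
    intro y
    have e1 : ∑ x, μ (x - y) = 1 := by
      rw [← hμ.2]
      exact Fintype.sum_equiv (Equiv.subRight y) _ _ (fun v => rfl)
    have e2 := hc.2
    have e3 : ∀ x, ((conv μ μ x - μ (x - y)) + μ (x - y) * (Real.log (μ (x - y)) -
        Real.log (conv μ μ x))) = (conv μ μ x - μ (x - y)) + (-Real.negMulLog (μ (x - y)) -
          μ (x - y) * Real.log (conv μ μ x)) := by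
      intro x
      unfold Real.negMulLog
      ring
    rw [Finset.sum_congr rfl fun x _ => e3 x, Finset.sum_add_distrib, Finset.sum_sub_distrib,
      Finset.sum_sub_distrib, e1, e2, Finset.sum_neg_distrib]
    ring
  simp only [h2, Hundred.ent_shift]
  have h3 : ∑ y, μ y * ∑ x, μ (x - y) * Real.log (conv μ μ x) = -ent (conv μ μ) := by
    have h4 : ∀ y, μ y * ∑ x, μ (x - y) * Real.log (conv μ μ x) =
        ∑ x, μ y * μ (x - y) * Real.log (conv μ μ x) := by
      intro y
      rw [Finset.mul_sum]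
      exact Finset.sum_congr rfl fun x _ => by ring
    rw [Finset.sum_congr rfl fun y _ => h4 y, Finset.sum_comm]
    unfold ent
    rw [← Finset.sum_neg_distrib]
    refine Finset.sum_congr rfl fun x _ => ?_
    rw [← Finset.sum_mul, ← Hundred.conv_apply]
    unfold Real.negMulLog
    ring
  have h5 : ∑ y, μ y * (-ent μ - ∑ x, μ (x - y) * Real.log (conv μ μ x)) =
      -(∑ y, μ y) * ent μ - ∑ y, μ y * ∑ x, μ (x - y) * Real.log (conv μ μ x) := by
    rw [← Finset.sum_neg_distrib, Finset.sum_mul, ← Finset.sum_sub_distrib]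
    exact Finset.sum_congr rfl fun y _ => by ring
  rw [h5, h3, hμ.2]
  ring

theorem F_nonneg (μ : V → ℝ) (y : V) : 0 ≤ F μ y := Finset.sum_nonneg fun _ _ => sq_nonneg _

theorem E_nonneg (μ : V → ℝ) (y : V) : 0 ≤ E μ y := Finset.sum_nonneg fun _ _ => sq_nonneg _

theorem sq_tri (a b c : ℝ) : (a - b) ^ 2 ≤ 2 * (a - c) ^ 2 + 2 * (b - c) ^ 2 := by
  nlinarith [sq_nonneg (a + b - 2 * c)]

theorem E_sub_le (μ : V → ℝ) (y y' : V) : E μ (y - y') ≤ 2 * F μ y + 2 * F μ y' := by
  have h1 : E μ (y - y') = ∑ x, (Real.sqrt (μ (x - y')) - Real.sqrt (μ (x - y))) ^ 2 := by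
    unfold E
    refine (Fintype.sum_equiv (Equiv.subRight y) _ _ (fun x => ?_)).symm
    change _ = (Real.sqrt (μ (x - y + (y - y'))) - Real.sqrt (μ (x - y))) ^ 2
    rw [sub_add_sub_cancel]
  rw [h1]
  unfold F
  rw [Finset.mul_sum, Finset.mul_sum, ← Finset.sum_add_distrib]
  refine Finset.sum_le_sum fun x _ => ?_
  have := sq_tri (Real.sqrt (μ (x - y'))) (Real.sqrt (μ (x - y))) (Real.sqrt (conv μ μ x))
  linarith

theorem E_add_le (μ : V → ℝ) (g h : V) : E μ (g + h) ≤ 2 * E μ g + 2 * E μ h := by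
  have h1 : E μ g = ∑ x, (Real.sqrt (μ (x + (g + h))) - Real.sqrt (μ (x + h))) ^ 2 := by
    unfold E
    refine (Fintype.sum_equiv (Equiv.addRight h) _ _ (fun x => ?_)).symm
    change _ = (Real.sqrt (μ (x + h + g)) - Real.sqrt (μ (x + h))) ^ 2
    have e : x + (g + h) = x + h + g := by abel
    rw [e]
  rw [h1]
  unfold E
  rw [Finset.mul_sum, Finset.mul_sum, ← Finset.sum_add_distrib]
  refine Finset.sum_le_sum fun x _ => ?_
  have := sq_tri (Real.sqrt (μ (x + (g + h)))) (Real.sqrt (μ x)) (Real.sqrt (μ (x + h)))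
  nlinarith [this]

theorem E_neg (μ : V → ℝ) (g : V) : E μ (-g) = E μ g := by
  unfold E
  refine Fintype.sum_equiv (Equiv.addRight (-g)) _ _ (fun x => ?_)
  change _ = (Real.sqrt (μ (x + -g + g)) - Real.sqrt (μ (x + -g))) ^ 2
  rw [neg_add_cancel_right, ← neg_sub, neg_sq]

theorem E_zero (μ : V → ℝ) : E μ 0 = 0 := by
  unfold E
  refine Finset.sum_eq_zero fun x _ => ?_
  rw [add_zero, sub_self]
  norm_num

theorem sqrt_mul_eq {μ : V → ℝ} (hμ : Law μ) (g : V) :
    ∑ x, Real.sqrt (μ x) * Real.sqrt (μ (x + g)) = 1 - E μ g / 2 := by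
  have h1 : E μ g = ∑ x, (μ (x + g) + μ x - 2 * (Real.sqrt (μ x) * Real.sqrt (μ (x + g)))) := by
    unfold E
    refine Finset.sum_congr rfl fun x _ => ?_
    rw [sub_sq, Real.sq_sqrt (hμ.1 _), Real.sq_sqrt (hμ.1 _)]
    ring
  have h2 : ∑ x, μ (x + g) = 1 := by
    rw [← hμ.2]
    exact Fintype.sum_equiv (Equiv.addRight g) _ _ (fun v => rfl)
  rw [Finset.sum_sub_distrib, Finset.sum_add_distrib, h2, hμ.2, ← Finset.mul_sum] at h1
  linarith

/-- the exceptional set -/
noncomputable def bad (μ : V → ℝ) : Finset V := Finset.univ.filter (fun y => 1 / 100 < F μ y)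

theorem bad_mass {μ : V → ℝ} (hμ : Law μ) {κ : ℝ} (hκ : ent (conv μ μ) - ent μ ≤ κ) :
    ∑ y ∈ bad μ, μ y ≤ 100 * κ := by
  have h1 := sum_F_le hμ
  have h2 : ∑ y ∈ bad μ, μ y * (1 / 100) ≤ ∑ y ∈ bad μ, μ y * F μ y := by
    refine Finset.sum_le_sum fun y hy => ?_
    exact mul_le_mul_of_nonneg_left (Finset.mem_filter.1 hy).2.le (hμ.1 y)
  have h3 : ∑ y ∈ bad μ, μ y * F μ y ≤ ∑ y, μ y * F μ y :=
    Finset.sum_le_sum_of_subset_of_nonneg (Finset.subset_univ _)
      (fun y _ _ => mul_nonneg (hμ.1 y) (F_nonneg μ y))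
  rw [← Finset.sum_mul] at h2
  linarith

theorem not_bad {μ : V → ℝ} {y : V} : y ∉ bad μ ↔ F μ y ≤ 1 / 100 := by
  unfold bad
  simp

theorem E_of_good {μ : V → ℝ} {y y' : V} (hy : y ∉ bad μ) (hy' : y' ∉ bad μ) :
    E μ (y - y') ≤ 1 / 25 := by
  have h1 := E_sub_le μ y y'
  rw [not_bad] at hy hy'
  linarith

/-- the gap -/
theorem gap {μ : V → ℝ} (hμ : Law μ) (hbad : ∑ y ∈ bad μ, μ y ≤ 1 / 1000) {g : V}
    (hg : E μ g ≤ 4 / 25) : E μ g ≤ 1 / 25 := by
  by_cases hex : ∃ x, x ∉ bad μ ∧ x + g ∉ bad μ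
  · obtain ⟨x, hx1, hx2⟩ := hex
    have h1 := E_of_good hx2 hx1
    rw [add_sub_cancel_left] at h1
    exact h1
  · exfalso
    push Not at hex
    have h1 := sqrt_mul_eq hμ g
    have h2 : ∀ x, Real.sqrt (μ x) * Real.sqrt (μ (x + g)) ≤
        (if x ∈ bad μ then 5 * μ x + μ (x + g) / 20 else 0) +
        (if x + g ∈ bad μ then 5 * μ (x + g) + μ x / 20 else 0) := by
      intro x
      have ha : 0 ≤ μ x := hμ.1 x
      have hb : 0 ≤ μ (x + g) := hμ.1 _
      have e1 := Real.sq_sqrt ha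
      have e2 := Real.sq_sqrt hb
      have e3 : Real.sqrt (μ x) * Real.sqrt (μ (x + g)) ≤ 5 * μ x + μ (x + g) / 20 := by
        nlinarith [sq_nonneg (10 * Real.sqrt (μ x) - Real.sqrt (μ (x + g)))]
      have e4 : Real.sqrt (μ x) * Real.sqrt (μ (x + g)) ≤ 5 * μ (x + g) + μ x / 20 := by
        nlinarith [sq_nonneg (10 * Real.sqrt (μ (x + g)) - Real.sqrt (μ x))]
      have e5 : 0 ≤ (if x + g ∈ bad μ then 5 * μ (x + g) + μ x / 20 else 0) := by
        split_ifs
        · positivity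
        · exact le_refl _
      by_cases hx : x ∈ bad μ
      · rw [if_pos hx]
        linarith
      · rw [if_neg hx, if_pos (hex x hx)]
        linarith
    have h3 := Finset.sum_le_sum (fun x (_ : x ∈ (Finset.univ : Finset V)) => h2 x)
    rw [h1, Finset.sum_add_distrib] at h3
    have hsum : ∑ x, μ (x + g) = 1 := by
      rw [← hμ.2]
      exact Fintype.sum_equiv (Equiv.addRight g) _ _ (fun v => rfl)
    have h4 : ∑ x, (if x ∈ bad μ then 5 * μ x + μ (x + g) / 20 else 0) ≤
        5 * (1 / 1000) + 1 / 20 := by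
      have e1 : ∀ x, (if x ∈ bad μ then 5 * μ x + μ (x + g) / 20 else 0) ≤
          5 * (if x ∈ bad μ then μ x else 0) + μ (x + g) / 20 := by
        intro x
        have := hμ.1 (x + g)
        split_ifs
        · exact le_refl _
        · positivity
      refine (Finset.sum_le_sum fun x _ => e1 x).trans ?_
      rw [Finset.sum_add_distrib, ← Finset.mul_sum, ← Finset.sum_div, hsum,
        Finset.sum_ite_mem, Finset.univ_inter]
      linarith
    have h5 : ∑ x, (if x + g ∈ bad μ then 5 * μ (x + g) + μ x / 20 else 0) ≤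
        5 * (1 / 1000) + 1 / 20 := by
      have e1 : ∀ x, (if x + g ∈ bad μ then 5 * μ (x + g) + μ x / 20 else 0) ≤
          5 * (if x + g ∈ bad μ then μ (x + g) else 0) + μ x / 20 := by
        intro x
        have := hμ.1 x
        split_ifs
        · exact le_refl _
        · positivity
      refine (Finset.sum_le_sum fun x _ => e1 x).trans ?_
      have e2 : ∑ x, (if x + g ∈ bad μ then μ (x + g) else 0) =
          ∑ x, (if x ∈ bad μ then μ x else 0) :=
        Fintype.sum_equiv (Equiv.addRight g) _ _ (fun v => rfl)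
      rw [Finset.sum_add_distrib, ← Finset.mul_sum, ← Finset.sum_div, hμ.2, e2,
        Finset.sum_ite_mem, Finset.univ_inter]
      linarith
    linarith

/-- the group of almost periods -/
noncomputable def per (μ : V → ℝ) (hμ : Law μ) (hbad : ∑ y ∈ bad μ, μ y ≤ 1 / 1000) :
    AddSubgroup V where
  carrier := {g | E μ g ≤ 1 / 25}
  zero_mem' := by
    change E μ 0 ≤ 1 / 25
    rw [E_zero]
    norm_num
  add_mem' := by
    intro a b ha hb
    change E μ a ≤ 1 / 25 at ha
    change E μ b ≤ 1 / 25 at hb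
    exact gap hμ hbad ((E_add_le μ a b).trans (by linarith))
  neg_mem' := by
    intro a ha
    change E μ a ≤ 1 / 25 at ha
    change E μ (-a) ≤ 1 / 25
    rw [E_neg]
    exact ha

theorem mem_per {μ : V → ℝ} {hμ : Law μ} {hbad : ∑ y ∈ bad μ, μ y ≤ 1 / 1000} {g : V} :
    g ∈ per μ hμ hbad ↔ E μ g ≤ 1 / 25 := Iff.rfl

theorem exists_good {μ : V → ℝ} (hμ : Law μ) (hbad : ∑ y ∈ bad μ, μ y ≤ 1 / 1000) :
    ∃ z, z ∉ bad μ := by
  by_contra hcon
  push Not at hcon
  have h1 : ∑ y ∈ bad μ, μ y = 1 := by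
    rw [← hμ.2]
    exact Finset.sum_subset (Finset.subset_univ _) (fun x _ hx => absurd (hcon x) hx)
  linarith

end N149.NN
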