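import Pool.Agent.N149.Tow.NN1
set_option autoImplicit false

/-! The 99 percent inverse theorem, part 2: minorisation of `μ * μ` on a coset. -/

open scoped Classical
set_option linter.unusedSectionVars false
set_option linter.unusedVariables false

namespace N149.NN

open H137.PFR

variable {V : Type*} [AddCommGroup V] [Fintype V]

theorem sum_coset_le {f : V → ℝ} (hf : ∀ x, 0 ≤ f x) (H : AddSubgroup V) (z : V) :
    ∑ h : H, f (z + h) ≤ ∑ x, f x := by
  have hinj : Function.Injective (fun h : H => z + (h : V)) := by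
    intro a b hab
    exact Subtype.ext (add_left_cancel hab)
  have h1 : ∑ h : H, f (z + h) = ∑ x ∈ Finset.univ.image (fun h : H => z + (h : V)), f x := by
    rw [Finset.sum_image]
    intro a _ b _ hab
    exact hinj hab
  rw [h1]
  exact Finset.sum_le_sum_of_subset_of_nonneg (Finset.subset_univ _) (fun x _ _ => hf x)

theorem mass_coset {μ : V → ℝ} (hμ : Law μ) (hbad : ∑ y ∈ bad μ, μ y ≤ 1 / 1000) {z : V}
    (hz : z ∉ bad μ) : 1 - ∑ y ∈ bad μ, μ y ≤ ∑ h : per μ hμ hbad, μ (z + h) := by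
  have h1 : ∑ h : per μ hμ hbad, μ (z + h) =
      ∑ x ∈ Finset.univ.image (fun h : per μ hμ hbad => z + (h : V)), μ x := by
    rw [Finset.sum_image]
    intro a _ b _ hab
    exact Subtype.ext (add_left_cancel hab)
  rw [h1]
  have h2 : (1 : ℝ) = ∑ y ∈ bad μ, μ y + ∑ y ∈ (bad μ)ᶜ, μ y := by
    rw [Finset.sum_add_sum_compl, hμ.2]
  have h3 : ∑ y ∈ (bad μ)ᶜ, μ y ≤
      ∑ x ∈ Finset.univ.image (fun h : per μ hμ hbad => z + (h : V)), μ x := by
    refine Finset.sum_le_sum_of_subset_of_nonneg ?_ (fun x _ _ => hμ.1 x)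
    intro y hy
    rw [Finset.mem_compl] at hy
    refine Finset.mem_image.2 ⟨⟨y - z, ?_⟩, Finset.mem_univ _, ?_⟩
    · rw [mem_per]
      exact E_of_good hy hz
    · exact add_sub_cancel z y
  linarith

theorem minor {μ : V → ℝ} (hμ : Law μ) (hbad : ∑ y ∈ bad μ, μ y ≤ 1 / 1000) {z : V}
    (hz : z ∉ bad μ) {h : V} (hh : h ∈ per μ hμ hbad) :
    1 / 25 * (Nat.card (per μ hμ hbad) : ℝ)⁻¹ ≤ conv μ μ (z + z + h) := by
  set H := per μ hμ hbad with hH
  have hcard : (Nat.card H : ℝ) = Fintype.card H := by rw [Nat.card_eq_fintype_card]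
  rw [hcard]
  set n : ℝ := (Fintype.card H : ℝ) with hn
  have hn0 : 0 < n := by
    rw [hn]
    exact_mod_cast Fintype.card_pos
  set v : H → ℝ := fun h => Real.sqrt (μ (z + h)) with hv
  have hv0 : ∀ h, 0 ≤ v h := fun h => Real.sqrt_nonneg _
  have hv2 : ∀ h, v h ^ 2 = μ (z + h) := fun h => Real.sq_sqrt (hμ.1 _)
  set M := ∑ h : H, v h ^ 2 with hM
  have hM1 : 999 / 1000 ≤ M := by
    have h1 := mass_coset hμ hbad hz
    rw [hM, Finset.sum_congr rfl fun h _ => hv2 h]
    linarith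
  set S := ∑ h : H, v h with hS
  have hS0 : 0 ≤ S := Finset.sum_nonneg fun h _ => hv0 h
  -- the variance
  have h1 : ∀ k : H, ∑ h : H, (v (h + k) - v h) ^ 2 ≤ 1 / 25 := by
    intro k
    refine le_trans ?_ (mem_per.1 k.2)
    refine le_trans (le_of_eq ?_) (sum_coset_le
      (f := fun x => (Real.sqrt (μ (x + k)) - Real.sqrt (μ x)) ^ 2) (fun x => sq_nonneg _) H z)
    refine Finset.sum_congr rfl fun h _ => ?_
    rw [hv]
    simp only
    rw [AddSubgroup.coe_add, add_assoc]
  have h2 : ∑ k : H, ∑ h : H, (v (h + k) - v h) ^ 2 = 2 * (n * M) - 2 * S ^ 2 := by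
    have e1 : ∀ k : H, ∑ h : H, v (h + k) ^ 2 = M := fun k =>
      Fintype.sum_equiv (Equiv.addRight k) _ _ (fun h => rfl)
    have e2 : ∑ k : H, ∑ h : H, v (h + k) * v h = S ^ 2 := by
      rw [Finset.sum_comm]
      have e3 : ∀ h : H, ∑ k : H, v (h + k) * v h = S * v h := by
        intro h
        rw [← Finset.sum_mul]
        congr 1
        exact Fintype.sum_equiv (Equiv.addLeft h) _ _ (fun k => rfl)
      rw [Finset.sum_congr rfl fun h _ => e3 h, ← Finset.mul_sum, sq]
    have e4 : ∀ k : H, ∑ h : H, (v (h + k) - v h) ^ 2 =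
        2 * M - 2 * ∑ h : H, v (h + k) * v h := by
      intro k
      have e5 : ∀ h : H, (v (h + k) - v h) ^ 2 = v (h + k) ^ 2 + v h ^ 2 -
          2 * (v (h + k) * v h) := fun h => by ring
      rw [Finset.sum_congr rfl fun h _ => e5 h, Finset.sum_sub_distrib, Finset.sum_add_distrib,
        e1 k, ← Finset.mul_sum]
      ring
    rw [Finset.sum_congr rfl fun k _ => e4 k, Finset.sum_sub_distrib, ← Finset.mul_sum,
      ← Finset.mul_sum, e2, Finset.sum_const, Finset.card_univ, nsmul_eq_mul]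
  have h3 : 2 * (n * M) - 2 * S ^ 2 ≤ n * (1 / 25) := by
    rw [← h2]
    refine (Finset.sum_le_sum fun k _ => h1 k).trans ?_
    rw [Finset.sum_const, Finset.card_univ, nsmul_eq_mul]
  set a := S / n with ha
  have haS : n * a = S := by
    rw [ha]
    field_simp
  have ha0 : 0 ≤ a := div_nonneg hS0 hn0.le
  have h4 : ∑ h : H, (v h - a) ^ 2 = M - n * a ^ 2 := by
    have e5 : ∀ h : H, (v h - a) ^ 2 = v h ^ 2 - 2 * a * v h + a ^ 2 := fun h => by ring
    rw [Finset.sum_congr rfl fun h _ => e5 h, Finset.sum_add_distrib, Finset.sum_sub_distrib,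
      ← Finset.mul_sum, Finset.sum_const, Finset.card_univ, nsmul_eq_mul]
    rw [← hS, ← haS]
    ring
  have h5 : M - 1 / 50 ≤ n * a ^ 2 := by
    have e1 : n * (n * a ^ 2) = S ^ 2 := by rw [← haS]; ring
    have e2 : n * (M - 1 / 50) ≤ n * (n * a ^ 2) := by
      rw [e1]
      linarith
    exact le_of_mul_le_mul_left e2 hn0
  have h6 : ∑ h : H, (v h - a) ^ 2 ≤ 1 / 50 := by
    rw [h4]
    linarith
  -- small values
  set B : Finset H := Finset.univ.filter (fun h => v h < a / 2) with hB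
  have h7 : (B.card : ℝ) * (a ^ 2 / 4) ≤ 1 / 50 := by
    refine le_trans ?_ h6
    have e1 : (B.card : ℝ) * (a ^ 2 / 4) = ∑ h ∈ B, a ^ 2 / 4 := by
      rw [Finset.sum_const, nsmul_eq_mul]
    rw [e1]
    refine le_trans (Finset.sum_le_sum fun h hh => ?_)
      (Finset.sum_le_sum_of_subset_of_nonneg (Finset.subset_univ B) (fun h _ _ => sq_nonneg _))
    have e2 : v h < a / 2 := (Finset.mem_filter.1 hh).2
    nlinarith [hv0 h]
  have hna : 979 / 1000 ≤ n * a ^ 2 := by linarith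
  have h8 : (B.card : ℝ) ≤ n / 10 := by
    by_contra hcon
    push Not at hcon
    have e1 : n / 10 * (a ^ 2 / 4) ≤ (B.card : ℝ) * (a ^ 2 / 4) :=
      mul_le_mul_of_nonneg_right hcon.le (by positivity)
    linarith
  -- the convolution
  have h9 : ∑ k : H, μ (z + k) * μ (z + z + h - (z + k)) ≤ conv μ μ (z + z + h) := by
    rw [Hundred.conv_apply]
    exact sum_coset_le (f := fun y => μ y * μ (z + z + h - y))
      (fun y => mul_nonneg (hμ.1 _) (hμ.1 _)) H z
  refine le_trans ?_ h9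
  set hH' : H := ⟨h, hh⟩ with hHdef
  have h10 : ∀ k : H, μ (z + z + h - (z + k)) = v (hH' - k) ^ 2 := by
    intro k
    rw [hv2]
    congr 1
    rw [AddSubgroup.coe_sub]
    abel
  set B' : Finset H := Finset.univ.filter (fun k => hH' - k ∈ B) with hB'
  have h11 : B'.card = B.card := by
    refine Finset.card_bij (fun k _ => hH' - k) ?_ ?_ ?_
    · intro k hk
      exact (Finset.mem_filter.1 hk).2
    · intro k _ k' _ hkk
      exact sub_right_injective hkk
    · intro b hb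
      refine ⟨hH' - b, ?_, ?_⟩
      · rw [hB', Finset.mem_filter]
        refine ⟨Finset.mem_univ _, ?_⟩
        rw [sub_sub_cancel]
        exact hb
      · exact sub_sub_cancel _ _
  set C : Finset H := (B ∪ B')ᶜ with hC
  have h12 : n - 2 * (n / 10) ≤ (C.card : ℝ) := by
    have e1 : (C.card : ℝ) = n - (B ∪ B').card := by
      rw [hC, Finset.card_compl, Nat.cast_sub (Finset.card_le_univ _)]
    have e2 : ((B ∪ B').card : ℝ) ≤ B.card + B'.card := by
      exact_mod_cast Finset.card_union_le _ _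
    rw [h11] at e2
    rw [e1]
    linarith
  have h13 : (C.card : ℝ) * (a ^ 4 / 16) ≤ ∑ k : H, μ (z + k) * μ (z + z + h - (z + k)) := by
    have e1 : (C.card : ℝ) * (a ^ 4 / 16) = ∑ h ∈ C, a ^ 4 / 16 := by
      rw [Finset.sum_const, nsmul_eq_mul]
    rw [e1]
    refine le_trans (Finset.sum_le_sum fun k hk => ?_)
      (Finset.sum_le_sum_of_subset_of_nonneg (Finset.subset_univ C)
        (fun h _ _ => mul_nonneg (hμ.1 _) (hμ.1 _)))
    rw [hC, Finset.mem_compl, Finset.mem_union, not_or] at hk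
    have e2 : a / 2 ≤ v k := by
      by_contra hcon
      push Not at hcon
      exact hk.1 (Finset.mem_filter.2 ⟨Finset.mem_univ _, hcon⟩)
    have e3 : a / 2 ≤ v (hH' - k) := by
      by_contra hcon
      push Not at hcon
      exact hk.2 (Finset.mem_filter.2 ⟨Finset.mem_univ _,
        Finset.mem_filter.2 ⟨Finset.mem_univ _, hcon⟩⟩)
    rw [h10 k, ← hv2 k]
    have e4 : (a / 2) ^ 2 ≤ v k ^ 2 := pow_le_pow_left₀ (by positivity) e2 2
    have e5 : (a / 2) ^ 2 ≤ v (hH' - k) ^ 2 := pow_le_pow_left₀ (by positivity) e3 2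
    calc a ^ 4 / 16 = (a / 2) ^ 2 * (a / 2) ^ 2 := by ring
      _ ≤ v k ^ 2 * v (hH' - k) ^ 2 := mul_le_mul e4 e5 (by positivity) (by positivity)
  refine le_trans ?_ h13
  have h14 : (n - 2 * (n / 10)) * (a ^ 4 / 16) ≤ (C.card : ℝ) * (a ^ 4 / 16) :=
    mul_le_mul_of_nonneg_right h12 (by positivity)
  refine le_trans ?_ h14
  rw [mul_inv_le_iff₀ hn0]
  have h15 : (979 / 1000 : ℝ) ^ 2 ≤ (n * a ^ 2) ^ 2 := pow_le_pow_left₀ (by norm_num) hna 2
  have h16 : (n - 2 * (n / 10)) * (a ^ 4 / 16) * n = (1 / 20) * (n * a ^ 2) ^ 2 := by ring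
  rw [h16]
  nlinarith [h15]

end N149.NN
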