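import Pool.Agent.N149.Tow.NN2
set_option autoImplicit false

/-! The 99 percent inverse theorem, part 3: the entropy in the cosets as a concave functional. -/

open scoped Classical
set_option linter.unusedSectionVars false
set_option linter.unusedVariables false

namespace N149.NN

open H137.PFR

variable {V : Type*} [AddCommGroup V] [Fintype V]

/-- mass of the coset -/
noncomputable def fb (H : AddSubgroup V) (f : V → ℝ) (x : V) : ℝ := ∑ h : H, f (x + h)

/-- entropy in the cosets of `H` -/
noncomputable def Phi (H : AddSubgroup V) (f : V → ℝ) : ℝ :=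
  ∑ x, f x * (Real.log (fb H f x) - Real.log (f x))

theorem le_fb (H : AddSubgroup V) {f : V → ℝ} (hf : ∀ x, 0 ≤ f x) (x : V) : f x ≤ fb H f x := by
  unfold fb
  have h := Finset.single_le_sum (f := fun h : H => f (x + h)) (fun h _ => hf _)
    (Finset.mem_univ (0 : H))
  simpa using h

theorem log_sum_pt {a b a' b' : ℝ} (ha : 0 ≤ a) (hb : a ≤ b) (ha' : 0 ≤ a') (hb' : a' ≤ b') :
    a * (Real.log b - Real.log a) + a' * (Real.log b' - Real.log a') ≤
      (a + a') * (Real.log (b + b') - Real.log (a + a')) := by
  by_cases h0 : a = 0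
  · subst h0
    rw [zero_mul, zero_add, zero_add]
    by_cases h0' : a' = 0
    · rw [h0', zero_mul, zero_mul]
    · have hp : 0 < a' := lt_of_le_of_ne ha' (Ne.symm h0')
      refine mul_le_mul_of_nonneg_left ?_ ha'
      have := Real.log_le_log (by linarith : 0 < b') (by linarith : b' ≤ b + b')
      linarith
  · have hp : 0 < a := lt_of_le_of_ne ha (Ne.symm h0)
    by_cases h0' : a' = 0
    · subst h0'
      rw [zero_mul, add_zero, add_zero]
      refine mul_le_mul_of_nonneg_left ?_ ha
      have := Real.log_le_log (by linarith : 0 < b) (by linarith : b ≤ b + b')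
      linarith
    · have hp' : 0 < a' := lt_of_le_of_ne ha' (Ne.symm h0')
      have hbp : 0 < b := by linarith
      have hbp' : 0 < b' := by linarith
      have key : ∀ u v : ℝ, 0 < u → 0 < v →
          u * (Real.log v - Real.log u) - u * (Real.log (b + b') - Real.log (a + a')) ≤
            v * (a + a') / (b + b') - u := by
        intro u v hu hv
        have h1 := Real.log_le_sub_one_of_pos (x := v * (a + a') / ((b + b') * u)) (by positivity)
        rw [Real.log_div (by positivity) (by positivity), Real.log_mul (by positivity)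
          (by positivity), Real.log_mul (by positivity) (by positivity)] at h1
        have h2 := mul_le_mul_of_nonneg_left h1 hu.le
        have h3 : u * (v * (a + a') / ((b + b') * u) - 1) = v * (a + a') / (b + b') - u := by
          field_simp
        rw [h3] at h2
        linarith
      have k1 := key a b hp hbp
      have k2 := key a' b' hp' hbp'
      have k3 : b * (a + a') / (b + b') + b' * (a + a') / (b + b') = a + a' := by
        field_simp
      nlinarith [k1, k2, k3]

theorem phi_super (H : AddSubgroup V) {f g : V → ℝ} (hf : ∀ x, 0 ≤ f x) (hg : ∀ x, 0 ≤ g x) :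
    Phi H f + Phi H g ≤ Phi H (fun x => f x + g x) := by
  unfold Phi
  rw [← Finset.sum_add_distrib]
  refine Finset.sum_le_sum fun x _ => ?_
  have h1 : fb H (fun x => f x + g x) x = fb H f x + fb H g x := by
    unfold fb
    rw [← Finset.sum_add_distrib]
  rw [h1]
  exact log_sum_pt (hf x) (le_fb H hf x) (hg x) (le_fb H hg x)

theorem phi_smul (H : AddSubgroup V) {f : V → ℝ} (hf : ∀ x, 0 ≤ f x) {c : ℝ} (hc : 0 ≤ c) :
    Phi H (fun x => c * f x) = c * Phi H f := by
  unfold Phi
  rw [Finset.mul_sum]
  refine Finset.sum_congr rfl fun x _ => ?_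
  have h1 : fb H (fun x => c * f x) x = c * fb H f x := by
    unfold fb
    rw [Finset.mul_sum]
  rw [h1]
  by_cases hc0 : c = 0
  · rw [hc0]
    ring
  · by_cases hx : f x = 0
    · simp only [hx, mul_zero, zero_mul]
    · have hp : 0 < f x := lt_of_le_of_ne (hf x) (Ne.symm hx)
      have hp' : 0 < fb H f x := lt_of_lt_of_le hp (le_fb H hf x)
      rw [Real.log_mul hc0 hp'.ne', Real.log_mul hc0 hx]
      ring

theorem phi_shift (H : AddSubgroup V) (f : V → ℝ) (y : V) :
    Phi H (fun x => f (x - y)) = Phi H f := by
  unfold Phi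
  refine Fintype.sum_equiv (Equiv.subRight y) _ _ (fun x => ?_)
  have h1 : fb H (fun x => f (x - y)) x = fb H f (x - y) := by
    unfold fb
    refine Finset.sum_congr rfl fun h _ => ?_
    have e : x + (h : V) - y = x - y + h := by abel
    change f (x + (h : V) - y) = _
    rw [e]
  rw [h1]
  rfl

theorem phi_sum (H : AddSubgroup V) {f g : V → ℝ} (hf : ∀ x, 0 ≤ f x) (hg : ∀ x, 0 ≤ g x)
    (s : Finset V) :
    (∑ y ∈ s, g y) * Phi H f ≤ Phi H (fun x => ∑ y ∈ s, g y * f (x - y)) := by
  induction s using Finset.induction_on with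
  | empty =>
    simp [Phi]
  | insert a s ha ih =>
    rw [Finset.sum_insert ha, add_mul]
    have h1 : Phi H (fun x => g a * f (x - a)) = g a * Phi H f := by
      rw [phi_smul H (f := fun x => f (x - a)) (fun x => hf _) (hg a), phi_shift]
    have h2 := phi_super H (f := fun x => g a * f (x - a))
      (g := fun x => ∑ y ∈ s, g y * f (x - y)) (fun x => mul_nonneg (hg _) (hf _))
      (fun x => Finset.sum_nonneg fun y _ => mul_nonneg (hg _) (hf _))
    rw [h1] at h2
    have h3 : (fun x => ∑ y ∈ insert a s, g y * f (x - y)) =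
        fun x => g a * f (x - a) + ∑ y ∈ s, g y * f (x - y) := by
      funext x
      rw [Finset.sum_insert ha]
    rw [h3]
    linarith

theorem phi_inv (H : AddSubgroup V) {f : V → ℝ} (hf : ∀ x, 0 ≤ f x)
    (hinv : ∀ h ∈ H, ∀ x, f (x + h) = f x) :
    Phi H f = (∑ x, f x) * Real.log (Nat.card H) := by
  unfold Phi
  rw [Finset.sum_mul]
  refine Finset.sum_congr rfl fun x _ => ?_
  by_cases hx : f x = 0
  · rw [hx]
    ring
  · have h1 : fb H f x = (Nat.card H : ℝ) * f x := by
      unfold fb
      rw [Finset.sum_congr rfl fun (h : H) _ => hinv h h.2 x, Finset.sum_const,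
        Finset.card_univ, nsmul_eq_mul, Nat.card_eq_fintype_card]
    have h2 : (Nat.card H : ℝ) ≠ 0 := by
      have : 0 < Nat.card H := Nat.card_pos
      exact_mod_cast this.ne'
    rw [h1, Real.log_mul h2 hx]
    ring

/-- fibre of a function -/
noncomputable def fbr {α : Type*} (X : V → α) (c : α) : Finset V :=
  Finset.univ.filter (fun ω => X ω = c)

theorem mem_fbr {α : Type*} {X : V → α} {c : α} {ω : V} : ω ∈ fbr X c ↔ X ω = c := by
  unfold fbr
  simp

theorem push_filter {α : Type*} (w : V → ℝ) (X : V → α) (c : α) :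
    push w X c = ∑ ω ∈ fbr X c, w ω := by
  unfold push fbr
  rw [Finset.sum_filter]

theorem ent_sub_entMod (H : AddSubgroup V) (ν : V → ℝ) :
    ent ν - entMod ν H = Phi H ν := by
  have h1 : entMod ν H = ∑ x, ν x * (-Real.log (fb H ν x)) := by
    unfold entMod
    rw [← H137.Weak.Hg_eq_H]
    unfold H137.Weak.Hg
    refine Finset.sum_congr rfl fun x _ => ?_
    congr 3
    rw [push_filter]
    unfold fb
    symm
    refine Finset.sum_bij (fun (h : H) _ => x + (h : V)) ?_ ?_ ?_ ?_
    · intro h _
      rw [mem_fbr, eq_comm, QuotientAddGroup.eq, neg_add_cancel_left]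
      exact h.2
    · intro a _ b _ hab
      exact Subtype.ext (add_left_cancel hab)
    · intro y hy
      have h2 := mem_fbr.1 hy
      rw [eq_comm, QuotientAddGroup.eq] at h2
      exact ⟨⟨-x + y, h2⟩, Finset.mem_univ _, by simp⟩
    · intro h _
      rfl
  rw [h1]
  unfold ent Phi Real.negMulLog
  rw [← Finset.sum_sub_distrib]
  refine Finset.sum_congr rfl fun x _ => ?_
  ring

end N149.NN
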