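import Pool.Agent.N149.Tow.NN3
set_option autoImplicit false

/-! The 99 percent inverse theorem, part 4: almost constant variables. -/

open scoped Classical
set_option linter.unusedSectionVars false
set_option linter.unusedVariables false

namespace N149.NN

open H137.PFR

variable {Q : Type*} [AddCommGroup Q] [Fintype Q]

theorem log_big : (10 : ℝ) ≤ Real.log 100000 := by
  rw [Real.le_log_iff_exp_le (by norm_num)]
  have h1 : Real.exp 10 = Real.exp 1 ^ 10 := by
    rw [← Real.exp_nat_mul]
    norm_num
  rw [h1]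
  have h2 := Real.exp_one_lt_d9.le
  have h3 : Real.exp 1 ^ 10 ≤ (2.7182818286 : ℝ) ^ 10 :=
    pow_le_pow_left₀ (Real.exp_pos 1).le h2 10
  refine h3.trans ?_
  norm_num

theorem nml_lower {a r u p : ℝ} (hu : 0 ≤ u) (hp : 0 ≤ p) (hp1 : p ≤ 1) (ha : a = 2 * p * u)
    (hr : 0 ≤ r) (h1 : a + r ≤ 1) :
    2 * p * Real.negMulLog u - 2 * p * u * Real.log 2 - r ≤ Real.negMulLog (a + r) := by
  by_cases h0 : a = 0
  · have h2 : 2 * p * Real.negMulLog u = 0 := by
      unfold Real.negMulLog
      have : 2 * p * (-u * Real.log u) = -(2 * p * u) * Real.log u := by ring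
      rw [this, ← ha, h0]
      ring
    rw [h2, ← ha, h0, zero_mul, zero_add]
    have := Real.negMulLog_nonneg hr (by linarith)
    linarith
  · have ha0 : 0 ≤ a := by rw [ha]; positivity
    have hap : 0 < a := lt_of_le_of_ne ha0 (Ne.symm h0)
    have hup : 0 < u := by
      rcases hu.eq_or_lt with h | h
      · exfalso
        apply h0
        rw [ha, ← h, mul_zero]
      · exact h
    have hpp : 0 < p := by
      rcases hp.eq_or_lt with h | h
      · exfalso
        apply h0
        rw [ha, ← h, mul_zero, zero_mul]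
      · exact h
    have hs : 0 < a + r := by linarith
    have e1 : Real.log (a + r) ≤ 0 := Real.log_nonpos hs.le h1
    have e2 : Real.log ((a + r) / a) ≤ (a + r) / a - 1 := Real.log_le_sub_one_of_pos (by positivity)
    rw [Real.log_div hs.ne' hap.ne'] at e2
    have e3 : a * (Real.log (a + r) - Real.log a) ≤ r := by
      have h5 := mul_le_mul_of_nonneg_left e2 ha0
      have h6 : a * ((a + r) / a - 1) = r := by
        field_simp
        ring
      rw [h6] at h5
      exact h5
    have e4 : Real.log a ≤ Real.log 2 + Real.log u := by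
      rw [← Real.log_mul (by norm_num) hup.ne']
      refine Real.log_le_log hap ?_
      rw [ha]
      nlinarith
    have e5 : a * Real.log a ≤ a * (Real.log 2 + Real.log u) := mul_le_mul_of_nonneg_left e4 ha0
    have e6 : r * Real.log (a + r) ≤ 0 := mul_nonpos_of_nonneg_of_nonpos hr e1
    unfold Real.negMulLog
    have e7 : 2 * p * (-u * Real.log u) - 2 * p * u * Real.log 2 =
        -(a * (Real.log 2 + Real.log u)) := by
      rw [ha]
      ring
    rw [e7]
    nlinarith

theorem almost_const {q : Q → ℝ} (hq : Law q) (v : Q) (h : 1 - 1 / 100000 ≤ q v) :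
    ent q ≤ 2 * (ent (conv q q) - ent q) := by
  have hc : Law (conv q q) := law_conv' hq hq
  set p := q v with hp
  have hp1 : p ≤ 1 := law_le_one hq v
  have hp0 : 0 ≤ p := hq.1 v
  set S : Finset Q := Finset.univ.erase v with hS
  have hsplit : ∀ f : Q → ℝ, ∑ x, f x = f v + ∑ x ∈ S, f x := fun f =>
    (Finset.add_sum_erase Finset.univ f (Finset.mem_univ v)).symm
  have hη : ∑ x ∈ S, q x = 1 - p := by
    have := hsplit q
    rw [hq.2] at this
    linarith
  set H0 := ∑ x ∈ S, Real.negMulLog (q x) with hH0
  have hentq : ent q = Real.negMulLog p + H0 := hsplit (fun x => Real.negMulLog (q x))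
  have hpp : 0 < p := by linarith
  have ha : Real.negMulLog p ≤ 1 - p := by
    have h1 := Real.log_le_sub_one_of_pos (x := p⁻¹) (by positivity)
    rw [Real.log_inv] at h1
    have h2 := mul_le_mul_of_nonneg_left h1 hp0
    have h3 : p * (p⁻¹ - 1) = 1 - p := by
      field_simp
    rw [h3] at h2
    unfold Real.negMulLog
    linarith
  have hb : 10 * (1 - p) ≤ H0 := by
    rw [← hη, Finset.mul_sum]
    refine Finset.sum_le_sum fun x hx => ?_
    rcases (hq.1 x).eq_or_lt with h0 | h0
    · rw [← h0]
      simp
    · have h1 : q x ≤ 1 / 100000 := by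
        have := Finset.single_le_sum (f := q) (fun i _ => hq.1 i) hx
        rw [hη] at this
        linarith
      have h2 : Real.log (q x) ≤ -Real.log 100000 := by
        rw [← Real.log_inv]
        refine Real.log_le_log h0 ?_
        linarith
      have h3 := log_big
      unfold Real.negMulLog
      nlinarith
  -- lower bound for the convolution
  have hcv : ∀ x ∈ S, 2 * p * q x ≤ conv q q (v + x) := by
    intro x hx
    have hxv : x ≠ v := (Finset.mem_erase.1 hx).1
    rw [Hundred.conv_apply]
    have h1 : ∑ y ∈ ({v, x} : Finset Q), q y * q (v + x - y) ≤ ∑ y, q y * q (v + x - y) :=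
      Finset.sum_le_sum_of_subset_of_nonneg (Finset.subset_univ _)
        (fun y _ _ => mul_nonneg (hq.1 _) (hq.1 _))
    refine le_trans (le_of_eq ?_) h1
    rw [Finset.sum_pair hxv.symm]
    have e1 : v + x - v = x := by abel
    have e2 : v + x - x = v := by abel
    rw [e1, e2]
    ring
  have hd : ∀ x ∈ S, 2 * p * Real.negMulLog (q x) - 2 * p * q x * Real.log 2 -
      (conv q q (v + x) - 2 * p * q x) ≤ Real.negMulLog (conv q q (v + x)) := by
    intro x hx
    have h1 := nml_lower (a := 2 * p * q x) (r := conv q q (v + x) - 2 * p * q x) (u := q x)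
      (p := p) (hq.1 x) hp0 hp1 rfl (by linarith [hcv x hx]) (by
        rw [add_sub_cancel]
        exact law_le_one hc _)
    rw [add_sub_cancel] at h1
    exact h1
  have he := Finset.sum_le_sum hd
  rw [Finset.sum_sub_distrib, Finset.sum_sub_distrib, Finset.sum_sub_distrib, ← Finset.mul_sum,
    ← Finset.sum_mul, ← Finset.mul_sum, hη] at he
  have hshift : ∀ f : Q → ℝ, ∑ x, f (v + x) = ∑ x, f x := fun f =>
    Fintype.sum_equiv (Equiv.addLeft v) _ _ (fun x => rfl)
  have hsum : ∑ x ∈ S, conv q q (v + x) ≤ 1 - p ^ 2 := by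
    have h1 := hsplit (fun x => conv q q (v + x))
    rw [hshift (conv q q), hc.2] at h1
    have h2 : p ^ 2 ≤ conv q q (v + v) := by
      rw [Hundred.conv_apply]
      have h3 := Finset.single_le_sum (f := fun y => q y * q (v + v - y))
        (fun y _ => mul_nonneg (hq.1 _) (hq.1 _)) (Finset.mem_univ v)
      simp only [add_sub_cancel_right] at h3
      rw [sq]
      exact h3
    linarith
  have hent : ∑ x ∈ S, Real.negMulLog (conv q q (v + x)) ≤ ent (conv q q) := by
    have h1 := hsplit (fun x => Real.negMulLog (conv q q (v + x)))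
    rw [hshift (fun z => Real.negMulLog (conv q q z))] at h1
    have h2 : 0 ≤ Real.negMulLog (conv q q (v + v)) :=
      Real.negMulLog_nonneg (hc.1 _) (law_le_one hc _)
    have h3 : ent (conv q q) = ∑ z, Real.negMulLog (conv q q z) := rfl
    rw [h3, h1]
    linarith
  have hlog2 : Real.log 2 ≤ 7 / 10 := by
    have := Real.log_two_lt_d9
    linarith
  have hlog20 : 0 ≤ Real.log 2 := Real.log_nonneg (by norm_num)
  have hH00 : 0 ≤ H0 := by nlinarith
  have hmul : 2 * p * (1 - p) * Real.log 2 ≤ 2 * p * (1 - p) * (7 / 10) :=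
    mul_le_mul_of_nonneg_left hlog2 (by nlinarith)
  rw [hentq]
  -- final numeric estimate
  have g1 : 2 * p * H0 - 2 * p * (1 - p) * (7 / 10) - (1 - p ^ 2 - 2 * p * (1 - p)) ≤
      ent (conv q q) := by linarith
  have g2 : 1 - p ^ 2 - 2 * p * (1 - p) = (1 - p) ^ 2 := by ring
  rw [g2] at g1
  have g3 : (1 - p) ^ 2 ≤ (1 - p) * (1 / 100000) := by
    rw [sq]
    exact mul_le_mul_of_nonneg_left (by linarith) (by linarith)
  have g4 : 2 * p * (1 - p) * (7 / 10) ≤ 2 * (1 - p) * (7 / 10) := by nlinarith
  have g5 : 2 * (99 / 100) * H0 ≤ 2 * p * H0 := by nlinarith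
  linarith

end N149.NN
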