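import Pool.Agent.N149.Tow.NN4
set_option autoImplicit false

/-! The 99 percent inverse theorem for the entropy of a sum, in an arbitrary finite abelian
group. -/

open scoped Classical
set_option linter.unusedSectionVars false
set_option linter.unusedVariables false

namespace N149.NN

open H137.PFR

variable {V : Type*} [AddCommGroup V] [Fintype V]

theorem ent_conv3 {μ : V → ℝ} (hμ : Law μ) :
    ent (conv μ (conv μ μ)) ≤ ent μ + 2 * (ent (conv μ μ) - ent μ) := by
  have hl := law_prod hμ hμ
  have hind : H (prod μ μ) (fun p : V × V => (p.1, p.2)) =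
      H (prod μ μ) (fun p : V × V => p.1) + H (prod μ μ) (fun p : V × V => p.2) := by
    rw [H_prod hμ hμ (fun x : V => x) (fun x : V => x), H_prod_fst hμ hμ (fun x : V => x),
      H_prod_snd hμ hμ (fun x : V => x)]
  have h1 := kvm hμ hl (fun p : V × V => p.1) (fun p : V × V => p.2) hind
  rw [E0_unit hμ hl, E0_unit hμ hl] at h1
  have e1 : H (prod μ (prod μ μ)) (fun p : V × (V × V) => p.1 + (p.2.1 + p.2.2)) =
      ent (conv μ (conv μ μ)) := by
    unfold H
    congr 1
    have h2 : prod μ (conv μ μ) = push (prod μ (prod μ μ))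
        (fun p : V × (V × V) => (p.1, p.2.1 + p.2.2)) := by
      unfold conv
      have h3 := H137.TwoPow.prod_push μ (prod μ μ) (fun x : V => x) (fun p : V × V => p.1 + p.2)
      rw [push_id] at h3
      exact h3
    rw [conv, h2, push_push]
  have e2 : H (prod μ (prod μ μ)) (fun p : V × (V × V) => p.1 + p.2.1) = ent (conv μ μ) := by
    unfold H
    congr 1
    have h3 := H137.TwoPow.prod_push μ (prod μ μ) (fun x : V => x) (fun p : V × V => p.1)
    have h4 : push (prod μ μ) (fun p : V × V => p.1) = μ := by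
      rw [push_prod_fst μ hμ (fun x : V => x), push_id]
    rw [push_id, h4] at h3
    have h5 : conv μ μ = push (push (prod μ (prod μ μ)) (fun p : V × (V × V) => (p.1, p.2.1)))
        (fun p => p.1 + p.2) := by
      rw [← h3]
      rfl
    rw [h5, push_push]
  have e3 : H (prod μ μ) (fun p : V × V => p.1 + p.2) = ent (conv μ μ) := rfl
  have e4 : H (prod μ μ) (fun p : V × V => p.1) = ent μ := by
    rw [H_prod_fst hμ hμ (fun x : V => x), H_id]
  rw [e1, e2, e3, e4] at h1
  linarith

/-- **The 99 percent theorem.** -/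
theorem ninety_nine {μ : V → ℝ} (hμ : Law μ)
    (hκ : ent (conv μ μ) - ent μ ≤ 1 / 10000000) :
    ∃ H : AddSubgroup V, 2 * entMod μ H + Real.log (Nat.card H) - ent μ ≤
      54 * (ent (conv μ μ) - ent μ) := by
  set κ := ent (conv μ μ) - ent μ with hκdef
  have hbm := bad_mass hμ (le_of_eq hκdef.symm : ent (conv μ μ) - ent μ ≤ κ)
  have hbad : ∑ y ∈ bad μ, μ y ≤ 1 / 1000 := by linarith
  obtain ⟨z, hz⟩ := exists_good hμ hbad
  set H := per μ hμ hbad with hH
  refine ⟨H, ?_⟩
  have hn0 : (0 : ℝ) < Nat.card H := by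
    have : 0 < Nat.card H := Nat.card_pos
    exact_mod_cast this
  set n : ℝ := (Nat.card H : ℝ) with hn
  set ρ := conv μ μ with hρ
  have hρl : Law ρ := law_conv' hμ hμ
  set u : V → ℝ := fun y => if y - (z + z) ∈ H then n⁻¹ else 0 with hu
  have hu0 : ∀ y, 0 ≤ u y := by
    intro y
    rw [hu]
    simp only
    split_ifs
    · positivity
    · exact le_refl _
  have husum : ∑ y, u y = 1 := by
    have h1 : ∑ y, u y = ∑ y ∈ Finset.univ.image (fun h : H => z + z + (h : V)), n⁻¹ := by
      rw [hu]
      simp only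
      rw [← Finset.sum_filter]
      congr 1
      ext y
      rw [Finset.mem_filter, Finset.mem_image]
      constructor
      · intro hy
        exact ⟨⟨y - (z + z), hy.2⟩, Finset.mem_univ _, by simp⟩
      · rintro ⟨h, _, rfl⟩
        refine ⟨Finset.mem_univ _, ?_⟩
        rw [add_sub_cancel_left]
        exact h.2
    rw [h1, Finset.sum_const, Finset.card_image_of_injective, Finset.card_univ, nsmul_eq_mul,
      ← Nat.card_eq_fintype_card]
    · exact mul_inv_cancel₀ hn0.ne'
    · intro a b hab
      exact Subtype.ext (add_left_cancel hab)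
  set g3 : V → ℝ := fun y => ρ y - 1 / 25 * u y with hg3
  have hg30 : ∀ y, 0 ≤ g3 y := by
    intro y
    rw [hg3, hu]
    simp only
    split_ifs with h
    · have h1 := minor hμ hbad hz h
      rw [add_sub_cancel] at h1
      linarith
    · rw [mul_zero, sub_zero]
      exact hρl.1 y
  have hg3sum : ∑ y, g3 y = 1 - 1 / 25 := by
    rw [hg3]
    simp only
    rw [Finset.sum_sub_distrib, hρl.2, ← Finset.mul_sum, husum, mul_one]
  set f1 : V → ℝ := fun x => ∑ y, u y * μ (x - y) with hf1
  set f2 : V → ℝ := fun x => ∑ y, g3 y * μ (x - y) with hf2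
  have hf10 : ∀ x, 0 ≤ f1 x := fun x => Finset.sum_nonneg fun y _ => mul_nonneg (hu0 _) (hμ.1 _)
  have hf20 : ∀ x, 0 ≤ f2 x := fun x => Finset.sum_nonneg fun y _ => mul_nonneg (hg30 _) (hμ.1 _)
  have hdec : conv μ ρ = fun x => 1 / 25 * f1 x + f2 x := by
    funext x
    rw [Hundred.conv_apply, hf1, hf2]
    simp only
    rw [Finset.mul_sum, ← Finset.sum_add_distrib]
    refine Finset.sum_congr rfl fun y _ => ?_
    rw [hg3]
    ring
  have hf1inv : ∀ h ∈ H, ∀ x, f1 (x + h) = f1 x := by
    intro h hh x
    rw [hf1]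
    simp only
    refine Fintype.sum_equiv (Equiv.subRight h) _ _ (fun y => ?_)
    change u y * μ (x + h - y) = u (y - h) * μ (x - (y - h))
    have e1 : x + h - y = x - (y - h) := by abel
    have e2 : u (y - h) = u y := by
      rw [hu]
      simp only
      have e3 : y - h - (z + z) = (y - (z + z)) - h := by abel
      rw [e3]
      by_cases hy : y - (z + z) ∈ H
      · rw [if_pos hy, if_pos (H.sub_mem hy hh)]
      · rw [if_neg hy, if_neg]
        intro h5
        apply hy
        have := H.add_mem h5 hh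
        rwa [sub_add_cancel] at this
    rw [e1, e2]
  have hf1sum : ∑ x, f1 x = 1 := by
    rw [hf1]
    simp only
    rw [Finset.sum_comm]
    have e1 : ∀ y, ∑ x, u y * μ (x - y) = u y := by
      intro y
      rw [← Finset.mul_sum]
      have e2 : ∑ x, μ (x - y) = 1 := by
        rw [← hμ.2]
        exact Fintype.sum_equiv (Equiv.subRight y) _ _ (fun v => rfl)
      rw [e2, mul_one]
    rw [Finset.sum_congr rfl fun y _ => e1 y, husum]
  have hPhi : 1 / 25 * Real.log n + (1 - 1 / 25) * Phi H μ ≤ Phi H (conv μ ρ) := by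
    rw [hdec]
    have h1 := phi_super H (f := fun x => 1 / 25 * f1 x) (g := f2)
      (fun x => mul_nonneg (by norm_num) (hf10 x)) hf20
    rw [phi_smul H hf10 (by norm_num), phi_inv H hf10 hf1inv, hf1sum, one_mul] at h1
    have h2 := phi_sum H (f := μ) (g := g3) hμ.1 hg30 Finset.univ
    rw [hg3sum] at h2
    exact le_trans (by linarith) h1
  -- entropies
  have h3 := ent_conv3 hμ
  have h4 : entMod ρ H ≤ entMod (conv μ ρ) H := by
    have e1 : entMod (conv μ ρ) H = ent (push (conv μ ρ) (fun x : V =>
      (QuotientAddGroup.mk x : V ⧸ H))) := rfl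
    have e2 : entMod ρ H = ent (push ρ (fun x : V => (QuotientAddGroup.mk x : V ⧸ H))) := rfl
    rw [e1, e2, push_conv_mk μ ρ H, Hundred.conv_comm0]
    exact Hundred.ent_le_conv (law_push hρl (fun x : V => (QuotientAddGroup.mk x : V ⧸ H)))
      (law_push hμ (fun x : V => (QuotientAddGroup.mk x : V ⧸ H)))
  set q : V ⧸ H → ℝ := push μ (fun x : V => (QuotientAddGroup.mk x : V ⧸ H)) with hq
  have hql : Law q := law_push hμ (fun x : V => (QuotientAddGroup.mk x : V ⧸ H))
  have h5 : entMod ρ H = ent (conv q q) := by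
    have e2 : entMod ρ H = ent (push ρ (fun x : V => (QuotientAddGroup.mk x : V ⧸ H))) := rfl
    rw [e2, hρ, push_conv_mk]
  have h6 : entMod μ H = ent q := rfl
  have h7 : 1 - 1 / 100000 ≤ q (QuotientAddGroup.mk z) := by
    have e1 := mass_coset hμ hbad hz
    have e2 : q (QuotientAddGroup.mk z) = ∑ h : per μ hμ hbad, μ (z + h) := by
      rw [hq, push_filter]
      symm
      refine Finset.sum_bij (fun (h : H) _ => z + (h : V)) ?_ ?_ ?_ ?_
      · intro h _
        rw [mem_fbr, eq_comm, QuotientAddGroup.eq, neg_add_cancel_left]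
        exact h.2
      · intro a _ b _ hab
        exact Subtype.ext (add_left_cancel hab)
      · intro y hy
        have h2 := mem_fbr.1 hy
        rw [eq_comm, QuotientAddGroup.eq] at h2
        exact ⟨⟨-z + y, h2⟩, Finset.mem_univ _, by simp⟩
      · intro h _
        rfl
    rw [e2]
    linarith
  have h8 := almost_const hql _ h7
  have h9 := Hundred.ent_le_conv hql hql
  have h10 := ent_le_entMod hμ H
  have h11 := ent_sub_entMod H μ
  have h12 := ent_sub_entMod H (conv μ ρ)
  rw [← hκdef] at h3
  have h13 : Real.log (Nat.card H) = Real.log n := rfl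
  rw [h13] at h10 ⊢
  rw [h6] at h10 h11 ⊢
  rw [h5] at h4
  linarith

end N149.NN
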