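import Pool.Agent.H137R2.Weak.Unif
set_option autoImplicit false

/-! Selection of a set on which finitely many refinements are trivial, with the loss of the sum of
the conditional entropies only. -/

open scoped Classical
set_option linter.unusedSectionVars false
set_option linter.unusedVariables false

namespace N149.Tow

open H137.PFR H137.TwoPow H137.Weak

variable {Ω : Type*} [Fintype Ω]

theorem push_nonneg {γ : Type*} {w : Ω → ℝ} (hw : Law w) (C : Ω → γ) (c : γ) : 0 ≤ push w C c := by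
  unfold push
  exact Finset.sum_nonneg fun ω _ => by split_ifs; exacts [hw.1 ω, le_refl _]

theorem le_push {γ : Type*} {w : Ω → ℝ} (hw : Law w) (C : Ω → γ) (ω : Ω) :
    w ω ≤ push w C (C ω) := by
  unfold push
  have h := Finset.single_le_sum (f := fun ω' => if C ω' = C ω then w ω' else 0)
    (fun ω' _ => by
      change 0 ≤ (if C ω' = C ω then w ω' else 0)
      split_ifs
      exacts [hw.1 ω', le_refl _]) (Finset.mem_univ ω)
  simpa using h

theorem push_mono {γ δ : Type*} {w : Ω → ℝ} (hw : Law w) (C : Ω → γ) (D : Ω → δ)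
    (hCD : ∀ ω ω', D ω = D ω' → C ω = C ω') (ω : Ω) : push w D (D ω) ≤ push w C (C ω) := by
  unfold push
  refine Finset.sum_le_sum fun ω' _ => ?_
  by_cases h : D ω' = D ω
  · rw [if_pos h, if_pos (hCD _ _ h)]
  · rw [if_neg h]
    split_ifs
    exacts [hw.1 ω', le_refl _]

/-- conditional probability of the value of `D` given the value of `C` -/
noncomputable def cp {γ δ : Type*} (w : Ω → ℝ) (C : Ω → γ) (D : Ω → δ) (ω : Ω) : ℝ :=
  push w D (D ω) / push w C (C ω)

theorem cp_nonneg {γ δ : Type*} {w : Ω → ℝ} (hw : Law w) (C : Ω → γ) (D : Ω → δ) (ω : Ω) :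
    0 ≤ cp w C D ω := div_nonneg (push_nonneg hw _ _) (push_nonneg hw _ _)

/-- one greedy choice -/
theorem greedy {γ δ : Type*} {w : Ω → ℝ} (hw : Law w) (C : Ω → γ) (D : Ω → δ)
    (hCD : ∀ ω ω', D ω = D ω' → C ω = C ω') (g : Ω → ℝ) (hg : ∀ ω, 0 ≤ g ω) :
    ∃ S : Finset Ω, (∀ ω ∈ S, ∀ ω' ∈ S, C ω = C ω' → D ω = D ω') ∧
      ∑ ω, g ω * cp w C D ω ≤ ∑ ω ∈ S, g ω := by
  -- total mass of the atom of `D`
  set G : Ω → ℝ := fun ω => ∑ ω', if D ω' = D ω then g ω' else 0 with hG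
  have hex : ∀ ω : Ω, ∃ ω₁ : Ω, C ω₁ = C ω ∧ ∀ ω₂, C ω₂ = C ω → G ω₂ ≤ G ω₁ := by
    intro ω
    obtain ⟨ω₁, h1, h2⟩ := Finset.exists_max_image (Finset.univ.filter (fun ω' => C ω' = C ω)) G
      ⟨ω, by simp⟩
    exact ⟨ω₁, (Finset.mem_filter.1 h1).2, fun ω₂ h => h2 ω₂ (by simp [h])⟩
  choose r hr1 hr2 using hex
  -- canonical representative of the atom of `C`
  have : ∀ ω : Ω, Nonempty Ω := fun ω => ⟨ω⟩
  obtain ⟨κ, hκ⟩ : ∃ κ : Ω → Ω, ∀ ω ω', C ω = C ω' ↔ κ ω = κ ω' := exists_code hw C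
  have hκC : ∃ κ' : Ω → Ω, (∀ ω, C (κ' ω) = C ω) ∧ ∀ ω ω', C ω = C ω' → κ' ω = κ' ω' := by
    have hne : Nonempty Ω := law_nonempty hw
    refine ⟨fun ω => Function.invFun C (C ω), fun ω => Function.invFun_eq ⟨ω, rfl⟩, ?_⟩
    intro ω ω' h
    simp only [h]
  obtain ⟨κ', hκ1, hκ2⟩ := hκC
  set m : Ω → Ω := fun ω => r (κ' ω) with hm
  have hm1 : ∀ ω, C (m ω) = C ω := fun ω => (hr1 _).trans (hκ1 ω)
  have hm2 : ∀ ω ω', C ω = C ω' → m ω = m ω' := fun ω ω' h => by rw [hm]; simp only [hκ2 _ _ h]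
  have hm3 : ∀ ω, G ω ≤ G (m ω) := fun ω => hr2 _ _ (hκ1 ω).symm
  refine ⟨Finset.univ.filter (fun ω => D ω = D (m ω)), ?_, ?_⟩
  · intro ω hω ω' hω' h
    rw [Finset.mem_filter] at hω hω'
    rw [hω.2, hω'.2, hm2 _ _ h]
  · -- rearrangement
    have e1 : ∑ ω, g ω * cp w C D ω = ∑ ω', w ω' / push w C (C ω') * G ω' := by
      have h1 : ∀ ω, g ω * cp w C D ω =
          ∑ ω', (if D ω' = D ω then w ω' / push w C (C ω') * g ω else 0) := by
        intro ω
        unfold cp
        have h2 : push w D (D ω) = ∑ ω', (if D ω' = D ω then w ω' else 0) := rfl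
        rw [h2, Finset.sum_div, Finset.mul_sum]
        refine Finset.sum_congr rfl fun ω' _ => ?_
        by_cases h : D ω' = D ω
        · rw [if_pos h, if_pos h, hCD _ _ h]
          ring
        · rw [if_neg h, if_neg h, zero_div, mul_zero]
      simp_rw [h1]
      rw [Finset.sum_comm]
      refine Finset.sum_congr rfl fun ω' _ => ?_
      rw [hG]
      simp only
      rw [Finset.mul_sum]
      refine Finset.sum_congr rfl fun ω _ => ?_
      by_cases h : D ω' = D ω
      · rw [if_pos h, if_pos h.symm]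
      · rw [if_neg h, if_neg (fun h' => h h'.symm), mul_zero]
    have e2 : ∑ ω', w ω' / push w C (C ω') * G ω' ≤
        ∑ ω', w ω' / push w C (C ω') * G (m ω') :=
      Finset.sum_le_sum fun ω' _ =>
        mul_le_mul_of_nonneg_left (hm3 ω') (div_nonneg (hw.1 _) (push_nonneg hw _ _))
    have e3 : ∑ ω', w ω' / push w C (C ω') * G (m ω') ≤
        ∑ ω ∈ Finset.univ.filter (fun ω => D ω = D (m ω)), g ω := by
      have h1 : ∀ ω', w ω' / push w C (C ω') * G (m ω') =
          ∑ ω, (if D ω = D (m ω') then w ω' / push w C (C ω') * g ω else 0) := by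
        intro ω'
        rw [hG]
        simp only
        rw [Finset.mul_sum]
        refine Finset.sum_congr rfl fun ω _ => ?_
        split_ifs
        · rfl
        · rw [mul_zero]
      simp_rw [h1]
      rw [Finset.sum_comm, Finset.sum_filter]
      refine Finset.sum_le_sum fun ω _ => ?_
      by_cases h : D ω = D (m ω)
      · rw [if_pos h]
        have h2 : ∑ ω', (if D ω = D (m ω') then w ω' / push w C (C ω') * g ω else 0) ≤
            ∑ ω', (if C ω' = C ω then w ω' else 0) / push w C (C ω) * g ω := by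
          refine Finset.sum_le_sum fun ω' _ => ?_
          by_cases h3 : D ω = D (m ω')
          · have h4 : C ω = C ω' := (hCD _ _ h3).trans (hm1 ω')
            rw [if_pos h3, if_pos h4.symm, h4]
          · rw [if_neg h3]
            refine mul_nonneg (div_nonneg ?_ (push_nonneg hw _ _)) (hg ω)
            split_ifs
            exacts [hw.1 _, le_refl _]
        refine h2.trans ?_
        rw [← Finset.sum_mul, ← Finset.sum_div]
        have h5 : ∑ ω', (if C ω' = C ω then w ω' else 0) = push w C (C ω) := rfl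
        rw [h5]
        exact mul_le_of_le_one_left (hg ω) (div_self_le_one _)
      · rw [if_neg h]
        refine le_of_eq (Finset.sum_eq_zero fun ω' _ => ?_)
        rw [if_neg]
        intro h3
        apply h
        have h4 : C ω = C ω' := (hCD _ _ h3).trans (hm1 ω')
        rw [h3, hm2 _ _ h4]
    rw [e1]
    exact e2.trans e3

/-- iterated greedy choice -/
theorem greedy_iter {γ δ : ℕ → Type*} {w : Ω → ℝ} (hw : Law w) (C : ∀ j, Ω → γ j)
    (D : ∀ j, Ω → δ j) (hCD : ∀ j ω ω', D j ω = D j ω' → C j ω = C j ω') (n : ℕ) :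
    ∀ g : Ω → ℝ, (∀ ω, 0 ≤ g ω) →
      ∃ S : Finset Ω, (∀ j < n, ∀ ω ∈ S, ∀ ω' ∈ S, C j ω = C j ω' → D j ω = D j ω') ∧
        ∑ ω, g ω * ∏ j ∈ Finset.range n, cp w (C j) (D j) ω ≤ ∑ ω ∈ S, g ω := by
  induction n with
  | zero =>
    intro g hg
    refine ⟨Finset.univ, fun j hj => absurd hj (Nat.not_lt_zero _), ?_⟩
    simp
  | succ n ih =>
    intro g hg
    have hprod : ∀ ω, 0 ≤ ∏ j ∈ Finset.range n, cp w (C j) (D j) ω := fun ω =>
      Finset.prod_nonneg fun j _ => cp_nonneg hw _ _ _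
    obtain ⟨S₁, hS₁, h1⟩ := greedy hw (C n) (D n) (hCD n)
      (fun ω => g ω * ∏ j ∈ Finset.range n, cp w (C j) (D j) ω)
      (fun ω => mul_nonneg (hg ω) (hprod ω))
    obtain ⟨S₂, hS₂, h2⟩ := ih (fun ω => if ω ∈ S₁ then g ω else 0)
      (fun ω => by
        change 0 ≤ (if ω ∈ S₁ then g ω else 0)
        split_ifs
        exacts [hg ω, le_refl _])
    refine ⟨S₁ ∩ S₂, ?_, ?_⟩
    · intro j hj ω hω ω' hω' h
      rw [Finset.mem_inter] at hω hω'
      rcases Nat.lt_succ_iff_lt_or_eq.1 hj with hj | rfl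
      · exact hS₂ j hj ω hω.2 ω' hω'.2 h
      · exact hS₁ ω hω.1 ω' hω'.1 h
    · have e1 : ∑ ω, g ω * ∏ j ∈ Finset.range (n + 1), cp w (C j) (D j) ω =
          ∑ ω, (g ω * ∏ j ∈ Finset.range n, cp w (C j) (D j) ω) * cp w (C n) (D n) ω := by
        refine Finset.sum_congr rfl fun ω _ => ?_
        rw [Finset.prod_range_succ, mul_assoc]
      have e2 : ∑ ω ∈ S₁, g ω * ∏ j ∈ Finset.range n, cp w (C j) (D j) ω =
          ∑ ω, (if ω ∈ S₁ then g ω else 0) * ∏ j ∈ Finset.range n, cp w (C j) (D j) ω := by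
        rw [← Finset.sum_filter_add_sum_filter_not Finset.univ (fun ω => ω ∈ S₁)]
        rw [Finset.filter_mem_eq_inter, Finset.univ_inter]
        have e3 : ∑ ω ∈ Finset.univ.filter (fun ω => ω ∉ S₁),
            (if ω ∈ S₁ then g ω else 0) * ∏ j ∈ Finset.range n, cp w (C j) (D j) ω = 0 := by
          refine Finset.sum_eq_zero fun ω hω => ?_
          rw [if_neg (Finset.mem_filter.1 hω).2, zero_mul]
        rw [e3, add_zero]
        refine Finset.sum_congr rfl fun ω hω => ?_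
        rw [if_pos hω]
      have e4 : ∑ ω ∈ S₂, (if ω ∈ S₁ then g ω else 0) = ∑ ω ∈ S₁ ∩ S₂, g ω := by
        rw [← Finset.sum_filter, Finset.filter_mem_eq_inter, Finset.inter_comm]
      rw [e1]
      refine h1.trans ?_
      rw [e2, ← e4]
      exact h2

/-- **Selection lemma.** -/
theorem selection {γ δ : ℕ → Type*} {w : Ω → ℝ} (hw : Law w) (C : ∀ j, Ω → γ j)
    (D : ∀ j, Ω → δ j) (hCD : ∀ j ω ω', D j ω = D j ω' → C j ω = C j ω') (n : ℕ) :
    ∃ S : Finset Ω, (∀ j < n, ∀ ω ∈ S, ∀ ω' ∈ S, C j ω = C j ω' → D j ω = D j ω') ∧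
      Real.exp (-∑ j ∈ Finset.range n, (Hg w (D j) - Hg w (C j))) ≤ ∑ ω ∈ S, w ω := by
  obtain ⟨S, hS, h⟩ := greedy_iter hw C D hCD n w hw.1
  refine ⟨S, hS, le_trans ?_ h⟩
  set x : Ω → ℝ := fun ω => ∑ j ∈ Finset.range n,
    (Real.log (push w (D j) (D j ω)) - Real.log (push w (C j) (C j ω))) with hx
  have h1 : ∑ ω, w ω * x ω = -∑ j ∈ Finset.range n, (Hg w (D j) - Hg w (C j)) := by
    rw [hx]
    simp only [Finset.mul_sum]
    rw [Finset.sum_comm, ← Finset.sum_neg_distrib]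
    refine Finset.sum_congr rfl fun j _ => ?_
    unfold Hg
    rw [← Finset.sum_sub_distrib, ← Finset.sum_neg_distrib]
    refine Finset.sum_congr rfl fun ω _ => ?_
    ring
  have h2 := convexOn_exp.map_sum_le (t := (Finset.univ : Finset Ω)) (w := w) (p := x)
    (fun ω _ => hw.1 ω) hw.2 (fun ω _ => Set.mem_univ _)
  simp only [smul_eq_mul] at h2
  rw [h1] at h2
  refine h2.trans (Finset.sum_le_sum fun ω _ => ?_)
  by_cases h0 : w ω = 0
  · rw [h0, zero_mul, zero_mul]
  · have hpos : 0 < w ω := lt_of_le_of_ne (hw.1 ω) (Ne.symm h0)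
    refine mul_le_mul_of_nonneg_left (le_of_eq ?_) hpos.le
    rw [hx]
    simp only
    rw [Real.exp_sum]
    refine Finset.prod_congr rfl fun j _ => ?_
    have h3 : 0 < push w (D j) (D j ω) := lt_of_lt_of_le hpos (le_push hw _ _)
    have h4 : 0 < push w (C j) (C j ω) := lt_of_lt_of_le hpos (le_push hw _ _)
    rw [Real.exp_sub, Real.exp_log h3, Real.exp_log h4]
    rfl

end N149.Tow
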