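import Pool.Agent.N149.Tow.Lay
import Pool.Agent.N149.Tow.NN5
set_option autoImplicit false

/-! The stage lemma for an arbitrary exponent when the cost is small. -/

open scoped Classical
set_option linter.unusedSectionVars false
set_option linter.unusedVariables false

namespace N149.Tow

open H137.PFR H137.TwoPow H137.Weak

variable {Ω Ωc : Type*} [Fintype Ω] [Fintype Ωc] {G : Type*} [AddCommGroup G]

/-- the 99 percent theorem for a variable with values in a coset of a finite group -/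
theorem pfr_coset_99 {wc : Ωc → ℝ} (hwc : Law wc) (Z : Ωc → G) (W : AddSubgroup G) [Finite W]
    (hZ : ∀ ω ω', (Z ω : G ⧸ W) = Z ω')
    (hsmall : Hg (prod wc wc) (fun p => Z p.1 - Z p.2) - Hg wc Z ≤ 1 / 20000000) :
    ∃ W' ≤ W, 2 * Hg wc (fun ω => (Z ω : G ⧸ W')) + Real.log (Nat.card W') - Hg wc Z ≤
      108 * (Hg (prod wc wc) (fun p => Z p.1 - Z p.2) - Hg wc Z) := by
  have : Fintype W := Fintype.ofFinite W
  obtain ⟨ω₀⟩ := law_nonempty hwc
  have hmem : ∀ ω, Z ω - Z ω₀ ∈ W := by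
    intro ω
    have h1 := hZ ω₀ ω
    rw [QuotientAddGroup.eq] at h1
    have h2 : Z ω - Z ω₀ = -Z ω₀ + Z ω := by abel
    rw [h2]
    exact h1
  set T : Ωc → W := fun ω => ⟨Z ω - Z ω₀, hmem ω⟩ with hT
  have hτ : Law (push wc T) := law_push hwc T
  have hTZ : ∀ ω ω', T ω = T ω' ↔ Z ω = Z ω' := by
    intro ω ω'
    rw [Subtype.ext_iff]
    change Z ω - Z ω₀ = Z ω' - Z ω₀ ↔ _
    exact sub_left_inj
  have e1 : ent (push wc T) = Hg wc Z := by
    rw [← Hg_congr hTZ, Hg_eq_H]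
    rfl
  have e0 : Hg wc T = Hg wc Z := Hg_congr hTZ
  have ek : kap wc T = Hg (prod wc wc) (fun p => Z p.1 - Z p.2) - Hg wc Z := by
    unfold kap
    rw [e0]
    congr 1
    refine Hg_congr fun p q => ?_
    have h2 : ∀ p : Ωc × Ωc, ((T p.1 - T p.2 : W) : G) = Z p.1 - Z p.2 := by
      intro p
      change (Z p.1 - Z ω₀) - (Z p.2 - Z ω₀) = _
      abel
    rw [Subtype.ext_iff, h2, h2]
  have e2 : ent (conv (push wc T) (push wc T)) ≤ Hg wc Z +
      2 * (Hg (prod wc wc) (fun p => Z p.1 - Z p.2) - Hg wc Z) := by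
    unfold conv
    rw [prod_push, push_push]
    have h1 : ent (push (prod wc wc) (fun p : Ωc × Ωc => T p.1 + T p.2)) =
        Hg (prod wc wc) (fun p : Ωc × Ωc => T p.1 + T p.2) := by
      rw [Hg_eq_H]
      rfl
    rw [h1, ← ek, ← e0]
    exact Hg_sum_le hwc T
  obtain ⟨G', hG'⟩ := N149.NN.ninety_nine hτ (by
    rw [e1]
    linarith)
  refine ⟨G'.map W.subtype, ?_, ?_⟩
  · intro x hx
    obtain ⟨t, _, rfl⟩ := AddSubgroup.mem_map.1 hx
    exact t.2
  · have hcard : Nat.card (G'.map W.subtype) = Nat.card G' :=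
      AddSubgroup.card_map_of_injective W.subtype_injective
    have e3 : entMod (push wc T) G' = Hg wc (fun ω => (Z ω : G ⧸ G'.map W.subtype)) := by
      unfold entMod
      rw [H_push, ← Hg_eq_H]
      refine Hg_congr fun ω ω' => ?_
      rw [QuotientAddGroup.eq, QuotientAddGroup.eq]
      have h1 : -Z ω + Z ω' = ((-T ω + T ω' : W) : G) := by
        push_cast
        change _ = -(Z ω - Z ω₀) + (Z ω' - Z ω₀)
        abel
      rw [h1]
      constructor
      · intro h
        exact AddSubgroup.mem_map.2 ⟨_, h, rfl⟩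
      · intro h
        obtain ⟨u, hu, hu2⟩ := AddSubgroup.mem_map.1 h
        have : u = -T ω + T ω' := Subtype.ext hu2
        rw [← this]
        exact hu
    rw [hcard]
    rw [e1, e3] at hG'
    linarith

/-- **Stage lemma** for small cost. -/
theorem stage_99 {w : Ω → ℝ} (hw : Law w) (X : Ω → G) (W : AddSubgroup G) [Finite W]
    (hsmall : kap w X - kap w (fun ω => (X ω : G ⧸ W)) ≤ 1 / 40000000) :
    ∃ W' ≤ W, 2 * Hg w (fun ω => (X ω : G ⧸ W')) + Real.log (Nat.card W') ≤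
      Hg w X + Hg w (fun ω => (X ω : G ⧸ W)) +
        218 * (kap w X - kap w (fun ω => (X ω : G ⧸ W))) := by
  obtain ⟨C, hC⟩ := exists_code hw (fun ω => (X ω : G ⧸ W))
  obtain ⟨c, hc, hsel⟩ := select hw X C
  have hwc := law_cw hw C hc
  have hZ : ∀ ω ω' : {ω : Ω // C ω = c}, ((fun ω : {ω : Ω // C ω = c} => X ω.1) ω : G ⧸ W) =
      ((fun ω : {ω : Ω // C ω = c} => X ω.1) ω' : G) := by
    intro ω ω'
    exact (hC _ _).2 (ω.2.trans ω'.2.symm)
  have hdbl := fibre_dbl hw hwc X (fun ω : {ω : Ω // C ω = c} => X ω.1) W hZ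
  have hfib := fibring hw X (QuotientAddGroup.mk' W)
  have g1 : Hg w C = Hg w (fun ω => (X ω : G ⧸ W)) := (Hg_congr hC).symm
  have g2 : Hg (prod w w) (fun p => (X p.1 - X p.2, C p.2)) =
      Hg (prod w w) (fun p => (X p.1 - X p.2, (X p.2 : G ⧸ W))) :=
    Hg_congr fun p q => by simp only [Prod.mk.injEq, hC]
  have g3 : Hg w (fun ω => (X ω, C ω)) = Hg w X :=
    Hg_congr fun ω ω' => by
      simp only [Prod.mk.injEq, ← hC]
      constructor
      · intro h
        exact h.1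
      · intro h
        exact ⟨h, by rw [h]⟩
  rw [g1, g2, g3] at hsel
  have g4 : Hg (prod w w) (fun p => (X p.1 - X p.2, (X p.2 : G ⧸ W))) ≤
      Hg w X + Hg w (fun ω => (X ω : G ⧸ W)) + (kap w X - kap w (fun ω => (X ω : G ⧸ W))) := hfib
  set κc := Hg (prod (cw w C c) (cw w C c)) (fun p => (fun ω : {ω : Ω // C ω = c} => X ω.1) p.1 -
    (fun ω : {ω : Ω // C ω = c} => X ω.1) p.2) - Hg (cw w C c) (fun ω => X ω.1) with hκc
  set κ := kap w X - kap w (fun ω => (X ω : G ⧸ W)) with hκ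
  -- doubling of the fibre
  have h1 : κc ≤ 2 * κ := by
    rw [hκc]
    linarith
  obtain ⟨W', hW', hpfr⟩ := pfr_coset_99 hwc (fun ω : {ω : Ω // C ω = c} => X ω.1) W hZ
    (by linarith)
  have htri := tri hw hwc X (fun ω : {ω : Ω // C ω = c} => X ω.1) W'
  refine ⟨W', hW', ?_⟩
  linarith

/-- the stage lemma for a pair `N ≤ M` of small cost -/
theorem stage_pair_99 {w : Ω → ℝ} {N M : AddSubgroup G} (hw : Law w) (X : Ω → G) (h : N ≤ M)
    (hfin : N.relIndex M ≠ 0) (hsmall : kk w X N - kk w X M ≤ 1 / 40000000) :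
    ∃ N' : AddSubgroup G, N ≤ N' ∧ N' ≤ M ∧
      2 * hh w X N' + Real.log (N.relIndex N') ≤
        hh w X N + hh w X M + 218 * (kk w X N - kk w X M) := by
  have hc := card_map_mk N M
  have : Finite (M.map (QuotientAddGroup.mk' N)) :=
    Nat.finite_of_card_ne_zero (by rw [hc]; exact hfin)
  obtain ⟨W', hW', hst⟩ := stage_99 hw (fun ω => (X ω : G ⧸ N)) (M.map (QuotientAddGroup.mk' N))
    (by
      rw [kap_mk_mk, comap_map_mk h]
      exact hsmall)
  rw [Hg_mk_mk, Hg_mk_mk, kap_mk_mk, comap_map_mk h] at hst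
  refine ⟨W'.comap (QuotientAddGroup.mk' N), ?_, ?_, ?_⟩
  · intro x hx
    rw [AddSubgroup.mem_comap]
    have h1 : QuotientAddGroup.mk' N x = 0 := (QuotientAddGroup.eq_zero_iff (N := N) x).2 hx
    rw [h1]
    exact W'.zero_mem
  · have h1 := AddSubgroup.comap_mono (f := QuotientAddGroup.mk' N) hW'
    rw [comap_map_mk h] at h1
    exact h1
  · have h1 : N.relIndex (W'.comap (QuotientAddGroup.mk' N)) = Nat.card W' := by
      rw [← card_map_mk, AddSubgroup.map_comap_eq_self_of_surjective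
        (QuotientAddGroup.mk'_surjective N)]
    rw [h1]
    exact hst

/-- **A long layer of small cost.** -/
theorem layer_99 {w : Ω → ℝ} (hw : Law w) (X : Ω → G) {N M : AddSubgroup G} (h : N ≤ M) (m : ℕ)
    (hm : 0 < m) (h2 : ∀ x ∈ M, m • x ∈ N) (hsmall : kk w X N - kk w X M ≤ 1 / 40000000) :
    ∃ P : AddSubgroup G, N ≤ P ∧ P ≤ M ∧ N.relIndex P ≠ 0 ∧
      2 * hh w X P + Real.log (N.relIndex P) ≤
        hh w X N + hh w X M + 218 * (kk w X N - kk w X M) := by
  set M' := N ⊔ red X M with hM'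
  have hM'M : M' ≤ M := sup_le h (red_le X M)
  have hne : N.relIndex M' ≠ 0 := by
    rw [hM', sup_comm, AddSubgroup.relIndex_sup_right]
    exact relIndex_ne_zero_m (red_fg X M) m hm (fun x hx => h2 x (red_le X M hx))
  have hhM : hh w X M' = hh w X M := by
    refine le_antisymm ?_ (hh_anti hw X hM'M)
    rw [← hh_red X M]
    exact hh_anti hw X le_sup_right
  have h1 := kk_anti hw X hM'M
  obtain ⟨P, hP1, hP2, hP3⟩ := stage_pair_99 hw X (le_sup_left : N ≤ M') hne (by linarith)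
  refine ⟨P, hP1, hP2.trans hM'M, ?_, ?_⟩
  · have h1 := AddSubgroup.relIndex_mul_relIndex N P M' hP1 hP2
    intro h3
    rw [h3, zero_mul] at h1
    exact hne h1.symm
  · rw [hhM] at hP3
    linarith

end N149.Tow
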