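import Pool.Agent.N149.Tow.Cross
set_option autoImplicit false

/-! Sums of independent copies and the selection of a tower for them. -/

open scoped Classical
set_option linter.unusedSectionVars false
set_option linter.unusedVariables false

namespace N149.Tow

open H137.PFR H137.TwoPow H137.Weak

variable {Ω Ω' : Type*} [Fintype Ω] [Fintype Ω'] {G : Type*} [AddCommGroup G] {w : Ω → ℝ}
  {v : Ω' → ℝ}

/-- the entropy of `Y` in each layer is at least that of `X` -/
def Dom (w : Ω → ℝ) (X : Ω → G) (v : Ω' → ℝ) (Y : Ω' → G) : Prop :=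
  ∀ N M : AddSubgroup G, N ≤ M → hh w X N + hh v Y M ≤ hh v Y N + hh w X M

theorem dom_add (hw : Law w) (hv : Law v) (X : Ω → G) (Z : Ω' → G) :
    Dom w X (prod w v) (fun p => X p.1 + Z p.2) := by
  intro N M h
  have hl := law_prod hw hv
  have h1 : Hg (prod w v) (fun p => ((X p.1 : G ⧸ N), Z p.2)) = hh w X N + Hg v Z :=
    Hg_prod hw hv (fun ω => (X ω : G ⧸ N)) Z
  have h2 : Hg (prod w v) (fun p => ((X p.1 : G ⧸ M), Z p.2)) = hh w X M + Hg v Z :=
    Hg_prod hw hv (fun ω => (X ω : G ⧸ M)) Z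
  have h3 : Hg (prod w v) (fun p => ((X p.1 : G ⧸ N), Z p.2)) +
      hh (prod w v) (fun p => X p.1 + Z p.2) M ≤
      hh (prod w v) (fun p => X p.1 + Z p.2) N +
      Hg (prod w v) (fun p => ((X p.1 : G ⧸ M), Z p.2)) := by
    refine Hg_sub_of hl ?_ ?_ ?_
    · intro p q h'
      rw [QuotientAddGroup.eq] at h' ⊢
      exact h h'
    · intro p q h'
      simp only [Prod.mk.injEq] at h'
      obtain ⟨h4, h5⟩ := h'
      change ((X p.1 + Z p.2 : G) : G ⧸ M) = ((X q.1 + Z q.2 : G) : G ⧸ M)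
      rw [h5]
      rw [QuotientAddGroup.eq] at h4 ⊢
      have e : -(X p.1 + Z q.2) + (X q.1 + Z q.2) = -X p.1 + X q.1 := by abel
      rw [e]
      exact h4
    · intro p q h4 h5
      simp only [Prod.mk.injEq] at h5 ⊢
      obtain ⟨_, h6⟩ := h5
      refine ⟨?_, h6⟩
      change ((X p.1 + Z p.2 : G) : G ⧸ N) = ((X q.1 + Z q.2 : G) : G ⧸ N) at h4
      rw [h6] at h4
      rw [QuotientAddGroup.eq] at h4 ⊢
      have e : -(X p.1 + Z q.2) + (X q.1 + Z q.2) = -X p.1 + X q.1 := by abel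
      rw [e] at h4
      exact h4
  linarith

theorem Dom.equiv {Ω'' : Type*} [Fintype Ω''] {v' : Ω'' → ℝ} {X : Ω → G} {Y : Ω' → G}
    (h : Dom w X v Y) (e : Ω' ≃ Ω'') (he : ∀ p, v' (e p) = v p) (Y' : Ω'' → G)
    (hY : ∀ p, Y' (e p) = Y p) : Dom w X v' Y' := by
  intro N M hNM
  have h1 : ∀ L : AddSubgroup G, hh v' Y' L = hh v Y L := by
    intro L
    unfold hh
    rw [Hg_equiv e he]
    simp only [hY]
  rw [h1, h1]
  exact h N M hNM

/-! ### product laws -/

/-- product weights -/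
noncomputable def wk (w : Ω → ℝ) (k : ℕ) : (Fin k → Ω) → ℝ := fun f => ∏ i, w (f i)

theorem law_wk (hw : Law w) (k : ℕ) : Law (wk w k) := by
  refine ⟨fun f => Finset.prod_nonneg fun i _ => hw.1 _, ?_⟩
  have h := Fintype.sum_pow w k
  rw [hw.2, one_pow] at h
  exact h.symm

/-- the difference of two sums -/
noncomputable def sd (X : Ω → G) (k l : ℕ) : (Fin k → Ω) × (Fin l → Ω) → G :=
  fun p => ∑ i, X (p.1 i) - ∑ i, X (p.2 i)

theorem dom_sd (hw : Law w) (X : Ω → G) (k l : ℕ) :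
    Dom w X (prod (wk w (k + 1)) (wk w l)) (sd X (k + 1) l) := by
  have h := dom_add hw (law_prod (law_wk hw k) (law_wk hw l)) X (sd X k l)
  refine h.equiv (⟨fun p => (Fin.cons p.1 p.2.1, p.2.2),
    fun p => (p.1 0, (Fin.tail p.1, p.2)), ?_, ?_⟩ :
      Ω × ((Fin k → Ω) × (Fin l → Ω)) ≃ (Fin (k + 1) → Ω) × (Fin l → Ω)) ?_ _ ?_
  · intro p
    simp
  · intro p
    simp
  · intro p
    change wk w (k + 1) (Fin.cons p.1 p.2.1) * wk w l p.2.2 = w p.1 * (wk w k p.2.1 * wk w l p.2.2)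
    unfold wk
    rw [Fin.prod_univ_succ]
    simp only [Fin.cons_zero, Fin.cons_succ]
    ring
  · intro p
    change ∑ i, X ((Fin.cons p.1 p.2.1 : Fin (k + 1) → Ω) i) - ∑ i, X (p.2.2 i) =
      X p.1 + (∑ i, X (p.2.1 i) - ∑ i, X (p.2.2 i))
    rw [Fin.sum_univ_succ]
    simp only [Fin.cons_zero, Fin.cons_succ]
    abel

/-! ### selection of the tower -/

/-- for a finite set of elements the filtration can be cut -/
theorem exists_cut (N : ℕ → AddSubgroup G) (hN : ∀ j, N (j + 1) ≤ N j) (D : Finset G) :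
    ∃ n, ∀ x ∈ D, x ∈ N n → ∀ j, x ∈ N j := by
  have hanti : Antitone N := antitone_nat_of_succ_le hN
  induction D using Finset.induction_on with
  | empty => exact ⟨0, fun x hx => absurd hx (Finset.notMem_empty _)⟩
  | insert a D ha ih =>
    obtain ⟨n, hn⟩ := ih
    by_cases h : ∀ j, a ∈ N j
    · refine ⟨n, fun x hx hxn => ?_⟩
      rcases Finset.mem_insert.1 hx with rfl | hx
      · exact h
      · exact hn x hx hxn
    · push Not at h
      obtain ⟨j, hj⟩ := h
      refine ⟨max n j, fun x hx hxn => ?_⟩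
      rcases Finset.mem_insert.1 hx with rfl | hx
      · exact absurd (hanti (le_max_right n j) hxn) hj
      · exact hn x hx (hanti (le_max_left n j) hxn)

theorem tower_select (hw : Law w) (hv : Law v) (X : Ω → G) (Y : Ω' → G) (hdom : Dom w X v Y)
    (N M : ℕ → AddSubgroup G) (h0 : N 0 = ⊤) (hN : ∀ j, N (j + 1) ≤ N j)
    (hM1 : ∀ j, N (j + 1) ≤ M j) (hM2 : ∀ j, M j ≤ N j) {R : ℝ}
    (hR : ∀ n, ∑ j ∈ Finset.range n, (hh w X (M j) - hh w X (N j)) ≤ R) :
    ∃ S : Finset Ω', (∀ s ∈ S, ∀ s' ∈ S, ∀ j, Y s - Y s' ∈ N j → Y s - Y s' ∈ M j) ∧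
      Real.exp (-(Hg v Y - Hg w X + R)) ≤ ∑ s ∈ S, v s := by
  obtain ⟨n, hn⟩ := exists_cut N hN (Finset.univ.image (fun p : Ω' × Ω' => Y p.1 - Y p.2))
  obtain ⟨S, hS, hSm⟩ := selection hv (fun j ω => (Y ω : G ⧸ N j)) (fun j ω => (Y ω : G ⧸ M j))
    (fun j ω ω' h => by
      rw [QuotientAddGroup.eq] at h ⊢
      exact hM2 j h) n
  have hanti : Antitone N := antitone_nat_of_succ_le hN
  refine ⟨S, ?_, ?_⟩
  · intro s hs s' hs' j hj
    have hmem : Y s - Y s' ∈ Finset.univ.image (fun p : Ω' × Ω' => Y p.1 - Y p.2) :=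
      Finset.mem_image.2 ⟨(s, s'), Finset.mem_univ _, rfl⟩
    rcases lt_or_ge j n with hjn | hjn
    · have h1 := hS j hjn s' hs' s hs (by
        rw [QuotientAddGroup.eq, neg_add_eq_sub]
        exact hj)
      rw [QuotientAddGroup.eq, neg_add_eq_sub] at h1
      exact h1
    · exact hM1 j (hn _ hmem (hanti hjn hj) (j + 1))
  · refine le_trans (Real.exp_le_exp.2 (neg_le_neg ?_)) hSm
    have hsum : ∀ n, ∑ j ∈ Finset.range n, (hh v Y (M j) - hh v Y (N j)) ≤
        (hh v Y (N n) - hh w X (N n)) +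
          ∑ j ∈ Finset.range n, (hh w X (M j) - hh w X (N j)) := by
      intro n
      induction n with
      | zero =>
        have e1 : hh v Y (N 0) = 0 := Hg_const hv _ (fun ω ω' => by
          rw [QuotientAddGroup.eq, h0]
          exact AddSubgroup.mem_top _)
        have e2 : hh w X (N 0) = 0 := Hg_const hw _ (fun ω ω' => by
          rw [QuotientAddGroup.eq, h0]
          exact AddSubgroup.mem_top _)
        simp [e1, e2]
      | succ n ih =>
        rw [Finset.sum_range_succ, Finset.sum_range_succ]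
        have h1 := hdom (N (n + 1)) (M n) (hM1 n)
        linarith
    have h1 := hsum n
    have h2 := hdom ⊥ (N n) bot_le
    rw [hh_bot, hh_bot] at h2
    have h3 := hR n
    have h4 : ∑ j ∈ Finset.range n, (Hg v (fun ω => (Y ω : G ⧸ M j)) -
        Hg v (fun ω => (Y ω : G ⧸ N j))) =
        ∑ j ∈ Finset.range n, (hh v Y (M j) - hh v Y (N j)) := rfl
    rw [h4]
    linarith

end N149.Tow
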